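import Pool.Graph.R_seed8.H136R3.WA.Pompeiu

/-! The Cauchy transform of a bounded set. -/

set_option autoImplicit false

namespace Pool.Agent.Helper6.CO

open Complex Set Metric MeasureTheory Filter Topology
open scoped ComplexConjugate Real
open Pool.Agent.H136R3.WA

/-- The Cauchy transform `1 / π ∫ dA(ζ) / (z - ζ)` of the area measure of a set. -/
noncomputable def cau (Ω : Set ℂ) (z : ℂ) : ℂ := (π : ℂ)⁻¹ * ∫ ζ in Ω, (z - ζ)⁻¹

theorem cau_int {Ω : Set ℂ} (hb : Bornology.IsBounded Ω) (z : ℂ) :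
    IntegrableOn (fun ζ : ℂ => (z - ζ)⁻¹) Ω := by
  obtain ⟨R, hR, h⟩ := hb.exists_pos_norm_lt
  exact (integrable_inv_ball z R hR).mono_set fun x hx => by
    rw [mem_ball, dist_zero_right]
    exact h x hx

/-- the truncated kernel -/
noncomputable def kd (δ : ℝ) (t : ℂ) : ℂ := conj t / ((max ‖t‖ δ : ℝ) : ℂ) ^ 2

theorem kd_cont {δ : ℝ} (hδ : 0 < δ) : Continuous (kd δ) := by
  unfold kd
  refine Continuous.div (by fun_prop) (by fun_prop) fun t => ?_
  have h1 : 0 < max ‖t‖ δ := lt_max_of_lt_right hδ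
  exact pow_ne_zero _ (by exact_mod_cast h1.ne')

theorem kd_far {δ : ℝ} {t : ℂ} (h : δ ≤ ‖t‖) : kd δ t = t⁻¹ := by
  unfold kd
  rw [max_eq_left h, Complex.inv_def, Complex.normSq_eq_norm_sq]
  push_cast
  rw [div_eq_mul_inv]

theorem kd_norm {δ : ℝ} (hδ : 0 < δ) (t : ℂ) : ‖kd δ t‖ ≤ δ⁻¹ := by
  have h1 : 0 < max ‖t‖ δ := lt_max_of_lt_right hδ
  unfold kd
  rw [norm_div, norm_pow, RCLike.norm_conj, Complex.norm_real, Real.norm_of_nonneg h1.le,
    div_le_iff₀ (by positivity)]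
  have h2 : ‖t‖ ≤ max ‖t‖ δ := le_max_left _ _
  have h3 : δ ≤ max ‖t‖ δ := le_max_right _ _
  calc ‖t‖ ≤ max ‖t‖ δ := h2
    _ = δ⁻¹ * (δ * max ‖t‖ δ) := by field_simp
    _ ≤ δ⁻¹ * (max ‖t‖ δ ^ 2) := by
      apply mul_le_mul_of_nonneg_left _ (by positivity)
      nlinarith

theorem kd_sub {δ : ℝ} (hδ : 0 < δ) (t : ℂ) :
    ‖t⁻¹ - kd δ t‖ ≤ (ball (0 : ℂ) δ).indicator (fun t => ‖t‖⁻¹) t := by
  by_cases h : δ ≤ ‖t‖
  · rw [kd_far h, sub_self, norm_zero]
    exact indicator_nonneg (fun _ _ => by positivity) _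
  · push Not at h
    rw [indicator_of_mem (by rwa [mem_ball, dist_zero_right])]
    by_cases h0 : t = 0
    · subst h0
      simp [kd]
    have ht : 0 < ‖t‖ := norm_pos_iff.2 h0
    have h1 : t⁻¹ = conj t * (((‖t‖ ^ 2)⁻¹ : ℝ) : ℂ) := by
      rw [Complex.inv_def, Complex.normSq_eq_norm_sq]
    have h2 : kd δ t = conj t * (((δ ^ 2)⁻¹ : ℝ) : ℂ) := by
      unfold kd
      rw [max_eq_right h.le, div_eq_mul_inv]
      push_cast
      rfl
    rw [h1, h2, ← mul_sub, norm_mul, RCLike.norm_conj, ← Complex.ofReal_sub, Complex.norm_real]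
    have h3 : (δ ^ 2)⁻¹ ≤ (‖t‖ ^ 2)⁻¹ := by
      apply inv_anti₀ (by positivity)
      nlinarith
    rw [Real.norm_of_nonneg (by linarith)]
    have h4 : 0 < (δ ^ 2)⁻¹ := by positivity
    calc ‖t‖ * ((‖t‖ ^ 2)⁻¹ - (δ ^ 2)⁻¹) ≤ ‖t‖ * (‖t‖ ^ 2)⁻¹ := by
          apply mul_le_mul_of_nonneg_left _ ht.le
          linarith
      _ = ‖t‖⁻¹ := by
        field_simp

theorem cau_approx {Ω : Set ℂ} (hb : Bornology.IsBounded Ω) {δ : ℝ} (hδ : 0 < δ) (z : ℂ) :
    ‖(∫ ζ in Ω, (z - ζ)⁻¹) - ∫ ζ in Ω, kd δ (z - ζ)‖ ≤ 2 * π * δ := by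
  have hfin : volume Ω < ⊤ := hb.measure_lt_top
  haveI : IsFiniteMeasure (volume.restrict Ω) := ⟨by rwa [Measure.restrict_apply_univ]⟩
  have hk : IntegrableOn (fun ζ : ℂ => kd δ (z - ζ)) Ω := by
    refine Integrable.mono' (integrable_const δ⁻¹)
      ((kd_cont hδ).comp (by fun_prop)).aestronglyMeasurable ?_
    exact Eventually.of_forall fun ζ => kd_norm hδ _
  rw [← integral_sub (cau_int hb z) hk]
  refine (norm_integral_le_lintegral_norm _).trans ?_
  apply ENNReal.toReal_le_of_le_ofReal (by positivity)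
  calc ∫⁻ ζ in Ω, ENNReal.ofReal ‖(z - ζ)⁻¹ - kd δ (z - ζ)‖
      ≤ ∫⁻ ζ, ENNReal.ofReal ‖(z - ζ)⁻¹ - kd δ (z - ζ)‖ := setLIntegral_le_lintegral _ _
    _ ≤ ∫⁻ ζ, (ball z δ).indicator (fun w => (‖z - w‖ₑ)⁻¹) ζ := by
        apply lintegral_mono_ae
        have hne : ∀ᵐ ζ : ℂ, ζ ≠ z := Measure.ae_ne volume z
        filter_upwards [hne] with ζ hζ
        have h1 := kd_sub hδ (z - ζ)
        have h0 : z - ζ ≠ 0 := sub_ne_zero.2 (Ne.symm hζ)
        by_cases h : ζ ∈ ball z δ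
        · rw [indicator_of_mem h]
          rw [indicator_of_mem (by
            rw [mem_ball, dist_zero_right, ← dist_eq_norm, dist_comm]
            exact h)] at h1
          refine (ENNReal.ofReal_le_ofReal h1).trans ?_
          rw [ENNReal.ofReal_inv_of_pos (norm_pos_iff.2 h0), ofReal_norm]
        · rw [indicator_of_notMem h]
          rw [indicator_of_notMem (by
            rw [mem_ball, dist_zero_right, ← dist_eq_norm, dist_comm]
            exact h)] at h1
          rw [le_antisymm h1 (norm_nonneg _)]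
          simp
    _ = ∫⁻ w in ball z δ, (‖z - w‖ₑ)⁻¹ := lintegral_indicator isOpen_ball.measurableSet _
    _ ≤ ENNReal.ofReal (2 * π * δ) := Pool.Agent.H136R3.lint_inv_center z δ hδ

theorem cau_cont {Ω : Set ℂ} (hb : Bornology.IsBounded Ω) : Continuous (cau Ω) := by
  unfold cau
  apply continuous_const.mul
  apply continuous_of_uniform_approx_of_continuous
  intro u hu
  obtain ⟨ε, hε, h⟩ := Metric.mem_uniformity_dist.1 hu
  set δ : ℝ := ε / (2 * π + 1) / 2 with hδ
  have hpi := Real.pi_pos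
  have hδ0 : 0 < δ := by positivity
  have hfin : volume Ω < ⊤ := hb.measure_lt_top
  haveI : IsFiniteMeasure (volume.restrict Ω) := ⟨by rwa [Measure.restrict_apply_univ]⟩
  refine ⟨fun z => ∫ ζ in Ω, kd δ (z - ζ), ?_, fun z => h ?_⟩
  · refine continuous_of_dominated (bound := fun _ => δ⁻¹) ?_ ?_ (integrable_const _) ?_
    · exact fun z => ((kd_cont hδ0).comp (by fun_prop)).aestronglyMeasurable
    · exact fun z => Eventually.of_forall fun ζ => kd_norm hδ0 _
    · exact Eventually.of_forall fun ζ => (kd_cont hδ0).comp (by fun_prop)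
  · rw [dist_eq_norm]
    refine (cau_approx hb hδ0 z).trans_lt ?_
    rw [hδ]
    have h1 : 0 < 2 * π + 1 := by positivity
    rw [show 2 * π * (ε / (2 * π + 1) / 2) = ε * (π / (2 * π + 1)) by field_simp]
    have h2 : π / (2 * π + 1) < 1 := by
      rw [div_lt_one h1]
      linarith
    nlinarith

theorem cau_out {Ω : Set ℂ} (hm : MeasurableSet Ω) (hb : Bornology.IsBounded Ω) {z : ℂ}
    (hz : z ∉ closure Ω) : DifferentiableAt ℂ (cau Ω) z := by
  have hfin : volume Ω < ⊤ := hb.measure_lt_top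
  haveI : IsFiniteMeasure (volume.restrict Ω) := ⟨by rwa [Measure.restrict_apply_univ]⟩
  obtain ⟨δ, hδ, h⟩ : ∃ δ > 0, ball z (2 * δ) ⊆ (closure Ω)ᶜ := by
    obtain ⟨δ, hδ, h⟩ := Metric.isOpen_iff.1 isClosed_closure.isOpen_compl z hz
    exact ⟨δ / 2, by positivity, by rwa [show 2 * (δ / 2) = δ by ring]⟩
  have hd : ∀ w ∈ ball z δ, ∀ ζ ∈ Ω, δ ≤ ‖w - ζ‖ := by
    intro w hw ζ hζ
    by_contra h1
    push Not at h1
    refine h (?_ : ζ ∈ ball z (2 * δ)) (subset_closure hζ)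
    rw [mem_ball] at hw ⊢
    have h2 : dist w ζ < δ := by rwa [dist_eq_norm]
    have h3 := dist_triangle ζ w z
    rw [dist_comm ζ w] at h3
    linarith
  unfold cau
  apply DifferentiableAt.const_mul
  refine (hasDerivAt_integral_of_dominated_loc_of_deriv_le (μ := volume.restrict Ω)
    (F := fun z ζ => (z - ζ)⁻¹) (F' := fun z ζ => -((z - ζ) ^ 2)⁻¹) (x₀ := z)
    (bound := fun _ => (δ ^ 2)⁻¹) (s := ball z δ) (ball_mem_nhds z hδ) ?_ (cau_int hb z) ?_ ?_
    (integrable_const _) ?_).2.differentiableAt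
  · exact Eventually.of_forall fun w => (by fun_prop : Measurable fun ζ : ℂ =>
      (w - ζ)⁻¹).aestronglyMeasurable
  · exact (by fun_prop : Measurable fun ζ : ℂ => -((z - ζ) ^ 2)⁻¹).aestronglyMeasurable
  · filter_upwards [ae_restrict_mem hm] with ζ hζ w hw
    rw [norm_neg, norm_inv, norm_pow]
    have h1 := hd w hw ζ hζ
    apply inv_anti₀ (by positivity)
    nlinarith
  · filter_upwards [ae_restrict_mem hm] with ζ hζ w hw
    have h1 := hd w hw ζ hζ
    have h2 : w - ζ ≠ 0 := by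
      intro h0
      rw [h0, norm_zero] at h1
      linarith
    have h3 := ((hasDerivAt_id w).sub_const ζ).inv h2
    simp only [id, neg_div, one_div] at h3
    exact h3

theorem cau_ball {a z : ℂ} {r : ℝ} (hz : z ∈ ball a r) :
    ∫ ζ in ball a r, (z - ζ)⁻¹ = π * conj (z - a) := by
  have h1 : ‖z - a‖ < r := by rwa [mem_ball, dist_eq_norm] at hz
  have h := pompeiu h1
  rw [← h, ← integral_indicator isOpen_ball.measurableSet,
    ← integral_indicator isOpen_ball.measurableSet,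
    ← integral_add_right_eq_self (μ := (volume : Measure ℂ)) _ a]
  congr 1
  funext ζ
  by_cases hζ : ζ ∈ ball (0 : ℂ) r
  · rw [indicator_of_mem hζ, indicator_of_mem]
    · congr 1
      ring
    · rw [mem_ball, dist_zero_right] at hζ
      rw [mem_ball, dist_eq_norm, add_sub_cancel_right]
      exact hζ
  · rw [indicator_of_notMem hζ, indicator_of_notMem]
    rw [mem_ball, dist_zero_right] at hζ
    rw [mem_ball, dist_eq_norm, add_sub_cancel_right]
    exact hζ

theorem cau_in {Ω : Set ℂ} (ho : IsOpen Ω) (hb : Bornology.IsBounded Ω) {z : ℂ}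
    (hz : z ∈ Ω) : DifferentiableAt ℂ (fun w => conj w - cau Ω w) z := by
  obtain ⟨r, hr, h⟩ := Metric.isOpen_iff.1 ho z hz
  have h1 : ∀ w ∈ ball z r, conj w - cau Ω w = conj z - cau (Ω \ ball z r) w := by
    intro w hw
    have h2 : ∫ ζ in Ω, (w - ζ)⁻¹ = (∫ ζ in ball z r, (w - ζ)⁻¹) + ∫ ζ in Ω \ ball z r,
        (w - ζ)⁻¹ := by
      rw [← setIntegral_union disjoint_sdiff_right (ho.measurableSet.diff
        isOpen_ball.measurableSet) ((cau_int hb w).mono_set h)
        ((cau_int hb w).mono_set sdiff_subset), union_sdiff_cancel h]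
    unfold cau
    rw [h2, cau_ball hw, map_sub, mul_add]
    have h3 : (π : ℂ) ≠ 0 := by exact_mod_cast Real.pi_ne_zero
    field_simp
    ring
  have h2 : z ∉ closure (Ω \ ball z r) := by
    rw [mem_closure_iff_nhds]
    push Not
    refine ⟨ball z r, ball_mem_nhds z hr, ?_⟩
    ext x
    simp
  have h3 : DifferentiableAt ℂ (fun w => conj z - cau (Ω \ ball z r) w) z :=
    (differentiableAt_const _).sub
      (cau_out (ho.measurableSet.diff isOpen_ball.measurableSet) (hb.subset sdiff_subset) h2)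
  refine h3.congr_of_eventuallyEq ?_
  filter_upwards [ball_mem_nhds z hr] with w hw
  exact h1 w hw

end Pool.Agent.Helper6.CO
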