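import Mathlib

/-! Topology of the complement of a component of the zero set of a real function. -/

set_option autoImplicit false

namespace Pool.Agent.Helper6.CO

open Complex Set Metric Filter Topology

/-- the local structure of the zero set of `P` at `p` -/
def Sides (P : ℂ → ℝ) (p : ℂ) : Prop :=
  (∃ U ∈ 𝓝 p, IsPreconnected (U ∩ {z | P z = 0}) ∧ IsPreconnected (U ∩ {z | 0 < P z}) ∧
      IsPreconnected (U ∩ {z | P z < 0})) ∧ (∃ᶠ z in 𝓝 p, 0 < P z) ∧ ∃ᶠ z in 𝓝 p, P z < 0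

section

variable {P : ℂ → ℝ} {p₀ q₀ : ℂ} {Γ Ω : Set ℂ}

/-- a preconnected set off `Γ` is contained in a component of the complement or disjoint from it -/
theorem comp_or {K : Set ℂ} (hΩ : Ω = connectedComponentIn Γᶜ q₀) (hK : IsPreconnected K)
    (hKΓ : K ⊆ Γᶜ) : K ⊆ Ω ∨ ∀ z ∈ K, z ∉ Ω := by
  by_cases h : ∃ z ∈ K, z ∈ Ω
  · obtain ⟨z, hz, hz'⟩ := h
    left
    have h1 : connectedComponentIn Γᶜ z = Ω := by
      rw [hΩ] at hz' ⊢
      exact (connectedComponentIn_eq hz').symm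
    rw [← h1]
    exact hK.subset_connectedComponentIn hz hKΓ
  · right
    intro z hz hz'
    exact h ⟨z, hz, hz'⟩

theorem iso_loc (hΓ : Γ = connectedComponentIn {z | P z = 0} p₀) (hs : ∀ p ∈ Γ, Sides P p)
    {p : ℂ} (hp : p ∈ Γ) : ∀ᶠ z in 𝓝 p, P z = 0 → z ∈ Γ := by
  obtain ⟨⟨U, hU, h0, -, -⟩, -, -⟩ := hs p hp
  have hPp : P p = 0 := by
    rw [hΓ] at hp
    exact (connectedComponentIn_subset {z | P z = 0} p₀) hp
  filter_upwards [hU] with z hz hPz
  have h1 : connectedComponentIn {z | P z = 0} p = Γ := by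
    rw [hΓ] at hp ⊢
    exact (connectedComponentIn_eq hp).symm
  rw [← h1]
  exact h0.subset_connectedComponentIn ⟨mem_of_mem_nhds hU, hPp⟩ inter_subset_right ⟨hz, hPz⟩

theorem side_alt (hΓ : Γ = connectedComponentIn {z | P z = 0} p₀)
    (hΩ : Ω = connectedComponentIn Γᶜ q₀) (hs : ∀ p ∈ Γ, Sides P p) {T : Set ℝ}
    (hT : T = Ioi 0 ∨ T = Iio 0) :
    (∀ p ∈ Γ, ∀ᶠ z in 𝓝 p, P z ∈ T → z ∈ Ω) ∨ (∀ p ∈ Γ, ∀ᶠ z in 𝓝 p, P z ∈ T → z ∉ Ω) := by
  have hconn : IsPreconnected Γ := by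
    rw [hΓ]
    exact isPreconnected_connectedComponentIn
  have hΓ0 : ∀ z ∈ Γ, P z = 0 := by
    intro z hz
    rw [hΓ] at hz
    exact (connectedComponentIn_subset {z | P z = 0} p₀) hz
  have hT0 : (0 : ℝ) ∉ T := by
    rcases hT with rfl | rfl <;> simp
  have hfreq : ∀ p ∈ Γ, ∃ᶠ z in 𝓝 p, P z ∈ T := by
    intro p hp
    rcases hT with rfl | rfl
    · exact (hs p hp).2.1
    · exact (hs p hp).2.2
  have hor : ∀ p ∈ Γ, (∀ᶠ z in 𝓝 p, P z ∈ T → z ∈ Ω) ∨ (∀ᶠ z in 𝓝 p, P z ∈ T → z ∉ Ω) := by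
    intro p hp
    obtain ⟨⟨U, hU, -, h1, h2⟩, -, -⟩ := hs p hp
    have h3 : IsPreconnected (U ∩ {z | P z ∈ T}) := by
      rcases hT with rfl | rfl
      · exact h1
      · exact h2
    rcases comp_or hΩ h3 (fun z hz hz' => hT0 (by
      have h4 : P z ∈ T := hz.2
      rwa [hΓ0 z hz'] at h4)) with h | h
    · left
      filter_upwards [hU] with z hz hPz
      exact h ⟨hz, hPz⟩
    · right
      filter_upwards [hU] with z hz hPz
      exact h z ⟨hz, hPz⟩
  set V₁ : Set ℂ := {p | ∀ᶠ z in 𝓝 p, P z ∈ T → z ∈ Ω} with hV₁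
  set V₂ : Set ℂ := {p | ∀ᶠ z in 𝓝 p, P z ∈ T → z ∉ Ω} with hV₂
  have ho1 : IsOpen V₁ := isOpen_iff_mem_nhds.2 fun p hp => Eventually.eventually_nhds hp
  have ho2 : IsOpen V₂ := isOpen_iff_mem_nhds.2 fun p hp => Eventually.eventually_nhds hp
  by_contra hcon
  rw [not_or] at hcon
  simp only [not_forall] at hcon
  obtain ⟨⟨a, ha, ha'⟩, b, hb, hb'⟩ := hcon
  have ha2 : a ∈ V₂ := (hor a ha).resolve_left ha'
  have hb1 : b ∈ V₁ := (hor b hb).resolve_right hb'
  obtain ⟨c, hc, hc1, hc2⟩ := hconn V₁ V₂ ho1 ho2 (fun p hp => hor p hp) ⟨b, hb, hb1⟩ ⟨a, ha, ha2⟩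
  apply hfreq c hc
  filter_upwards [hc1, hc2] with z h1 h2 h3
  exact h2 h3 (h1 h3)

/-- the frontier of a component of the complement of `Γ` is contained in `Γ` -/
theorem closure_sub (hcomp : IsCompact Γ) (hΩ : Ω = connectedComponentIn Γᶜ q₀) :
    closure Ω ⊆ Ω ∪ Γ := by
  intro z hz
  by_contra hcon
  rw [mem_union, not_or] at hcon
  have hΓo : IsOpen Γᶜ := hcomp.isClosed.isOpen_compl
  have h1 : IsOpen (connectedComponentIn Γᶜ z) := hΓo.connectedComponentIn
  have h2 : z ∈ connectedComponentIn Γᶜ z := mem_connectedComponentIn hcon.2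
  obtain ⟨y, hy1, hy2⟩ := mem_closure_iff.1 hz _ h1 h2
  have h3 : connectedComponentIn Γᶜ z = connectedComponentIn Γᶜ y := connectedComponentIn_eq hy1
  have h4 : Ω = connectedComponentIn Γᶜ y := by
    rw [hΩ] at hy2 ⊢
    exact connectedComponentIn_eq hy2
  exact hcon.1 (by rw [h4, ← h3]; exact h2)

theorem clopen_false {A : Set ℂ} (hA : IsClopen A) (hne : A.Nonempty)
    (hb : Bornology.IsBounded A) : False := by
  rcases isClopen_iff.1 hA with h | h
  · exact hne.ne_empty h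
  · rw [h] at hb
    exact NormedSpace.unbounded_univ ℝ ℂ hb

/-- **The sides of `Γ`.** -/
theorem sign_side (hΓ : Γ = connectedComponentIn {z | P z = 0} p₀) (hcomp : IsCompact Γ)
    (hne : Γ.Nonempty)
    (hq : q₀ ∉ Γ) (hΩ : Ω = connectedComponentIn Γᶜ q₀) (hb : Bornology.IsBounded Ω)
    (hs : ∀ p ∈ Γ, Sides P p) :
    ∃ s : ℝ, (s = 1 ∨ s = -1) ∧ ∀ p ∈ Γ, ∀ᶠ z in 𝓝 p, (z ∈ Ω ↔ 0 < s * P z) := by
  have hΓ0 : ∀ z ∈ Γ, P z = 0 := by
    intro z hz
    rw [hΓ] at hz
    exact (connectedComponentIn_subset {z | P z = 0} p₀) hz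
  have hΩo : IsOpen Ω := by
    rw [hΩ]
    exact hcomp.isClosed.isOpen_compl.connectedComponentIn
  have hΩn : Ω.Nonempty := ⟨q₀, by rw [hΩ]; exact mem_connectedComponentIn hq⟩
  have hΩΓ : ∀ z ∈ Ω, z ∉ Γ := by
    intro z hz
    rw [hΩ] at hz
    exact connectedComponentIn_subset _ _ hz
  have hcl := closure_sub hcomp hΩ
  have hiso := fun p hp => iso_loc hΓ hs (p := p) hp
  have hP0 : ∀ p ∈ Γ, ∀ᶠ z in 𝓝 p, P z = 0 → z ∉ Ω := by
    intro p hp
    filter_upwards [hiso p hp] with z h1 h2 h3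
    exact hΩΓ z h3 (h1 h2)
  rcases side_alt hΓ hΩ hs (T := Ioi 0) (Or.inl rfl) with h1 | h1 <;>
    rcases side_alt hΓ hΩ hs (T := Iio 0) (Or.inr rfl) with h2 | h2
  · exfalso
    refine clopen_false (A := Ω ∪ Γ) ⟨?_, ?_⟩ (hne.mono subset_union_right)
      (hb.union hcomp.isBounded)
    · have h3 : closure (Ω ∪ Γ) ⊆ Ω ∪ Γ := by
        rw [closure_union, hcomp.isClosed.closure_eq]
        exact union_subset hcl subset_union_right
      exact isClosed_of_closure_subset h3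
    · rw [isOpen_iff_mem_nhds]
      rintro z (hz | hz)
      · exact mem_of_superset (hΩo.mem_nhds hz) subset_union_left
      · filter_upwards [h1 z hz, h2 z hz, hiso z hz] with y k1 k2 k3
        rcases lt_trichotomy 0 (P y) with h | h | h
        · exact Or.inl (k1 h)
        · exact Or.inr (k3 h.symm)
        · exact Or.inl (k2 h)
  · refine ⟨1, Or.inl rfl, fun p hp => ?_⟩
    filter_upwards [h1 p hp, h2 p hp, hP0 p hp] with z k1 k2 k3
    rw [one_mul]
    refine ⟨fun h => ?_, fun h => k1 h⟩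
    by_contra hcon
    rcases (not_lt.1 hcon).lt_or_eq with h' | h'
    · exact k2 h' h
    · exact k3 h' h
  · refine ⟨-1, Or.inr rfl, fun p hp => ?_⟩
    filter_upwards [h1 p hp, h2 p hp, hP0 p hp] with z k1 k2 k3
    rw [neg_one_mul, neg_pos]
    refine ⟨fun h => ?_, fun h => k2 h⟩
    by_contra hcon
    rcases (not_lt.1 hcon).lt_or_eq with h' | h'
    · exact k1 h' h
    · exact k3 h'.symm h
  · exfalso
    refine clopen_false (A := Ω) ⟨?_, hΩo⟩ hΩn hb
    apply isClosed_of_closure_subset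
    intro z hz
    rcases hcl hz with h | h
    · exact h
    · exfalso
      have h3 : ∀ᶠ y in 𝓝 z, y ∉ Ω := by
        filter_upwards [h1 z h, h2 z h, hP0 z h] with y k1 k2 k3
        rcases lt_trichotomy 0 (P y) with h | h | h
        · exact k1 h
        · exact k3 h.symm
        · exact k2 h
      exact (mem_closure_iff_frequently.1 hz) h3

/-- connectedness of the outer domain -/
theorem out_conn {W : Set ℂ} (hcl : closure Ω ⊆ Ω ∪ Γ) (hΩo : IsOpen Ω)
    (hne : (closure Ω).Nonempty)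
    (hW : IsOpen W) (hWc : IsPreconnected W) (hΓW : Γ ⊆ W) {x₀ : ℂ} (hx₀ : x₀ ∈ W) :
    IsPreconnected ((closure Ω)ᶜ ∪ W) := by
  refine isPreconnected_of_forall x₀ fun y hy => ?_
  rcases hy with hy | hy
  swap
  · exact ⟨W, subset_union_right, hx₀, hy, hWc⟩
  set C := connectedComponentIn (closure Ω)ᶜ y with hC
  have hyC : y ∈ C := mem_connectedComponentIn hy
  have hCo : IsOpen C := isClosed_closure.isOpen_compl.connectedComponentIn
  have hCs : C ⊆ (closure Ω)ᶜ := connectedComponentIn_subset _ _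
  have hmeet : (C ∩ W).Nonempty := by
    by_contra hcon
    rw [not_nonempty_iff_eq_empty] at hcon
    have hclosed : IsClosed C := by
      apply isClosed_of_closure_subset
      intro z hz
      have hzW : z ∉ W := by
        intro h
        obtain ⟨t, ht1, ht2⟩ := mem_closure_iff.1 hz W hW h
        have : t ∈ C ∩ W := ⟨ht2, ht1⟩
        rw [hcon] at this
        exact this
      have hzΩ : z ∉ Ω := by
        intro h
        obtain ⟨t, ht1, ht2⟩ := mem_closure_iff.1 hz Ω hΩo h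
        exact hCs ht2 (subset_closure ht1)
      have hz2 : z ∈ (closure Ω)ᶜ := by
        intro h
        rcases hcl h with h' | h'
        · exact hzΩ h'
        · exact hzW (hΓW h')
      have h1 : IsOpen (connectedComponentIn (closure Ω)ᶜ z) :=
        isClosed_closure.isOpen_compl.connectedComponentIn
      obtain ⟨t, ht1, ht2⟩ := mem_closure_iff.1 hz _ h1 (mem_connectedComponentIn hz2)
      have h3 : connectedComponentIn (closure Ω)ᶜ z = connectedComponentIn (closure Ω)ᶜ t :=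
        connectedComponentIn_eq ht1
      have h4 : C = connectedComponentIn (closure Ω)ᶜ t := connectedComponentIn_eq ht2
      rw [h4, ← h3]
      exact mem_connectedComponentIn hz2
    rcases isClopen_iff.1 ⟨hclosed, hCo⟩ with h | h
    · rw [h] at hyC
      exact hyC
    · obtain ⟨t, ht⟩ := hne
      exact hCs (h ▸ mem_univ t) ht
  obtain ⟨t, ht1, ht2⟩ := hmeet
  exact ⟨C ∪ W, union_subset_union_left _ hCs, Or.inr hx₀, Or.inl hyC,
    isPreconnected_connectedComponentIn.union t ht1 ht2 hWc⟩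

end

/-- thickenings of preconnected sets are preconnected -/
theorem thick_conn {Γ : Set ℂ} (h : IsPreconnected Γ) (δ : ℝ) :
    IsPreconnected (thickening δ Γ) := by
  rcases Γ.eq_empty_or_nonempty with h0 | ⟨x₀, hx₀⟩
  · rw [h0, thickening_empty]
    exact isPreconnected_empty
  by_cases hδ : 0 < δ
  swap
  · rw [thickening_of_nonpos (not_lt.1 hδ)]
    exact isPreconnected_empty
  refine isPreconnected_of_forall x₀ fun y hy => ?_
  obtain ⟨z, hz, hyz⟩ := mem_thickening_iff.1 hy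
  refine ⟨Γ ∪ ball z δ, ?_, Or.inl hx₀, Or.inr hyz, ?_⟩
  · exact union_subset (self_subset_thickening hδ Γ) (ball_subset_thickening hz δ)
  · exact h.union z hz (mem_ball_self hδ) (convex_ball z δ).isPreconnected

end Pool.Agent.Helper6.CO
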