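import Pool.Agent.Helper6.CO.Loc2
import Pool.Agent.Helper6.CO.Top
import Pool.Agent.Helper6.CO.Cau

/-! The collar of an oval, and the decomposition of the Schwarz function. -/

set_option autoImplicit false

namespace Pool.Agent.Helper6.CO

open Complex Set Metric Filter Topology
open scoped ComplexConjugate ContDiff

/-- an oval of a real cubic, and a bounded component of its complement -/
structure Oval (D : Dat) (p₀ q₀ : ℂ) (Γ Ω : Set ℂ) : Prop where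
  sm : D.Sm
  hp : D.P p₀ = 0
  hΓ : Γ = connectedComponentIn {z | D.P z = 0} p₀
  hc : IsCompact Γ
  hq : q₀ ∉ Γ
  hΩ : Ω = connectedComponentIn Γᶜ q₀
  hb : Bornology.IsBounded Ω

/-- the collar -/
structure Collar (D : Dat) (q₀ : ℂ) (Γ Ω : Set ℂ) (S : ℂ → ℂ) (s δ : ℝ) : Prop where
  hs : s = 1 ∨ s = -1
  hδ : 0 < δ
  an : ∀ z ∈ thickening δ Γ, AnalyticAt ℂ S z
  diag : ∀ z ∈ Γ, S z = conj z
  root : ∀ z ∈ thickening δ Γ, D.f z (S z) = 0
  fwne : ∀ z ∈ thickening δ Γ, D.fw z (S z) ≠ 0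
  side : ∀ z ∈ thickening δ Γ, (z ∈ Ω ↔ 0 < s * D.P z)
  zero : ∀ z ∈ thickening δ Γ, D.P z = 0 → z ∈ Γ
  half : ∀ z ∈ thickening δ Γ, 1 / 2 ≤ (D.fw z (conj z) / D.fw z (S z)).re
  far : q₀ ∉ thickening δ Γ

variable {D : Dat} {p₀ q₀ : ℂ} {Γ Ω : Set ℂ}

namespace Oval

theorem P0 (h : Oval D p₀ q₀ Γ Ω) : ∀ z ∈ Γ, D.P z = 0 := by
  intro z hz
  rw [h.hΓ] at hz
  exact (connectedComponentIn_subset {z | D.P z = 0} p₀) hz

theorem memp (h : Oval D p₀ q₀ Γ Ω) : p₀ ∈ Γ := by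
  rw [h.hΓ]
  exact mem_connectedComponentIn h.hp

theorem memq (h : Oval D p₀ q₀ Γ Ω) : q₀ ∈ Ω := by
  rw [h.hΩ]
  exact mem_connectedComponentIn h.hq

theorem isOpen (h : Oval D p₀ q₀ Γ Ω) : IsOpen Ω := by
  rw [h.hΩ]
  exact h.hc.isClosed.isOpen_compl.connectedComponentIn

theorem disj (h : Oval D p₀ q₀ Γ Ω) : ∀ z ∈ Ω, z ∉ Γ := by
  intro z hz
  rw [h.hΩ] at hz
  exact connectedComponentIn_subset _ _ hz

theorem cl (h : Oval D p₀ q₀ Γ Ω) : closure Ω ⊆ Ω ∪ Γ := closure_sub h.hc h.hΩ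

theorem conn (h : Oval D p₀ q₀ Γ Ω) : IsPreconnected Γ := by
  rw [h.hΓ]
  exact isPreconnected_connectedComponentIn

theorem connΩ (h : Oval D p₀ q₀ Γ Ω) : IsPreconnected Ω := by
  rw [h.hΩ]
  exact isPreconnected_connectedComponentIn

theorem collar (h : Oval D p₀ q₀ Γ Ω) :
    ∃ (S : ℂ → ℂ) (s δ : ℝ), Collar D q₀ Γ Ω S s δ := by
  obtain ⟨S, hS⟩ := Dat.exists_S h.sm h.hc h.P0
  obtain ⟨s, hs, hside⟩ := sign_side h.hΓ h.hc ⟨p₀, h.memp⟩ h.hq h.hΩ h.hb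
    (fun p hp => Dat.sides h.sm (h.P0 p hp))
  have hiso := fun p hp => iso_loc h.hΓ (fun p hp => Dat.sides h.sm (h.P0 p hp)) (p := p) hp
  have key : ∀ p ∈ Γ, ∀ᶠ z in 𝓝 p, AnalyticAt ℂ S z ∧ D.f z (S z) = 0 ∧ D.fw z (S z) ≠ 0 ∧
      (z ∈ Ω ↔ 0 < s * D.P z) ∧ (D.P z = 0 → z ∈ Γ) ∧
      1 / 2 ≤ (D.fw z (conj z) / D.fw z (S z)).re ∧ z ≠ q₀ := by
    intro p hp
    obtain ⟨h1, h2, h3⟩ := hS p hp
    have hne := Dat.fw_ne h.sm (h.P0 p hp)
    have hfc : ∀ g : ℂ → ℂ, ContinuousAt g p → ContinuousAt (fun z => D.fw z (g z)) p := by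
      intro g hg
      unfold Dat.fw
      fun_prop
    have hc1 := hfc S h1.continuousAt
    have hc2 := hfc (fun z => conj z) (by fun_prop)
    have hv : D.fw p (S p) ≠ 0 := by
      rw [h2]
      exact hne
    have hc3 : ContinuousAt (fun z => (D.fw z (conj z) / D.fw z (S z)).re) p :=
      continuous_re.continuousAt.comp (hc2.div hc1 hv)
    have hv3 : 1 / 2 < (D.fw p (conj p) / D.fw p (S p)).re := by
      rw [h2, div_self hne, one_re]
      norm_num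
    filter_upwards [h1.eventually_analyticAt, h3, hc1.eventually_ne hv, hside p hp, hiso p hp,
      hc3.eventually (lt_mem_nhds hv3), eventually_ne_nhds (a := p) (b := q₀) (by
        rintro rfl
        exact h.hq hp)] with z k1 k2 k3 k4 k5 k6 k7
    exact ⟨k1, k2, k3, k4, k5, k6.le, k7⟩
  have key2 := (eventually_nhdsSet_iff_forall.2 key)
  obtain ⟨O, hO, hΓO, hO2⟩ := eventually_nhdsSet_iff_exists.1 key2
  obtain ⟨δ, hδ, hsub⟩ := h.hc.exists_thickening_subset_open hO hΓO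
  refine ⟨S, s, δ, ⟨hs, hδ, fun z hz => (hO2 z (hsub hz)).1, fun z hz => (hS z hz).2.1,
    fun z hz => (hO2 z (hsub hz)).2.1, fun z hz => (hO2 z (hsub hz)).2.2.1,
    fun z hz => (hO2 z (hsub hz)).2.2.2.1, fun z hz => (hO2 z (hsub hz)).2.2.2.2.1,
    fun z hz => (hO2 z (hsub hz)).2.2.2.2.2.1, fun hz => (hO2 _ (hsub hz)).2.2.2.2.2.2 rfl⟩⟩

end Oval

/-- the outer function -/
noncomputable def Hf (Ω : Set ℂ) (S : ℂ → ℂ) (z : ℂ) : ℂ :=
  cau Ω z + Ω.indicator (fun z => S z - conj z) z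

/-- the inner function -/
noncomputable def Gf (Ω : Set ℂ) (S : ℂ → ℂ) (z : ℂ) : ℂ := S z - Hf Ω S z

section

variable {S : ℂ → ℂ} {s δ : ℝ}

theorem HG (z : ℂ) : Hf Ω S z + Gf Ω S z = S z := by
  unfold Gf
  ring

theorem Collar.sub (hC : Collar D q₀ Γ Ω S s δ) : Γ ⊆ thickening δ Γ :=
  self_subset_thickening hC.hδ Γ

theorem Hf_out (h : Oval D p₀ q₀ Γ Ω) {z : ℂ} (hz : z ∉ closure Ω) :
    DifferentiableAt ℂ (Hf Ω S) z := by
  have h1 := cau_out h.isOpen.measurableSet h.hb hz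
  refine h1.congr_of_eventuallyEq ?_
  filter_upwards [isClosed_closure.isOpen_compl.mem_nhds hz] with w hw
  rw [Hf, indicator_of_notMem (fun h => hw (subset_closure h)), add_zero]

theorem Hf_in (h : Oval D p₀ q₀ Γ Ω) (hC : Collar D q₀ Γ Ω S s δ) {z : ℂ} (hz : z ∈ Ω)
    (hz' : z ∈ thickening δ Γ) : DifferentiableAt ℂ (Hf Ω S) z := by
  have h1 := cau_in h.isOpen h.hb hz
  refine ((hC.an z hz').differentiableAt.sub h1).congr_of_eventuallyEq ?_
  filter_upwards [h.isOpen.mem_nhds hz] with w hw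
  rw [Hf, indicator_of_mem hw]
  simp only [Pi.sub_apply]
  ring

theorem Hf_off (h : Oval D p₀ q₀ Γ Ω) (hC : Collar D q₀ Γ Ω S s δ) {z : ℂ} (hz : z ∉ Γ)
    (hz' : z ∈ thickening δ Γ) : DifferentiableAt ℂ (Hf Ω S) z := by
  by_cases h1 : z ∈ Ω
  · exact Hf_in h hC h1 hz'
  · apply Hf_out h
    intro h2
    rcases h.cl h2 with h3 | h3
    · exact h1 h3
    · exact hz h3

theorem Hf_cont (h : Oval D p₀ q₀ Γ Ω) (hC : Collar D q₀ Γ Ω S s δ) {z : ℂ}
    (hz' : z ∈ thickening δ Γ) : ContinuousAt (Hf Ω S) z := by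
  by_cases hz : z ∈ Γ
  swap
  · exact (Hf_off h hC hz hz').continuousAt
  have h1 : ContinuousAt (cau Ω) z := (cau_cont h.hb).continuousAt
  have h2 : ContinuousAt (Ω.indicator (fun z => S z - conj z)) z := by
    have h3 : ContinuousAt (fun z => S z - conj z) z :=
      (hC.an z hz').continuousAt.sub (by fun_prop)
    have h4 : Ω.indicator (fun z => S z - conj z) z = 0 :=
      indicator_of_notMem (fun h5 => h.disj z h5 hz) _
    rw [ContinuousAt, h4]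
    have h5 := h3.tendsto
    rw [hC.diag z hz, sub_self] at h5
    refine squeeze_zero_norm (fun w => ?_) (tendsto_zero_iff_norm_tendsto_zero.1 h5)
    exact norm_indicator_le_norm_self _ _
  exact h1.add h2

theorem Hf_an (h : Oval D p₀ q₀ Γ Ω) (hC : Collar D q₀ Γ Ω S s δ) {z : ℂ}
    (hz : z ∈ (closure Ω)ᶜ ∪ thickening δ Γ) : AnalyticAt ℂ (Hf Ω S) z := by
  rcases hz with hz | hz
  · rw [analyticAt_iff_eventually_differentiableAt]
    filter_upwards [isClosed_closure.isOpen_compl.mem_nhds hz] with w hw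
    exact Hf_out h hw
  · by_cases h1 : z ∈ Γ
    · refine Dat.rem_curve h.sm (h.P0 z h1) ?_ ?_
      · filter_upwards [isOpen_thickening.mem_nhds hz] with w hw
        exact Hf_cont h hC hw
      · filter_upwards [isOpen_thickening.mem_nhds hz] with w hw hne
        exact Hf_off h hC (fun h2 => hne (h.P0 w h2)) hw
    · rw [analyticAt_iff_eventually_differentiableAt]
      filter_upwards [isOpen_thickening.mem_nhds hz, h.hc.isClosed.isOpen_compl.mem_nhds h1]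
        with w hw hw2
      exact Hf_off h hC hw2 hw

theorem Gf_an (h : Oval D p₀ q₀ Γ Ω) (hC : Collar D q₀ Γ Ω S s δ) {z : ℂ}
    (hz : z ∈ Ω ∪ thickening δ Γ) : AnalyticAt ℂ (Gf Ω S) z := by
  rcases hz with hz | hz
  · rw [analyticAt_iff_eventually_differentiableAt]
    filter_upwards [h.isOpen.mem_nhds hz] with w hw
    refine (cau_in h.isOpen h.hb hw).congr_of_eventuallyEq ?_
    filter_upwards [h.isOpen.mem_nhds hw] with y hy
    rw [Gf, Hf, indicator_of_mem hy]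
    ring
  · have h1 := hC.an z hz
    have h2 := Hf_an h hC (Or.inr hz)
    exact h1.sub h2

theorem out_pre (h : Oval D p₀ q₀ Γ Ω) (hC : Collar D q₀ Γ Ω S s δ) :
    IsPreconnected ((closure Ω)ᶜ ∪ thickening δ Γ) :=
  out_conn h.cl h.isOpen ⟨q₀, subset_closure h.memq⟩ isOpen_thickening (thick_conn h.conn δ)
    hC.sub (hC.sub h.memp)

/-- points of `Ω` in the collar -/
theorem exists_inner (h : Oval D p₀ q₀ Γ Ω) (hC : Collar D q₀ Γ Ω S s δ) :
    ∃ z ∈ Ω, z ∈ thickening δ Γ := by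
  obtain ⟨-, h1, h2⟩ := Dat.sides h.sm (h.P0 p₀ h.memp)
  have h3 : ∀ᶠ z in 𝓝 p₀, z ∈ thickening δ Γ :=
    isOpen_thickening.mem_nhds (hC.sub h.memp)
  rcases hC.hs with hs | hs
  · obtain ⟨z, hz, hz'⟩ := (h1.and_eventually h3).exists
    exact ⟨z, (hC.side z hz').2 (by rw [hs, one_mul]; exact hz), hz'⟩
  · obtain ⟨z, hz, hz'⟩ := (h2.and_eventually h3).exists
    exact ⟨z, (hC.side z hz').2 (by rw [hs, neg_one_mul, neg_pos]; exact hz), hz'⟩

theorem in_pre (h : Oval D p₀ q₀ Γ Ω) (hC : Collar D q₀ Γ Ω S s δ) :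
    IsPreconnected (Ω ∪ thickening δ Γ) := by
  obtain ⟨z, hz, hz'⟩ := exists_inner h hC
  exact h.connΩ.union z hz hz' (thick_conn h.conn δ)

end

end Pool.Agent.Helper6.CO
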