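import Pool.Graph.R_seed8.Helper523.LL.Pompeiu

/-! Integrals of d-bar derivatives. -/

set_option autoImplicit false

namespace Pool.Agent.Helper6.CO

open Complex Set Metric MeasureTheory Filter Topology
open scoped Real
open Pool.Agent.Helper523.LL (dbar pompeiu_zero)

theorem dbar_congr {f g : ℂ → ℂ} {z : ℂ} (h : f =ᶠ[𝓝 z] g) : dbar f z = dbar g z := by
  unfold dbar
  rw [h.fderiv_eq]

theorem dbar_const {c z : ℂ} : dbar (fun _ => c) z = 0 := by
  unfold dbar
  rw [fderiv_fun_const]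
  simp

theorem dbar_mul {f g : ℂ → ℂ} {z : ℂ} (hf : DifferentiableAt ℝ f z)
    (hg : DifferentiableAt ℝ g z) :
    dbar (fun w => f w * g w) z = dbar f z * g z + f z * dbar g z := by
  unfold dbar
  rw [fderiv_fun_mul hf hg]
  simp only [_root_.add_apply, _root_.smul_apply, smul_eq_mul]
  ring

theorem dbar_hol {f : ℂ → ℂ} {z : ℂ} (hf : DifferentiableAt ℂ f z) : dbar f z = 0 := by
  have h := (differentiableAt_complex_iff_differentiableAt_real.1 hf).2
  unfold dbar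
  rw [h, smul_eq_mul, ← mul_assoc, I_mul_I]
  ring

theorem dbar_mul_hol {f g : ℂ → ℂ} {z : ℂ} (hf : DifferentiableAt ℝ f z)
    (hg : DifferentiableAt ℂ g z) :
    dbar (fun w => f w * g w) z = dbar f z * g z := by
  rw [dbar_mul hf (hg.restrictScalars ℝ), dbar_hol hg, mul_zero, add_zero]

theorem dbar_norm (f : ℂ → ℂ) (z : ℂ) : ‖dbar f z‖ ≤ ‖fderiv ℝ f z‖ := by
  unfold dbar
  rw [norm_mul]
  have h1 : ‖fderiv ℝ f z 1‖ ≤ ‖fderiv ℝ f z‖ := by
    simpa using (fderiv ℝ f z).le_opNorm 1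
  have h2 : ‖I * fderiv ℝ f z I‖ ≤ ‖fderiv ℝ f z‖ := by
    rw [norm_mul, norm_I, one_mul]
    simpa using (fderiv ℝ f z).le_opNorm I
  have h3 : ‖fderiv ℝ f z 1 + I * fderiv ℝ f z I‖ ≤ 2 * ‖fderiv ℝ f z‖ := by
    refine (norm_add_le _ _).trans ?_
    linarith
  have h4 : ‖(1 / 2 : ℂ)‖ = 1 / 2 := by norm_num
  rw [h4]
  linarith

theorem dbar_cont {f : ℂ → ℂ} (hf : ContDiff ℝ 1 f) : Continuous (dbar f) := by
  have h := hf.continuous_fderiv (by norm_num)
  unfold dbar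
  fun_prop

theorem dbar_off {f : ℂ → ℂ} {z : ℂ} (h : z ∉ tsupport f) : dbar f z = 0 := by
  have h1 : f =ᶠ[𝓝 z] fun _ => 0 := by
    have := notMem_tsupport_iff_eventuallyEq.1 h
    exact this
  rw [dbar_congr h1, dbar_const]

theorem dbar_supp {f : ℂ → ℂ} (hc : HasCompactSupport f) : HasCompactSupport (dbar f) :=
  HasCompactSupport.intro hc.isCompact fun _ hz => dbar_off hz

theorem int_dbar {f : ℂ → ℂ} (hf : ContDiff ℝ 1 f) (hc : HasCompactSupport f) :
    ∫ ζ, dbar f ζ = 0 := by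
  have h1 : ContDiff ℝ 1 fun ζ : ℂ => f ζ * ζ := hf.mul contDiff_id
  have h2 : HasCompactSupport fun ζ : ℂ => f ζ * ζ := hc.mul_right
  have h3 := pompeiu_zero h1 h2
  rw [mul_zero, mul_zero] at h3
  rw [← h3]
  apply integral_congr_ae
  filter_upwards [Measure.ae_ne (volume : Measure ℂ) 0] with ζ hζ
  have h4 : dbar (fun ζ => f ζ * ζ) ζ = dbar f ζ * ζ :=
    dbar_mul_hol (g := fun ζ => ζ) (hf.differentiable (by norm_num) ζ) differentiableAt_id
  rw [h4, mul_assoc, mul_inv_cancel₀ hζ, mul_one]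

section

variable {ρ ψ : ℂ → ℂ} {U : Set ℂ}

theorem prod_contDiff (hU : IsOpen U) (hρ : ContDiff ℝ 1 ρ) (hs : tsupport ρ ⊆ U)
    (hψ : DifferentiableOn ℂ ψ U) : ContDiff ℝ 1 fun z => ρ z * ψ z := by
  rw [contDiff_iff_contDiffAt]
  intro z
  by_cases hz : z ∈ U
  · have h1 : ContDiffAt ℂ 1 ψ z := (hψ.analyticAt (hU.mem_nhds hz)).contDiffAt
    exact hρ.contDiffAt.mul (h1.restrict_scalars ℝ)
  · have h1 : ρ =ᶠ[𝓝 z] 0 := notMem_tsupport_iff_eventuallyEq.1 fun h => hz (hs h)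
    have h2 : (fun z => ρ z * ψ z) =ᶠ[𝓝 z] fun _ => 0 := by
      filter_upwards [h1] with w hw
      rw [hw, Pi.zero_apply, zero_mul]
    exact contDiffAt_const.congr_of_eventuallyEq h2

theorem dbar_prod (hU : IsOpen U) (hρ : ContDiff ℝ 1 ρ) (hs : tsupport ρ ⊆ U)
    (hψ : DifferentiableOn ℂ ψ U) (z : ℂ) :
    dbar (fun z => ρ z * ψ z) z = dbar ρ z * ψ z := by
  by_cases hz : z ∈ U
  · exact dbar_mul_hol (hρ.differentiable (by norm_num) z)
      ((hψ z hz).differentiableAt (hU.mem_nhds hz))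
  · have h0 : z ∉ tsupport ρ := fun h => hz (hs h)
    rw [dbar_off h0, zero_mul]
    apply dbar_off
    exact fun h => h0 (closure_mono (Function.support_mul_subset_left _ _) h)

theorem int_cpt (hU : IsOpen U) (hρ : ContDiff ℝ 1 ρ) (hc : HasCompactSupport ρ)
    (hs : tsupport ρ ⊆ U) (hψ : DifferentiableOn ℂ ψ U) : ∫ ζ, dbar ρ ζ * ψ ζ = 0 := by
  rw [← int_dbar (prod_contDiff hU hρ hs hψ) hc.mul_right]
  congr 1
  funext z
  rw [dbar_prod hU hρ hs hψ z]

/-- a cutoff function -/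
noncomputable def bmp : ContDiffBump (0 : ℂ) := ⟨1, 2, by norm_num, by norm_num⟩

noncomputable def et (n : ℝ) (z : ℂ) : ℂ := (bmp ((n⁻¹ : ℝ) • z) : ℝ)

theorem et_contDiff (n : ℝ) : ContDiff ℝ 1 (et n) := by
  unfold et
  exact Complex.ofRealCLM.contDiff.comp (bmp.contDiff.comp (contDiff_const_smul _))

theorem et_one {n : ℝ} (hn : 0 < n) {z : ℂ} (h : ‖z‖ ≤ n) : et n z = 1 := by
  unfold et
  rw [bmp.one_of_mem_closedBall, ofReal_one]
  rw [mem_closedBall, dist_zero_right, norm_smul, Real.norm_of_nonneg (by positivity)]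
  change n⁻¹ * ‖z‖ ≤ 1
  rw [inv_mul_le_iff₀ hn, mul_one]
  exact h

theorem et_zero {n : ℝ} (hn : 0 < n) {z : ℂ} (h : 2 * n ≤ ‖z‖) : et n z = 0 := by
  unfold et
  rw [bmp.zero_of_le_dist, ofReal_zero]
  rw [dist_zero_right, norm_smul, Real.norm_of_nonneg (by positivity)]
  change (2 : ℝ) ≤ n⁻¹ * ‖z‖
  rw [le_inv_mul_iff₀ hn]
  linarith

theorem et_supp {n : ℝ} (hn : 0 < n) : HasCompactSupport (et n) := by
  refine HasCompactSupport.intro (isCompact_closedBall (0 : ℂ) (2 * n)) fun z hz => et_zero hn ?_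
  rw [mem_closedBall, dist_zero_right] at hz
  linarith

theorem et_dbar : ∃ M : ℝ, 0 ≤ M ∧ ∀ n : ℝ, 0 < n → ∀ z, ‖dbar (et n) z‖ ≤ M / n := by
  have h0 : ContDiff ℝ 1 (et 1) := et_contDiff 1
  have hc := (et_supp one_pos).fderiv ℝ
  obtain ⟨M, hM⟩ := (h0.continuous_fderiv (by norm_num)).bounded_above_of_compact_support hc
  refine ⟨M, (norm_nonneg _).trans (hM 0), fun n hn z => ?_⟩
  have h1 : et n = fun z => et 1 (((n⁻¹ : ℝ) • z)) := by
    funext z
    unfold et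
    simp
  have h2 : HasFDerivAt (et n)
      ((fderiv ℝ (et 1) ((n⁻¹ : ℝ) • z)).comp ((n⁻¹ : ℝ) • ContinuousLinearMap.id ℝ ℂ)) z := by
    rw [h1]
    have h3 : HasFDerivAt (fun z : ℂ => (n⁻¹ : ℝ) • z) ((n⁻¹ : ℝ) • ContinuousLinearMap.id ℝ ℂ) z :=
      ((n⁻¹ : ℝ) • ContinuousLinearMap.id ℝ ℂ).hasFDerivAt
    exact (h0.differentiable (by norm_num) _).hasFDerivAt.comp z h3
  refine (dbar_norm _ _).trans ?_
  rw [h2.fderiv]
  refine (ContinuousLinearMap.opNorm_comp_le _ _).trans ?_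
  rw [norm_smul, Real.norm_of_nonneg (by positivity), ContinuousLinearMap.norm_id, mul_one,
    div_eq_mul_inv]
  exact mul_le_mul_of_nonneg_right (hM _) (by positivity)

theorem int_inf (hU : IsOpen U) (hρ : ContDiff ℝ 1 ρ) (hs : tsupport ρ ⊆ U)
    (hψ : DifferentiableOn ℂ ψ U) {R C : ℝ} (h1 : ∀ z, R ≤ ‖z‖ → ρ z = 1)
    (h2 : ∀ z, R ≤ ‖z‖ → ‖ψ z‖ ≤ C / ‖z‖ ^ 2) : ∫ ζ, dbar ρ ζ * ψ ζ = 0 := by
  obtain ⟨M, hM0, hM⟩ := et_dbar
  have hC : 0 ≤ C := by
    have h3 := h2 ((|R| + 1 : ℝ) : ℂ) (by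
      rw [norm_real, Real.norm_of_nonneg (by positivity)]
      linarith [le_abs_self R])
    have h4 : (0 : ℝ) < ‖((|R| + 1 : ℝ) : ℂ)‖ ^ 2 := by
      rw [norm_real, Real.norm_of_nonneg (by positivity)]
      positivity
    have h5 := (norm_nonneg _).trans h3
    rwa [le_div_iff₀ h4, zero_mul] at h5
  have key : ∀ n : ℝ, max R 1 < n →
      ‖∫ ζ, dbar ρ ζ * ψ ζ‖ ≤ (4 * π * C * M) * n⁻¹ := by
    intro n hn
    have hnR : R < n := (le_max_left _ _).trans_lt hn
    have hn1 : 1 < n := (le_max_right _ _).trans_lt hn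
    have hn0 : 0 < n := by linarith
    set τ : ℂ → ℂ := fun z => ρ z * et n z with hτ
    have hτ1 : ContDiff ℝ 1 τ := hρ.mul (et_contDiff n)
    have hτ2 : HasCompactSupport τ := (et_supp hn0).mul_left
    have hτ3 : tsupport τ ⊆ U := (closure_mono (Function.support_mul_subset_left _ _)).trans hs
    have hF := int_cpt hU hτ1 hτ2 hτ3 hψ
    have hFc : Continuous fun ζ => dbar τ ζ * ψ ζ := by
      have := dbar_cont (prod_contDiff hU hτ1 hτ3 hψ)
      refine this.congr fun z => ?_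
      exact dbar_prod hU hτ1 hτ3 hψ z
    have hFs : HasCompactSupport fun ζ => dbar τ ζ * ψ ζ := (dbar_supp hτ2).mul_right
    have hFi : Integrable fun ζ => dbar τ ζ * ψ ζ := hFc.integrable_of_hasCompactSupport hFs
    have hin : ∀ ζ ∈ ball (0 : ℂ) n, dbar τ ζ = dbar ρ ζ := by
      intro ζ hζ
      apply dbar_congr
      filter_upwards [isOpen_ball.mem_nhds hζ] with w hw
      rw [mem_ball, dist_zero_right] at hw
      rw [hτ]
      simp only
      rw [et_one hn0 hw.le, mul_one]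
    have hout : ∀ ζ, ζ ∉ ball (0 : ℂ) n → dbar ρ ζ = 0 ∧ dbar τ ζ = dbar (et n) ζ := by
      intro ζ hζ
      rw [mem_ball, dist_zero_right, not_lt] at hζ
      have h3 : ρ =ᶠ[𝓝 ζ] fun _ => 1 := by
        have h4 : {w : ℂ | R < ‖w‖} ∈ 𝓝 ζ :=
          (isOpen_lt continuous_const continuous_norm).mem_nhds (show R < ‖ζ‖ by linarith)
        filter_upwards [h4] with w hw
        exact h1 w (le_of_lt hw)
      refine ⟨by rw [dbar_congr h3, dbar_const], ?_⟩
      apply dbar_congr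
      filter_upwards [h3] with w hw
      rw [hτ]
      simp only
      rw [hw, one_mul]
    have hg : (fun ζ => dbar ρ ζ * ψ ζ) = (ball (0 : ℂ) n).indicator fun ζ => dbar τ ζ * ψ ζ := by
      funext ζ
      by_cases hζ : ζ ∈ ball (0 : ℂ) n
      · rw [indicator_of_mem hζ, hin ζ hζ]
      · rw [indicator_of_notMem hζ, (hout ζ hζ).1, zero_mul]
    have hsum : (∫ ζ, dbar ρ ζ * ψ ζ) = -∫ ζ in (ball (0 : ℂ) n)ᶜ, dbar τ ζ * ψ ζ := by
      rw [hg, integral_indicator isOpen_ball.measurableSet]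
      have := integral_add_compl (s := ball (0 : ℂ) n) isOpen_ball.measurableSet hFi
      rw [hF] at this
      linear_combination this
    rw [hsum, norm_neg]
    have hz : ∀ ζ ∈ (ball (0 : ℂ) n)ᶜ, ζ ∉ closedBall (0 : ℂ) (2 * n) → dbar τ ζ * ψ ζ = 0 := by
      intro ζ _ hζ
      rw [mem_closedBall, dist_zero_right, not_le] at hζ
      have h3 : τ =ᶠ[𝓝 ζ] fun _ => 0 := by
        have h4 : {w : ℂ | 2 * n < ‖w‖} ∈ 𝓝 ζ :=
          (isOpen_lt continuous_const continuous_norm).mem_nhds hζ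
        filter_upwards [h4] with w hw
        rw [hτ]
        simp only
        rw [et_zero hn0 (le_of_lt hw), mul_zero]
      rw [dbar_congr h3, dbar_const, zero_mul]
    have hb : ∫ ζ in (ball (0 : ℂ) n)ᶜ, dbar τ ζ * ψ ζ =
        ∫ ζ in (ball (0 : ℂ) n)ᶜ ∩ closedBall 0 (2 * n), dbar τ ζ * ψ ζ := by
      rw [← integral_indicator isOpen_ball.measurableSet.compl,
        ← integral_indicator (isOpen_ball.measurableSet.compl.inter
          isClosed_closedBall.measurableSet)]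
      congr 1
      funext ζ
      by_cases h3 : ζ ∈ (ball (0 : ℂ) n)ᶜ
      · by_cases h4 : ζ ∈ closedBall (0 : ℂ) (2 * n)
        · rw [indicator_of_mem h3, indicator_of_mem (show ζ ∈ _ ∩ _ from ⟨h3, h4⟩)]
        · rw [indicator_of_mem h3, indicator_of_notMem, hz ζ h3 h4]
          exact fun h => h4 h.2
      · rw [indicator_of_notMem h3, indicator_of_notMem]
        exact fun h => h3 h.1
    rw [hb]
    have hvol : volume ((ball (0 : ℂ) n)ᶜ ∩ closedBall 0 (2 * n)) < ⊤ :=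
      (measure_mono inter_subset_right).trans_lt measure_closedBall_lt_top
    have hbd : ∀ ζ ∈ (ball (0 : ℂ) n)ᶜ ∩ closedBall 0 (2 * n),
        ‖dbar τ ζ * ψ ζ‖ ≤ M / n * (C / n ^ 2) := by
      rintro ζ ⟨h3, -⟩
      have h4 : n ≤ ‖ζ‖ := by
        rwa [mem_compl_iff, mem_ball, dist_zero_right, not_lt] at h3
      rw [norm_mul, (hout ζ h3).2]
      refine mul_le_mul (hM n hn0 ζ) ((h2 ζ (by linarith)).trans ?_) (norm_nonneg _)
        (by positivity)
      exact div_le_div_of_nonneg_left hC (by positivity) (by gcongr)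
    refine (norm_setIntegral_le_of_norm_le_const hvol hbd).trans ?_
    have h5 : volume.real ((ball (0 : ℂ) n)ᶜ ∩ closedBall 0 (2 * n)) ≤ 4 * π * n ^ 2 := by
      refine (measureReal_mono inter_subset_right measure_closedBall_lt_top.ne).trans ?_
      rw [measureReal_def, Complex.volume_closedBall]
      rw [ENNReal.toReal_mul, ENNReal.toReal_pow, ENNReal.toReal_ofReal (by positivity)]
      simp only [ENNReal.coe_toReal, NNReal.coe_real_pi]
      apply le_of_eq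
      ring
    calc M / n * (C / n ^ 2) * volume.real ((ball (0 : ℂ) n)ᶜ ∩ closedBall 0 (2 * n))
        ≤ M / n * (C / n ^ 2) * (4 * π * n ^ 2) :=
          mul_le_mul_of_nonneg_left h5 (by positivity)
      _ = (4 * π * C * M) * n⁻¹ := by
          field_simp
  have hlim : Tendsto (fun n : ℝ => (4 * π * C * M) * n⁻¹) atTop (𝓝 0) := by
    have := (tendsto_inv_atTop_zero (𝕜 := ℝ)).const_mul (4 * π * C * M)
    rwa [mul_zero] at this
  have h3 : ‖∫ ζ, dbar ρ ζ * ψ ζ‖ ≤ 0 := by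
    refine ge_of_tendsto hlim ?_
    filter_upwards [eventually_gt_atTop (max R 1)] with n hn
    exact key n hn
  exact norm_le_zero_iff.1 h3

end

end Pool.Agent.Helper6.CO
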