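import Pool.Agent.Helper6.CO.Irr
import Pool.Agent.Helper6.CO.Col

/-! The decomposition of the differential. -/

set_option autoImplicit false

namespace Pool.Agent.Helper6.CO

open Polynomial Filter Topology Set Metric
open scoped ComplexConjugate

variable {D : Dat} {p₀ q₀ : ℂ} {Γ Ω : Set ℂ} {S : ℂ → ℂ} {s δ : ℝ}

theorem growth (h : Oval D p₀ q₀ Γ Ω) (ha : D.a ≠ 0) (hT : D.Tr) {Y : ℂ → ℂ}
    (h0 : ∀ z ∈ (closure Ω)ᶜ ∪ thickening δ Γ, D.f z (Y z) = 0) :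
    ∃ C R : ℝ, ∀ z, R ≤ ‖z‖ → ‖(D.fw z (Y z))⁻¹‖ ≤ C / ‖z‖ ^ 2 := by
  obtain ⟨c, R, hc, hR, hb⟩ := Dat.inf_bound ha hT
  obtain ⟨R', hR', hb'⟩ := h.hb.closure.exists_pos_norm_lt
  refine ⟨c⁻¹, max R R', fun z hz => ?_⟩
  have h1 := (le_max_left _ _).trans hz
  have h2 := (le_max_right _ _).trans hz
  have h3 : z ∉ closure Ω := fun h4 => absurd (hb' z h4) (not_lt.2 h2)
  have h4 := hb z (Y z) h1 (h0 z (Or.inl h3))
  have h5 : 0 < ‖z‖ := by linarith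
  rw [norm_inv, ← one_div, ← one_div, div_div]
  exact one_div_le_one_div_of_le (by positivity) h4

/-- **The decomposition.** -/
theorem decomp (h : Oval D p₀ q₀ Γ Ω) (hC : Collar D q₀ Γ Ω S s δ) (ha : D.a ≠ 0) (hT : D.Tr)
    {Q : ℂ[X][X]} (hQ : Q ≠ 0) (hQ0 : ∀ᶠ z in 𝓝 p₀, ev Q z (Hf Ω S z) = 0) :
    ∃ ψ₁ ψ₂ : ℂ → ℂ, DifferentiableOn ℂ ψ₁ ((closure Ω)ᶜ ∪ thickening δ Γ) ∧
      DifferentiableOn ℂ ψ₂ (Ω ∪ thickening δ Γ) ∧
      (∀ z ∈ thickening δ Γ, (D.fw z (S z))⁻¹ = ψ₁ z + ψ₂ z) ∧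
      ∃ C R : ℝ, ∀ z, R ≤ ‖z‖ → ‖ψ₁ z‖ ≤ C / ‖z‖ ^ 2 := by
  set W := thickening δ Γ with hW
  set O₁ := (closure Ω)ᶜ ∪ W with hO₁
  set O₂ := Ω ∪ W with hO₂
  have hWo : IsOpen W := isOpen_thickening
  have ho1 : IsOpen O₁ := isClosed_closure.isOpen_compl.union hWo
  have ho2 : IsOpen O₂ := h.isOpen.union hWo
  have hWc : IsPreconnected W := thick_conn h.conn δ
  have hc1 : IsPreconnected O₁ := out_pre h hC
  have hc2 : IsPreconnected O₂ := in_pre h hC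
  have hpW : p₀ ∈ W := hC.sub h.memp
  have hint : O₁ ∩ O₂ = W := by
    ext z
    constructor
    · rintro ⟨h1 | h1, h2 | h2⟩
      · exact absurd (subset_closure h2) h1
      · exact h2
      · exact h1
      · exact h1
    · exact fun hz => ⟨Or.inr hz, Or.inr hz⟩
  have hcov : ∀ z, z ∈ O₁ ∨ z ∈ O₂ := by
    intro z
    by_cases h1 : z ∈ closure Ω
    · rcases h.cl h1 with h2 | h2
      · exact Or.inr (Or.inl h2)
      · exact Or.inr (Or.inr (hC.sub h2))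
    · exact Or.inl (Or.inl h1)
  set U := Ultrafilter.of (𝓝[≠] p₀) with hUd
  have hU : (U : Filter ℂ) ≤ 𝓝[≠] p₀ := Ultrafilter.of_le _
  haveI : Fact (Function.Injective (pol U)) := ⟨pol_inj hU⟩
  set A := MF U O₁ with hA
  set B := MF U O₂ with hB
  have hcz : CharZero (FractionRing ℂ[X]) :=
    charZero_of_injective_algebraMap (IsFractionRing.injective ℂ[X] (FractionRing ℂ[X]))
  have hfA : ug U (Hf Ω S) ∈ A := ⟨Hf Ω S, fun z hz => (Hf_an h hC hz).meromorphicAt, rfl⟩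
  have hgB : ug U (Gf Ω S) ∈ B := ⟨Gf Ω S, fun z hz => (Gf_an h hC hz).meromorphicAt, rfl⟩
  have hfg : ug U (Hf Ω S) + ug U (Gf Ω S) = ug U S := by
    rw [← map_add]
    congr 1
    funext z
    exact HG z
  have hUW : ∀ᶠ z in (U : Filter ℂ), z ∈ W :=
    hU (mem_nhdsWithin_of_mem_nhds (hWo.mem_nhds hpW))
  have hx : aeval (ug U (Hf Ω S) + ug U (Gf Ω S))
      (D.Qc.map (algebraMap ℂ[X] (FractionRing ℂ[X]))) = 0 := by
    rw [hfg, aeval_map_algebraMap, aeval_ug, ← map_zero (ug U), ug_eq]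
    filter_upwards [hUW] with z hz
    rw [Dat.ev_Qc_zero ha |>.2 (hC.root z hz)]
    rfl
  have hirr := Dat.Qc_irr ha h.sm hT
  have hdeg : (D.Qc.map (algebraMap ℂ[X] (FractionRing ℂ[X]))).natDegree = 3 := by
    rw [Dat.Qc_monic.natDegree_map, Dat.Qc_deg]
  have hfa : IsAlgebraic (FractionRing ℂ[X]) (ug U (Hf Ω S)) := by
    rw [← IsFractionRing.isAlgebraic_iff ℂ[X] (FractionRing ℂ[X])]
    refine ⟨Q, hQ, ?_⟩
    rw [aeval_ug, ← map_zero (ug U), ug_eq]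
    exact hU (hQ0.filter_mono nhdsWithin_le_nhds)
  have hga : IsAlgebraic (FractionRing ℂ[X]) (ug U (Gf Ω S)) := by
    have h1 : IsAlgebraic (FractionRing ℂ[X]) (ug U (Hf Ω S) + ug U (Gf Ω S)) :=
      ⟨_, hirr.ne_zero, hx⟩
    have h2 := h1.sub hfa
    rwa [add_sub_cancel_left] at h2
  have hAB : ∀ x, x ∈ A → x ∈ B → IsAlgebraic (FractionRing ℂ[X]) x →
      x ∈ (algebraMap (FractionRing ℂ[X]) (UG U)).range := fun x h1 h2 h3 =>
    inter_rat hU ho1 ho2 hc1 hc2 (by rw [hint]; exact hWc) hcov ⟨Or.inr hpW, Or.inr hpW⟩ x h1 h2 h3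
  have root : ∀ (O : Set ℂ), IsPreconnected O → p₀ ∈ O → ∀ x ∈ MF U O,
      aeval x (D.Qc.map (algebraMap ℂ[X] (FractionRing ℂ[X]))) = 0 →
      ∃ Y : ℂ → ℂ, (∀ z ∈ O, AnalyticAt ℂ Y z) ∧ ug U Y = x ∧ ∀ z ∈ O, D.f z (Y z) = 0 := by
    intro O hO hpO x hx hx0
    rw [aeval_map_algebraMap] at hx0
    obtain ⟨F, h1, h2, h3⟩ := int_ext hU hO hpO hx Dat.Qc_monic hx0
    exact ⟨F, h1, h2, fun z hz => (Dat.ev_Qc_zero ha).1 (h3 z hz)⟩
  have hSp := hC.an p₀ hpW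
  have hSan : AnalyticOnNhd ℂ S W := fun z hz => hC.an z hz
  rcases tri A B hAB hfA hgB hfa hga hirr hdeg hx with h1 | h1 | ⟨y, w, hy, hw, hy0, hw0, n1, n2, n3⟩
  · obtain ⟨Y, a1, a2, a3⟩ := root O₁ hc1 (Or.inr hpW) _ h1 hx
    have heq : EqOn Y S W := by
      have k1 : AnalyticOnNhd ℂ Y W := fun z hz => a1 z (Or.inr hz)
      exact k1.eqOn_of_preconnected_of_eventuallyEq hSan hWc hpW
        (an_eq hU (a1 p₀ (Or.inr hpW)) hSp (a2.trans hfg))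
    refine ⟨fun z => (D.fw z (Y z))⁻¹, fun _ => 0, Dat.phi_diff h.sm ho1 a1 a3,
      differentiableOn_const 0, fun z hz => ?_, growth h ha hT a3⟩
    simp only [add_zero, heq hz]
  · obtain ⟨Y, a1, a2, a3⟩ := root O₂ hc2 (Or.inr hpW) _ h1 hx
    have heq : EqOn Y S W := by
      have k1 : AnalyticOnNhd ℂ Y W := fun z hz => a1 z (Or.inr hz)
      exact k1.eqOn_of_preconnected_of_eventuallyEq hSan hWc hpW
        (an_eq hU (a1 p₀ (Or.inr hpW)) hSp (a2.trans hfg))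
    refine ⟨fun _ => 0, fun z => (D.fw z (Y z))⁻¹, differentiableOn_const 0,
      Dat.phi_diff h.sm ho2 a1 a3, fun z hz => ?_, ⟨0, 0, fun z _ => by simp⟩⟩
    simp only [zero_add, heq hz]
  · obtain ⟨Y, a1, a2, a3⟩ := root O₁ hc1 (Or.inr hpW) _ hy hy0
    obtain ⟨V, b1, b2, b3⟩ := root O₂ hc2 (Or.inr hpW) _ hw hw0
    have d1 := Dat.phi_diff h.sm ho1 a1 a3
    have d2 := Dat.phi_diff h.sm ho2 b1 b3
    have d3 := Dat.phi_diff h.sm hWo hC.an hC.root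
    have hne : ∀ {F G : ℂ → ℂ}, ug U F ≠ ug U G → ∀ᶠ z in (U : Filter ℂ), F z ≠ G z := by
      intro F G hFG
      rw [Ne, ug_eq] at hFG
      exact Ultrafilter.eventually_not.2 hFG
    have m1 : ∀ᶠ z in (U : Filter ℂ), Y z ≠ V z := hne (by rw [a2, b2]; exact n1)
    have m2 : ∀ᶠ z in (U : Filter ℂ), Y z ≠ S z := hne (by rw [a2, ← hfg]; exact n2)
    have m3 : ∀ᶠ z in (U : Filter ℂ), V z ≠ S z := hne (by rw [b2, ← hfg]; exact n3)
    have hsum : ∀ᶠ z in (U : Filter ℂ), (D.fw z (S z))⁻¹ + (D.fw z (Y z))⁻¹ +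
        (D.fw z (V z))⁻¹ = 0 := by
      filter_upwards [m1, m2, m3, hUW] with z k1 k2 k3 k4
      exact Dat.sum_zero ha (hC.root z k4) (a3 z (Or.inr k4)) (b3 z (Or.inr k4)) k2.symm k3.symm k1
    have hfreq : ∃ᶠ z in 𝓝[≠] p₀, (D.fw z (S z))⁻¹ + (D.fw z (Y z))⁻¹ + (D.fw z (V z))⁻¹ = 0 :=
      hsum.frequently.filter_mono hU
    have han : AnalyticOnNhd ℂ (fun z => (D.fw z (S z))⁻¹ + (D.fw z (Y z))⁻¹ +
        (D.fw z (V z))⁻¹) W := by
      apply DifferentiableOn.analyticOnNhd _ hWo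
      exact (d3.add (d1.mono subset_union_right)).add (d2.mono subset_union_right)
    have hall := han.eqOn_zero_of_preconnected_of_frequently_eq_zero hWc hpW hfreq
    refine ⟨fun z => -(D.fw z (Y z))⁻¹, fun z => -(D.fw z (V z))⁻¹, d1.neg, d2.neg,
      fun z hz => ?_, ?_⟩
    · have := hall hz
      simp only [Pi.zero_apply] at this
      linear_combination this
    · obtain ⟨C, R, hg⟩ := growth (Y := Y) h ha hT a3
      exact ⟨C, R, fun z hz => by rw [norm_neg]; exact hg z hz⟩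

end Pool.Agent.Helper6.CO
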