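import Mathlib

/-! Real cubics, their ovals and the Cauchy transform. -/

set_option autoImplicit false

namespace Pool.Agent.Helper6.CO

open MeasureTheory Polynomial
open scoped Real Polynomial.Bivariate

/-- The exponents `(i, j)` of the ten monomials `x ^ i * y ^ j` of degree at most three. -/
abbrev Mon : Type := {m : Fin 4 × Fin 4 // (m.1 : ℕ) + (m.2 : ℕ) ≤ 3}

/-- The value at the point `z = x + i y` of the real polynomial `∑ c_ij x ^ i y ^ j` of degree at
most three with the coefficient vector `c`. -/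
noncomputable def cubic (c : Mon → ℝ) (z : ℂ) : ℝ :=
  ∑ m : Mon, c m * z.re ^ (m.1.1 : ℕ) * z.im ^ (m.1.2 : ℕ)

/-- The homogenization `∑ c_ij X ^ i Y ^ j T ^ (3 - i - j)` of the polynomial. -/
noncomputable def homCubic (c : Mon → ℝ) : MvPolynomial (Fin 3) ℂ :=
  ∑ m : Mon, MvPolynomial.C (c m : ℂ) * MvPolynomial.X 0 ^ (m.1.1 : ℕ) *
    MvPolynomial.X 1 ^ (m.1.2 : ℕ) * MvPolynomial.X 2 ^ (3 - (m.1.1 : ℕ) - (m.1.2 : ℕ))

/-- The projective closure of the cubic curve with the coefficient vector `c` is nonsingular. -/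
def SmoothCubic (c : Mon → ℝ) : Prop :=
  ∀ v : Fin 3 → ℂ, v ≠ 0 → MvPolynomial.eval v (homCubic c) = 0 →
    ∃ i, MvPolynomial.eval v (MvPolynomial.pderiv i (homCubic c)) ≠ 0

/-- `Γ` is a compact connected component of the real zero set of the cubic. -/
def IsOval (c : Mon → ℝ) (Γ : Set ℂ) : Prop :=
  ∃ p, cubic c p = 0 ∧ Γ = connectedComponentIn {z | cubic c z = 0} p ∧ IsCompact Γ

/-- `Ω` is a bounded connected component of the complement of `Γ`. -/
def IsInside (Γ Ω : Set ℂ) : Prop :=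
  ∃ q, q ∉ Γ ∧ Ω = connectedComponentIn Γᶜ q ∧ Bornology.IsBounded Ω

/-- The Cauchy transform `z ↦ (1 / π) ∫_Ω dA(ζ) / (z - ζ)` of the area measure of `Ω`. -/
noncomputable def cauchyTransform (Ω : Set ℂ) (z : ℂ) : ℂ := (π : ℂ)⁻¹ * ∫ ζ in Ω, (z - ζ)⁻¹

/-- The function `f` is algebraic on the set `V`: some nonzero polynomial `Q(z, u)` satisfies
`Q(z, f(z)) = 0` for all `z` in `V`. -/
def AlgebraicOn (V : Set ℂ) (f : ℂ → ℂ) : Prop :=
  ∃ Q : ℂ[X][Y], Q ≠ 0 ∧ ∀ z ∈ V, Q.evalEval z (f z) = 0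

/-- The exponent `(3, 0)` of `x ^ 3`. -/
def m30 : Mon := ⟨(3, 0), by decide⟩

/-- The exponent `(2, 1)` of `x ^ 2 * y`. -/
def m21 : Mon := ⟨(2, 1), by decide⟩

/-- The exponent `(1, 2)` of `x * y ^ 2`. -/
def m12 : Mon := ⟨(1, 2), by decide⟩

/-- The exponent `(0, 3)` of `y ^ 3`. -/
def m03 : Mon := ⟨(0, 3), by decide⟩

open MvPolynomial in
/-- The polynomial `((c₃₀ - c₁₂)² + (c₂₁ - c₀₃)²) * disc(c₃₀, c₂₁, c₁₂, c₀₃)` on the space of
coefficient vectors: its first factor vanishes if the projective closure of the cubic contains the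
points `(1 : ± i : 0)`, its second factor is the discriminant of the leading form. -/
noncomputable def exceptional : MvPolynomial Mon ℝ :=
  ((X m30 - X m12) ^ 2 + (X m21 - X m03) ^ 2) *
    (X m21 ^ 2 * X m12 ^ 2 - 4 * X m30 * X m12 ^ 3 - 4 * X m21 ^ 3 * X m03 -
      27 * X m30 ^ 2 * X m03 ^ 2 + 18 * X m30 * X m21 * X m12 * X m03)

end Pool.Agent.Helper6.CO
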