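import Pool.Agent.Helper6.CO.Dec
import Pool.Agent.Helper6.CO.Dbr

/-! The decomposition of the differential is impossible. -/

set_option autoImplicit false

namespace Pool.Agent.Helper6.CO

open Complex Set Metric MeasureTheory Filter Topology
open scoped ComplexConjugate ContDiff
open Pool.Agent.Helper523.LL (dbar)

theorem dbar_comp {φ : ℝ → ℝ} {P : ℂ → ℝ} {z : ℂ} (hφ : DifferentiableAt ℝ φ (P z))
    (hP : DifferentiableAt ℝ P z) :
    dbar (fun w => (φ (P w) : ℂ)) z = ((deriv φ (P z) : ℝ) : ℂ) * dbar (fun w => (P w : ℂ)) z := by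
  have h1 : HasFDerivAt (fun w => (P w : ℂ)) (ofRealCLM.comp (fderiv ℝ P z)) z :=
    ofRealCLM.hasFDerivAt.comp z hP.hasFDerivAt
  have h2 : HasFDerivAt (fun w => φ (P w)) (deriv φ (P z) • fderiv ℝ P z) z :=
    hφ.hasDerivAt.comp_hasFDerivAt z hP.hasFDerivAt
  have h3 : HasFDerivAt (fun w => (φ (P w) : ℂ))
      (ofRealCLM.comp (deriv φ (P z) • fderiv ℝ P z)) z :=
    ofRealCLM.hasFDerivAt.comp z h2
  unfold dbar
  rw [h1.fderiv, h3.fderiv]
  simp
  ring

theorem dbar_one_sub {ρ : ℂ → ℂ} (z : ℂ) : dbar (fun w => 1 - ρ w) z = -dbar ρ z := by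
  unfold dbar
  rw [fderiv_const_sub]
  simp
  ring

variable {D : Dat} {p₀ q₀ : ℂ} {Γ Ω : Set ℂ} {S : ℂ → ℂ} {s δ : ℝ}

/-- **The contradiction.** -/
theorem contra (h : Oval D p₀ q₀ Γ Ω) (hC : Collar D q₀ Γ Ω S s δ) {ψ₁ ψ₂ : ℂ → ℂ}
    (h1 : DifferentiableOn ℂ ψ₁ ((closure Ω)ᶜ ∪ thickening δ Γ))
    (h2 : DifferentiableOn ℂ ψ₂ (Ω ∪ thickening δ Γ))
    (h3 : ∀ z ∈ thickening δ Γ, (D.fw z (S z))⁻¹ = ψ₁ z + ψ₂ z)
    (h4 : ∃ C R : ℝ, ∀ z, R ≤ ‖z‖ → ‖ψ₁ z‖ ≤ C / ‖z‖ ^ 2) : False := by
  classical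
  have hne : Γ.Nonempty := ⟨p₀, h.memp⟩
  have hδ := hC.hδ
  have hd : Continuous fun z => infDist z Γ := continuous_infDist_pt Γ
  have hW : ∀ z, z ∈ thickening δ Γ ↔ infDist z Γ < δ :=
    fun z => mem_thickening_iff_infDist_lt hne
  have hPc : Continuous D.P := (Dat.P_contDiff (n := 0)).continuous
  have hs2 : s * s = 1 := by
    rcases hC.hs with hs | hs <;> rw [hs] <;> norm_num
  have habs : ∀ t : ℝ, 0 < s * t → |t| = s * t := by
    intro t ht
    rcases hC.hs with hs | hs
    · rw [hs, one_mul] at ht ⊢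
      exact abs_of_pos ht
    · rw [hs, neg_one_mul] at ht ⊢
      exact abs_of_neg (neg_pos.1 ht)
  -- the lower bound
  set A : Set ℂ := {z | δ / 2 ≤ infDist z Γ ∧ infDist z Γ ≤ 3 * δ / 4} with hA
  have hAc : IsCompact A := by
    refine isCompact_of_isClosed_isBounded ?_ ?_
    · exact (isClosed_le continuous_const hd).inter (isClosed_le hd continuous_const)
    · refine (h.hc.isBounded.thickening (δ := δ)).subset fun z hz => ?_
      rw [hW]
      have := hz.2
      linarith
  obtain ⟨ε, hε, hεA⟩ := hAc.exists_forall_le' (f := fun z => |D.P z|) (a := 0)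
    (hPc.abs.continuousOn) (by
      intro z hz
      rw [abs_pos]
      intro h0
      have h5 : z ∈ Γ := hC.zero z ((hW z).2 (by have := hz.2; linarith)) h0
      have h6 := infDist_zero_of_mem h5
      have := hz.1
      linarith)
  -- the cutoff function
  set φ : ℝ → ℝ := fun t => Real.smoothTransition (2 * s / ε * t - 1) with hφ
  have hst : ContDiff ℝ 1 Real.smoothTransition := Real.smoothTransition.contDiff (n := 1)
  have hφc : ContDiff ℝ 1 φ := hst.comp (by fun_prop)
  have hφd : ∀ t, 0 ≤ s * deriv φ t := by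
    intro t
    have e1 : HasDerivAt (fun t : ℝ => 2 * s / ε * t - 1) (2 * s / ε) t := by
      simpa using ((hasDerivAt_id t).const_mul (2 * s / ε)).sub_const 1
    have e2 : HasDerivAt φ (deriv Real.smoothTransition (2 * s / ε * t - 1) * (2 * s / ε)) t :=
      HasDerivAt.comp t (hst.differentiable (by norm_num) _).hasDerivAt e1
    rw [e2.deriv]
    have e3 : 0 ≤ deriv Real.smoothTransition (2 * s / ε * t - 1) :=
      Real.smoothTransition.monotone.deriv_nonneg
    have e4 : s * (deriv Real.smoothTransition (2 * s / ε * t - 1) * (2 * s / ε)) =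
        (s * s) * (deriv Real.smoothTransition (2 * s / ε * t - 1) * (2 / ε)) := by ring
    rw [e4, hs2, one_mul]
    positivity
  set ρr : ℂ → ℝ := Ω.indicator (fun z => if infDist z Γ < 3 * δ / 4 then φ (D.P z) else 1)
    with hρr
  set ρ : ℂ → ℂ := fun z => (ρr z : ℂ) with hρ
  have L1 : ∀ z ∈ Ω, infDist z Γ < 3 * δ / 4 → ρ =ᶠ[𝓝 z] fun w => (φ (D.P w) : ℂ) := by
    intro z hz hz2
    filter_upwards [h.isOpen.mem_nhds hz, hd.continuousAt.eventually (gt_mem_nhds hz2)]
      with w hw hw2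
    simp only [hρ, hρr, indicator_of_mem hw, if_pos hw2]
  have L2 : ∀ z ∈ Ω, δ / 2 < infDist z Γ → ρ =ᶠ[𝓝 z] fun _ => 1 := by
    intro z hz hz2
    filter_upwards [h.isOpen.mem_nhds hz, hd.continuousAt.eventually (lt_mem_nhds hz2)]
      with w hw hw2
    simp only [hρ, hρr, indicator_of_mem hw]
    by_cases hw3 : infDist w Γ < 3 * δ / 4
    · rw [if_pos hw3]
      have e1 : 0 < s * D.P w := (hC.side w ((hW w).2 (by linarith))).1 hw
      have e2 : ε ≤ |D.P w| := hεA w ⟨hw2.le, hw3.le⟩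
      rw [habs _ e1] at e2
      have e3 : φ (D.P w) = 1 := by
        refine Real.smoothTransition.one_of_one_le ?_
        have e4 : 1 ≤ s * D.P w / ε := (one_le_div hε).2 e2
        have e5 : 2 * s / ε * D.P w = 2 * (s * D.P w / ε) := by ring
        rw [e5]
        linarith
      rw [e3, ofReal_one]
    · rw [if_neg hw3, ofReal_one]
  have L3 : ∀ z, z ∉ closure Ω → ρ =ᶠ[𝓝 z] fun _ => 0 := by
    intro z hz
    filter_upwards [isClosed_closure.isOpen_compl.mem_nhds hz] with w hw
    have hw2 : w ∉ Ω := fun h5 => hw (subset_closure h5)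
    simp only [hρ, hρr, indicator_of_notMem hw2, ofReal_zero]
  have L4 : ∀ z ∈ Γ, ρ =ᶠ[𝓝 z] fun _ => 0 := by
    intro z hz
    have e1 : ContinuousAt (fun w => s * D.P w) z := by fun_prop
    have e2 : s * D.P z < ε / 2 := by
      rw [h.P0 z hz, mul_zero]
      positivity
    have e3 : infDist z Γ < 3 * δ / 4 := by
      rw [infDist_zero_of_mem hz]
      positivity
    filter_upwards [e1.eventually (gt_mem_nhds e2), hd.continuousAt.eventually (gt_mem_nhds e3)]
      with w hw hw2
    by_cases hw3 : w ∈ Ω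
    · simp only [hρ, hρr, indicator_of_mem hw3, if_pos hw2]
      have e4 : φ (D.P w) = 0 := by
        refine Real.smoothTransition.zero_of_nonpos ?_
        have e5 : 2 * s / ε * D.P w = 2 * (s * D.P w / ε) := by ring
        have e6 : s * D.P w / ε < 1 / 2 := by
          rw [div_lt_iff₀ hε]
          linarith
        rw [e5]
        linarith
      rw [e4, ofReal_zero]
    · simp only [hρ, hρr, indicator_of_notMem hw3, ofReal_zero]
  have L : ∀ z, (z ∈ Ω ∧ infDist z Γ < 3 * δ / 4) ∨ (z ∈ Ω ∧ δ / 2 < infDist z Γ) ∨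
      z ∉ closure Ω ∨ z ∈ Γ := by
    intro z
    by_cases e1 : z ∈ Ω
    · rcases lt_or_ge (infDist z Γ) (3 * δ / 4) with e2 | e2
      · exact Or.inl ⟨e1, e2⟩
      · exact Or.inr (Or.inl ⟨e1, by linarith⟩)
    · by_cases e2 : z ∈ closure Ω
      · exact Or.inr (Or.inr (Or.inr ((h.cl e2).resolve_left e1)))
      · exact Or.inr (Or.inr (Or.inl e2))
  have hρc : ContDiff ℝ 1 ρ := by
    rw [contDiff_iff_contDiffAt]
    intro z
    rcases L z with ⟨e1, e2⟩ | ⟨e1, e2⟩ | e1 | e1
    · refine ContDiffAt.congr_of_eventuallyEq ?_ (L1 z e1 e2)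
      have e3 : ContDiff ℝ 1 fun w => (φ (D.P w) : ℂ) :=
        ofRealCLM.contDiff.comp (hφc.comp Dat.P_contDiff)
      exact e3.contDiffAt
    · exact contDiffAt_const.congr_of_eventuallyEq (L2 z e1 e2)
    · exact contDiffAt_const.congr_of_eventuallyEq (L3 z e1)
    · exact contDiffAt_const.congr_of_eventuallyEq (L4 z e1)
  have hcs : HasCompactSupport ρ := by
    refine HasCompactSupport.intro h.hb.isCompact_closure fun z hz => ?_
    exact (L3 z hz).self_of_nhds
  have hsup2 : tsupport ρ ⊆ Ω ∪ thickening δ Γ := by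
    intro z hz
    by_contra hcon
    rw [mem_union, not_or] at hcon
    have e1 : z ∉ closure Ω := by
      intro e2
      rcases h.cl e2 with e3 | e3
      · exact hcon.1 e3
      · exact hcon.2 (hC.sub e3)
    exact notMem_tsupport_iff_eventuallyEq.2 (L3 z e1) hz
  have hWo : IsOpen (thickening δ Γ) := isOpen_thickening
  have ho1 : IsOpen ((closure Ω)ᶜ ∪ thickening δ Γ) := isClosed_closure.isOpen_compl.union hWo
  have ho2 : IsOpen (Ω ∪ thickening δ Γ) := h.isOpen.union hWo
  have hsup1 : tsupport (fun z => 1 - ρ z) ⊆ (closure Ω)ᶜ ∪ thickening δ Γ := by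
    intro z hz
    by_contra hcon
    rw [mem_union, not_or, mem_compl_iff, not_not] at hcon
    have e1 : z ∈ Ω := (h.cl hcon.1).resolve_right fun e2 => hcon.2 (hC.sub e2)
    have e2 : δ ≤ infDist z Γ := not_lt.1 fun e3 => hcon.2 ((hW z).2 e3)
    refine notMem_tsupport_iff_eventuallyEq.2 ?_ hz
    filter_upwards [L2 z e1 (by linarith)] with w hw
    rw [hw, sub_self]
    rfl
  have hoff : ∀ z, z ∉ thickening δ Γ → dbar ρ =ᶠ[𝓝 z] fun _ => 0 := by
    intro z hz
    by_cases e1 : z ∈ Ω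
    · have e2 : δ ≤ infDist z Γ := not_lt.1 fun e3 => hz ((hW z).2 e3)
      filter_upwards [(L2 z e1 (by linarith)).eventuallyEq_nhds] with w hw
      rw [dbar_congr hw, dbar_const]
    · have e2 : z ∉ closure Ω := by
        intro e2
        exact hz (hC.sub ((h.cl e2).resolve_left e1))
      filter_upwards [(L3 z e2).eventuallyEq_nhds] with w hw
      rw [dbar_congr hw, dbar_const]
  have hdc : Continuous (dbar ρ) := dbar_cont hρc
  have hdcs : HasCompactSupport (dbar ρ) := dbar_supp hcs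
  have hprod : ∀ ψ : ℂ → ℂ, ContinuousOn ψ (thickening δ Γ) →
      Continuous fun z => dbar ρ z * ψ z := by
    intro ψ hψ
    rw [continuous_iff_continuousAt]
    intro z
    by_cases hz : z ∈ thickening δ Γ
    · exact hdc.continuousAt.mul (hψ.continuousAt (hWo.mem_nhds hz))
    · refine (continuousAt_const (y := (0 : ℂ))).congr ?_
      filter_upwards [hoff z hz] with w hw
      rw [hw, zero_mul]
  have c1 : ContinuousOn ψ₁ (thickening δ Γ) := h1.continuousOn.mono subset_union_right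
  have c2 : ContinuousOn ψ₂ (thickening δ Γ) := h2.continuousOn.mono subset_union_right
  have c3 : ContinuousOn (fun z => (D.fw z (S z))⁻¹) (thickening δ Γ) :=
    (c1.add c2).congr fun z hz => h3 z hz
  have i1 : Integrable fun z => dbar ρ z * ψ₁ z :=
    (hprod ψ₁ c1).integrable_of_hasCompactSupport hdcs.mul_right
  have i2 : Integrable fun z => dbar ρ z * ψ₂ z :=
    (hprod ψ₂ c2).integrable_of_hasCompactSupport hdcs.mul_right
  have i3 : Integrable fun z => dbar ρ z * (D.fw z (S z))⁻¹ :=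
    (hprod _ c3).integrable_of_hasCompactSupport hdcs.mul_right
  -- the integrals vanish
  have I2 : ∫ z, dbar ρ z * ψ₂ z = 0 := int_cpt ho2 hρc hcs hsup2 h2
  have I1 : ∫ z, dbar ρ z * ψ₁ z = 0 := by
    obtain ⟨C, R, hCR⟩ := h4
    obtain ⟨R', hR', hb'⟩ := h.hb.exists_pos_norm_lt
    have e1 := int_inf (ρ := fun z => 1 - ρ z) (ψ := ψ₁) (R := max R R') (C := C) ho1
      (contDiff_const.sub hρc) hsup1 h1 (fun z hz => by
        have e2 : z ∉ Ω := fun e3 => absurd (hb' z e3) (not_lt.2 ((le_max_right _ _).trans hz))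
        simp only [hρ, hρr, indicator_of_notMem e2, ofReal_zero, sub_zero])
      (fun z hz => hCR z ((le_max_left _ _).trans hz))
    simp only [dbar_one_sub, neg_mul] at e1
    rw [integral_neg, neg_eq_zero] at e1
    exact e1
  have I3 : ∫ z, dbar ρ z * (D.fw z (S z))⁻¹ = 0 := by
    have e1 : (fun z => dbar ρ z * (D.fw z (S z))⁻¹) =
        fun z => dbar ρ z * ψ₁ z + dbar ρ z * ψ₂ z := by
      funext z
      by_cases hz : z ∈ thickening δ Γ
      · rw [h3 z hz, mul_add]
      · rw [(hoff z hz).self_of_nhds]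
        simp
    rw [e1, integral_add i1 i2, I1, I2, add_zero]
  -- positivity
  set g : ℂ → ℝ := fun z => ((s : ℂ) * (dbar ρ z * (D.fw z (S z))⁻¹)).re with hg
  have hgc : Continuous g := continuous_re.comp (continuous_const.mul (hprod _ c3))
  have hgs : HasCompactSupport g := by
    refine HasCompactSupport.intro hdcs.isCompact fun z hz => ?_
    simp only [hg]
    rw [image_eq_zero_of_notMem_tsupport hz]
    simp
  have hgi : ∫ z, g z = 0 := by
    have e1 := reCLM.integral_comp_comm (i3.const_mul (s : ℂ))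
    simp only [reCLM_apply] at e1
    rw [hg, e1, integral_const_mul, I3, mul_zero, zero_re]
  have key : ∀ z, 0 ≤ g z ∧ (g z = 0 → dbar ρ z = 0) := by
    intro z
    have hzero : dbar ρ z = 0 → 0 ≤ g z ∧ (g z = 0 → dbar ρ z = 0) := by
      intro e1
      refine ⟨?_, fun _ => e1⟩
      simp only [hg, e1, zero_mul, mul_zero, zero_re, le_refl]
    rcases L z with ⟨e1, e2⟩ | ⟨e1, e2⟩ | e1 | e1
    · have e3 : dbar ρ z = ((deriv φ (D.P z) : ℝ) : ℂ) * D.fw z (conj z) := by
        rw [dbar_congr (L1 z e1 e2), dbar_comp (hφc.differentiable (by norm_num) _)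
          ((Dat.P_contDiff (n := 1)).differentiable (by norm_num) z), Dat.dbar_P]
      have e4 : z ∈ thickening δ Γ := (hW z).2 (by linarith)
      have e5 : g z = (s * deriv φ (D.P z)) * (D.fw z (conj z) / D.fw z (S z)).re := by
        simp only [hg]
        rw [e3, ← re_ofReal_mul]
        congr 1
        push_cast
        rw [div_eq_mul_inv]
        ring
      have e6 := hC.half z e4
      rw [e5]
      refine ⟨mul_nonneg (hφd _) (by linarith), fun e7 => ?_⟩
      rcases mul_eq_zero.1 e7 with e8 | e8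
      · have e9 : deriv φ (D.P z) = 0 := by
          rcases mul_eq_zero.1 e8 with e10 | e10
          · rw [e10] at hs2
            norm_num at hs2
          · exact e10
        rw [e3, e9, ofReal_zero, zero_mul]
      · linarith
    · exact hzero (by rw [dbar_congr (L2 z e1 e2), dbar_const])
    · exact hzero (by rw [dbar_congr (L3 z e1), dbar_const])
    · exact hzero (by rw [dbar_congr (L4 z e1), dbar_const])
  have hgz : ∀ z, g z = 0 := by
    by_contra hcon
    push Not at hcon
    obtain ⟨z, hz⟩ := hcon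
    have := hgc.integral_pos_of_hasCompactSupport_nonneg_nonzero (μ := volume) hgs
      (fun z => (key z).1) hz
    linarith
  have hdz : ∀ z, dbar ρ z = 0 := fun z => (key z).2 (hgz z)
  have hent : Differentiable ℂ ρ := by
    intro z
    rw [differentiableAt_complex_iff_differentiableAt_real]
    refine ⟨hρc.differentiable (by norm_num) z, ?_⟩
    have e1 := hdz z
    unfold dbar at e1
    rw [smul_eq_mul]
    have e2 : fderiv ℝ ρ z 1 + I * fderiv ℝ ρ z I = 0 := by
      linear_combination 2 * e1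
    linear_combination (-I) * e2 + fderiv ℝ ρ z I * I_mul_I
  have hbd : Bornology.IsBounded (range ρ) := by
    obtain ⟨M, hM⟩ := hρc.continuous.bounded_above_of_compact_support hcs
    rw [isBounded_iff_forall_norm_le]
    refine ⟨M, ?_⟩
    rintro _ ⟨z, rfl⟩
    exact hM z
  have hq1 : ρ q₀ = 1 := by
    have e1 : δ ≤ infDist q₀ Γ := not_lt.1 fun e3 => hC.far ((hW q₀).2 e3)
    exact (L2 q₀ h.memq (by linarith)).self_of_nhds
  have hp1 : ρ p₀ = 0 := (L4 p₀ h.memp).self_of_nhds
  have := hent.apply_eq_apply_of_bounded hbd q₀ p₀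
  rw [hq1, hp1] at this
  exact one_ne_zero this

/-- **The main theorem** for the parametrized cubics. -/
theorem main_dat (h : Oval D p₀ q₀ Γ Ω) (ha : D.a ≠ 0) (hT : D.Tr) {V : Set ℂ} (hV : IsOpen V)
    (hVn : V.Nonempty) (hVs : V ⊆ (closure Ω)ᶜ) {Q : Polynomial (Polynomial ℂ)} (hQ : Q ≠ 0)
    (h0 : ∀ z ∈ V, ev Q z (cau Ω z) = 0) : False := by
  obtain ⟨S, s, δ, hC⟩ := h.collar
  obtain ⟨v, hv⟩ := hVn
  have han : AnalyticOnNhd ℂ (fun z => ev Q z (Hf Ω S z)) ((closure Ω)ᶜ ∪ thickening δ Γ) :=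
    fun z hz => ev_an Q (Hf_an h hC hz)
  have hev : (fun z => ev Q z (Hf Ω S z)) =ᶠ[𝓝 v] 0 := by
    filter_upwards [hV.mem_nhds hv] with z hz
    have e1 : z ∉ Ω := fun e2 => hVs hz (subset_closure e2)
    rw [Hf, indicator_of_notMem e1, add_zero]
    exact h0 z hz
  have hall := han.eqOn_zero_of_preconnected_of_eventuallyEq_zero (out_pre h hC)
    (Or.inl (hVs hv)) hev
  have hQ0 : ∀ᶠ z in 𝓝 p₀, ev Q z (Hf Ω S z) = 0 := by
    filter_upwards [isOpen_thickening.mem_nhds (hC.sub h.memp)] with z hz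
    exact hall (Or.inr hz)
  obtain ⟨ψ₁, ψ₂, k1, k2, k3, k4⟩ := decomp h hC ha hT hQ hQ0
  exact contra h hC k1 k2 k3 k4

end Pool.Agent.Helper6.CO
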