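import Mathlib

/-! A cubic irrationality which is the sum of two elements of fields with small intersection. -/

set_option autoImplicit false

namespace Pool.Agent.Helper6.CO

open Polynomial

section

variable {k N : Type} [Field k] [Field N] [Algebra k N]

/-- an enumeration of the roots of an irreducible cubic polynomial -/
theorem exists_roots [CharZero k] [Normal k N] {q : k[X]} (hq : Irreducible q)
    (hd : q.natDegree = 3) {x : N} (hx : aeval x q = 0) :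
    ∃ r : Fin 3 → N, Function.Injective r ∧ r 0 = x ∧ ∀ y, aeval y q = 0 ↔ ∃ i, r i = y := by
  classical
  have hsp : (q.map (algebraMap k N)).Splits := by
    have h1 : (minpoly k x).map (algebraMap k N) |>.Splits := Normal.splits inferInstance x
    have h2 : q = C q.leadingCoeff * minpoly k x := by
      have h3 := minpoly.eq_of_irreducible hq hx
      rw [← h3, mul_comm q, ← mul_assoc, ← C_mul, mul_inv_cancel₀
        (leadingCoeff_ne_zero.2 hq.ne_zero), C_1, one_mul]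
    rw [h2, Polynomial.map_mul, Polynomial.map_C]
    exact (Splits.C _).mul h1
  have hnd : (q.aroots N).Nodup := nodup_aroots_iff_of_splits hq.ne_zero hsp |>.2 hq.separable
  have hcard : (q.aroots N).card = 3 := by
    rw [aroots_def, ← hsp.natDegree_eq_card_roots, natDegree_map, hd]
  set S := (q.aroots N).toFinset with hS
  have hSc : S.card = 3 := by
    rw [hS, Multiset.toFinset_card_of_nodup hnd, hcard]
  have hmem : ∀ y, y ∈ S ↔ aeval y q = 0 := by
    intro y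
    rw [hS, Multiset.mem_toFinset, mem_aroots]
    exact ⟨fun h => h.2, fun h => ⟨hq.ne_zero, h⟩⟩
  let e := S.equivFinOfCardEq hSc
  let x' : S := ⟨x, (hmem x).2 hx⟩
  refine ⟨fun i => (e.symm (Equiv.swap 0 (e x') i) : S), ?_, ?_, fun y => ?_⟩
  · intro i j hij
    exact (Equiv.swap 0 (e x')).injective (e.symm.injective (Subtype.ext hij))
  · simp [x']
  · constructor
    · intro hy
      refine ⟨Equiv.swap 0 (e x') (e ⟨y, (hmem y).2 hy⟩), ?_⟩
      simp
    · rintro ⟨i, rfl⟩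
      exact (hmem _).1 (e.symm (Equiv.swap 0 (e x') i)).2

/-- the action on the roots -/
theorem exists_bar {q : k[X]} {r : Fin 3 → N} (hi : Function.Injective r)
    (hr : ∀ y, aeval y q = 0 ↔ ∃ i, r i = y) :
    ∃ b : (N ≃ₐ[k] N) →* Equiv.Perm (Fin 3), ∀ σ i, σ (r i) = r (b σ i) := by
  have h1 : ∀ (σ : N ≃ₐ[k] N) (i : Fin 3), ∃ j, r j = σ (r i) := by
    intro σ i
    rw [← hr]
    have h2 : aeval (r i) q = 0 := (hr _).2 ⟨i, rfl⟩
    have h3 : aeval (σ (r i)) q = σ (aeval (r i) q) := aeval_algHom_apply (σ : N →ₐ[k] N) (r i) q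
    rw [h3, h2, map_zero]
  choose p hp using h1
  have hinj : ∀ σ, Function.Injective (p σ) := by
    intro σ i j hij
    apply hi
    apply σ.injective
    rw [← hp, ← hp, hij]
  refine ⟨{ toFun := fun σ => Equiv.ofBijective (p σ) ((Finite.injective_iff_bijective).1 (hinj σ))
            map_one' := ?_, map_mul' := ?_ }, fun σ i => (hp σ i).symm⟩
  · ext i
    simp only [Equiv.ofBijective_apply, Equiv.Perm.coe_one, id]
    congr 1
    apply hi
    rw [hp]
    rfl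
  · intro σ τ
    ext i
    simp only [Equiv.ofBijective_apply, Equiv.Perm.coe_mul, Function.comp]
    congr 1
    apply hi
    rw [hp, hp, hp]
    rfl

theorem perm_conj : ∀ p t : Equiv.Perm (Fin 3), (∀ i, p i ≠ i) →
    t⁻¹ * p * t * p⁻¹ = 1 ∨ t⁻¹ * p * t * p⁻¹ * p⁻¹ = 1 := by
  decide

theorem perm_fix : ∀ s p : Equiv.Perm (Fin 3), (∃ i, s i = i) → (∃ i, p i = i) →
    (∃ i, (s * p) i = i) → s 0 ≠ 0 → ∀ i, s i = i → p i = i := by
  decide

theorem perm_three : ∀ p : Equiv.Perm (Fin 3), (∀ i, p i ≠ i) → ∀ i,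
    ({i, p i, p (p i)} : Finset (Fin 3)) = Finset.univ ∧ i ≠ p i ∧ i ≠ p (p i) ∧
      p i ≠ p (p i) := by
  decide

variable [CharZero k] [FiniteDimensional k N]

/-- the elements are fixed by the automorphisms fixing the roots -/
theorem fix_ker {HA HB : Subgroup (N ≃ₐ[k] N)}
    (hAB : ∀ x, (∀ σ ∈ HA, σ x = x) → (∀ τ ∈ HB, τ x = x) → x ∈ (algebraMap k N).range)
    {f g : N} (hf : ∀ σ ∈ HA, σ f = f) (hg : ∀ τ ∈ HB, τ g = g)
    {b : (N ≃ₐ[k] N) →* Equiv.Perm (Fin 3)} (hb : ∀ ν, b ν = 1 → ν (f + g) = f + g) :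
    ∀ ν, b ν = 1 → ν f = f := by
  classical
  haveI : CharZero N := charZero_of_injective_algebraMap (algebraMap k N).injective
  let K := b.ker
  let F : N := ∑ ν : K, (ν : N ≃ₐ[k] N) f
  let E : N := ∑ ν : K, (ν : N ≃ₐ[k] N) g
  let m : ℕ := Fintype.card K
  have hm : (m : N) ≠ 0 := by
    exact_mod_cast Fintype.card_ne_zero
  have hsum : F + E = m * (f + g) := by
    change (∑ ν : K, (ν : N ≃ₐ[k] N) f) + (∑ ν : K, (ν : N ≃ₐ[k] N) g) = _
    rw [← Finset.sum_add_distrib]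
    have h1 : ∀ ν : K, (ν : N ≃ₐ[k] N) f + (ν : N ≃ₐ[k] N) g = f + g := by
      intro ν
      rw [← map_add]
      exact hb ν (MonoidHom.mem_ker.1 ν.2)
    rw [Finset.sum_congr rfl fun ν _ => h1 ν, Finset.sum_const, Finset.card_univ, nsmul_eq_mul]
  have hconj : ∀ (α : N ≃ₐ[k] N) (u : N), α u = u →
      α (∑ ν : K, (ν : N ≃ₐ[k] N) u) = ∑ ν : K, (ν : N ≃ₐ[k] N) u := by
    intro α u hu
    rw [map_sum]
    have hn : K.Normal := MonoidHom.normal_ker b
    refine Finset.sum_equiv (MulAut.conjNormal (H := K) α).toEquiv (fun _ => by simp)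
      fun ν _ => ?_
    change α ((ν : N ≃ₐ[k] N) u) = ((MulAut.conjNormal α ν : K) : N ≃ₐ[k] N) u
    rw [MulAut.conjNormal_apply]
    change _ = α ((ν : N ≃ₐ[k] N) (α⁻¹ u))
    have h2 : α⁻¹ u = u := (AlgEquiv.symm_apply_eq α).2 hu.symm
    rw [h2]
  have hK : ∀ (ν : K) (u : N), (ν : N ≃ₐ[k] N) (∑ μ : K, (μ : N ≃ₐ[k] N) u) =
      ∑ μ : K, (μ : N ≃ₐ[k] N) u := by
    intro ν u
    rw [map_sum]
    refine Finset.sum_equiv (Equiv.mulLeft ν) (fun _ => by simp) fun μ _ => ?_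
    rfl
  set f1 : N := m * f - F with hf1
  have h3 : f1 ∈ (algebraMap k N).range := by
    apply hAB
    · intro σ hσ
      rw [hf1, map_sub, map_mul, map_natCast, hf σ hσ, hconj σ f (hf σ hσ)]
    · intro τ hτ
      have h4 : f1 = -(m * g - E) := by
        rw [hf1]
        linear_combination -hsum
      rw [h4, map_neg, map_sub, map_mul, map_natCast, hg τ hτ, hconj τ g (hg τ hτ)]
  obtain ⟨c, hc⟩ := h3
  have h5 : ∑ ν : K, (ν : N ≃ₐ[k] N) f1 = 0 := by
    have h6 : ∀ ν : K, (ν : N ≃ₐ[k] N) f1 = m * (ν : N ≃ₐ[k] N) f - F := by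
      intro ν
      rw [hf1, map_sub, map_mul, map_natCast, hK ν f]
    rw [Finset.sum_congr rfl fun ν _ => h6 ν, Finset.sum_sub_distrib, ← Finset.mul_sum]
    simp [F, m]
  have h7 : (m : N) * f1 = 0 := by
    rw [← h5]
    have h8 : ∀ ν : K, (ν : N ≃ₐ[k] N) f1 = f1 := by
      intro ν
      rw [← hc, AlgEquiv.commutes]
    rw [Finset.sum_congr rfl fun ν _ => h8 ν]
    simp [m]
  have h9 : f1 = 0 := (mul_eq_zero.1 h7).resolve_left hm
  intro ν hν
  have h10 : f = (m : N)⁻¹ * F := by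
    have : (m : N) * f = F := by
      rw [← sub_eq_zero]
      exact h9
    rw [← this, ← mul_assoc, inv_mul_cancel₀ hm, one_mul]
  have h11 := hK ⟨ν, MonoidHom.mem_ker.2 hν⟩ f
  rw [h10, map_mul, map_inv₀, map_natCast]
  congr 1

/-- an automorphism without fixed roots -/
theorem no_cycle {HA HB : Subgroup (N ≃ₐ[k] N)}
    {f g : N} (hf : ∀ σ ∈ HA, σ f = f) (hg : ∀ τ ∈ HB, τ g = g)
    {b : (N ≃ₐ[k] N) →* Equiv.Perm (Fin 3)} {r : Fin 3 → N} (hi : Function.Injective r)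
    (hb : ∀ σ i, σ (r i) = r (b σ i)) (h0 : r 0 = f + g) (hker : ∀ ν, b ν = 1 → ν f = f)
    {ρ : N ≃ₐ[k] N} (hρ : ρ ∈ HA) (hρ1 : ∀ i, b ρ i ≠ i) :
    ∀ τ ∈ HB, b τ 0 = 0 := by
  classical
  haveI : CharZero N := charZero_of_injective_algebraMap (algebraMap k N).injective
  intro τ hτ
  by_contra hne
  set j := b τ 0 with hj
  have h1 : r 0 - r j = f - τ f := by
    have h2 : τ (r 0) = r j := hb τ 0
    rw [← h2, h0, map_add, hg τ hτ]
    ring
  have hinv : ρ⁻¹ f = f := hf _ (HA.inv_mem hρ)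
  have h3 : ρ (τ f) = τ f := by
    have h4 : (τ⁻¹ * ρ * τ) f = f := by
      rcases perm_conj (b ρ) (b τ) hρ1 with h5 | h5
      · have h6 : b (τ⁻¹ * ρ * τ * ρ⁻¹) = 1 := by simpa using h5
        have h7 := hker _ h6
        change (τ⁻¹ * ρ * τ) (ρ⁻¹ f) = f at h7
        rwa [hinv] at h7
      · have h6 : b (τ⁻¹ * ρ * τ * ρ⁻¹ * ρ⁻¹) = 1 := by simpa using h5
        have h7 := hker _ h6
        change (τ⁻¹ * ρ * τ) (ρ⁻¹ (ρ⁻¹ f)) = f at h7
        rwa [hinv, hinv] at h7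
    have h8 := congrArg τ h4
    change τ (τ⁻¹ (ρ (τ f))) = τ f at h8
    have h9 : τ (τ⁻¹ (ρ (τ f))) = (τ * τ⁻¹) (ρ (τ f)) := rfl
    rw [h9, mul_inv_cancel] at h8
    exact h8
  have h10 : ∀ x y, r x - r y = f - τ f → r (b ρ x) - r (b ρ y) = f - τ f := by
    intro x y h
    have := congrArg ρ h
    rwa [map_sub, map_sub, hb, hb, hf ρ hρ, h3] at this
  have e1 := h10 _ _ h1
  have e2 := h10 _ _ e1
  obtain ⟨a1, a2, a3, a4⟩ := perm_three (b ρ) hρ1 0
  obtain ⟨b1, b2, b3, b4⟩ := perm_three (b ρ) hρ1 j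
  have s1 : r 0 + r (b ρ 0) + r (b ρ (b ρ 0)) = ∑ i, r i := by
    rw [← a1, Finset.sum_insert (by simp [a2, a3]), Finset.sum_insert (by simp [a4]),
      Finset.sum_singleton]
    ring
  have s2 : r j + r (b ρ j) + r (b ρ (b ρ j)) = ∑ i, r i := by
    rw [← b1, Finset.sum_insert (by simp [b2, b3]), Finset.sum_insert (by simp [b4]),
      Finset.sum_singleton]
    ring
  have h11 : (3 : N) * (r 0 - r j) = 0 := by
    linear_combination s1 - s2 - e1 - e2 + 2 * h1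
  have h12 : r 0 = r j := by
    rcases mul_eq_zero.1 h11 with h | h
    · exact absurd h (by norm_num)
    · exact sub_eq_zero.1 h
  exact hne (hi h12).symm

/-- the trichotomy inside a Galois extension -/
theorem tri_gal [Normal k N] {HA HB : Subgroup (N ≃ₐ[k] N)}
    (hAB : ∀ x, (∀ σ ∈ HA, σ x = x) → (∀ τ ∈ HB, τ x = x) → x ∈ (algebraMap k N).range)
    {f g : N} (hf : ∀ σ ∈ HA, σ f = f) (hg : ∀ τ ∈ HB, τ g = g)
    {q : k[X]} (hq : Irreducible q) (hd : q.natDegree = 3) (hx : aeval (f + g) q = 0) :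
    (∀ σ ∈ HA, σ (f + g) = f + g) ∨ (∀ τ ∈ HB, τ (f + g) = f + g) ∨
      ∃ y z : N, aeval y q = 0 ∧ aeval z q = 0 ∧ y ≠ z ∧ y ≠ f + g ∧ z ≠ f + g ∧
        (∀ σ ∈ HA, σ y = y) ∧ ∀ τ ∈ HB, τ z = z := by
  classical
  obtain ⟨r, hi, h0, hr⟩ := exists_roots hq hd hx
  obtain ⟨b, hb⟩ := exists_bar hi hr
  have hk0 : ∀ ν, b ν = 1 → ν (f + g) = f + g := by
    intro ν hν
    rw [← h0, hb, hν]
    rfl
  have hkf : ∀ ν, b ν = 1 → ν f = f := fix_ker hAB hf hg hk0
  have hkg : ∀ ν, b ν = 1 → ν g = g := by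
    intro ν hν
    have h1 := hk0 ν hν
    rw [map_add, hkf ν hν] at h1
    exact add_left_cancel h1
  by_cases hA : ∀ σ ∈ HA, b σ 0 = 0
  · left
    intro σ hσ
    rw [← h0, hb, hA σ hσ]
  by_cases hB : ∀ τ ∈ HB, b τ 0 = 0
  · right
    left
    intro τ hτ
    rw [← h0, hb, hB τ hτ]
  right
  right
  have hcA : ∀ ρ ∈ HA, ∃ i, b ρ i = i := by
    intro ρ hρ
    by_contra hcon
    push Not at hcon
    exact hB (no_cycle hf hg hi hb h0 hkf hρ hcon)
  have hcB : ∀ ρ ∈ HB, ∃ i, b ρ i = i := by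
    intro ρ hρ
    by_contra hcon
    push Not at hcon
    exact hA (no_cycle hg hf hi hb (by rw [h0, add_comm]) hkg hρ hcon)
  push Not at hA hB
  obtain ⟨σ, hσ, hσ0⟩ := hA
  obtain ⟨τ, hτ, hτ0⟩ := hB
  obtain ⟨i, hi1⟩ := hcA σ hσ
  obtain ⟨j, hj1⟩ := hcB τ hτ
  have hi2 : ∀ ρ ∈ HA, b ρ i = i := by
    intro ρ hρ
    refine perm_fix (b σ) (b ρ) (hcA σ hσ) (hcA ρ hρ) ?_ hσ0 i hi1
    rw [← map_mul]
    exact hcA _ (HA.mul_mem hσ hρ)
  have hj2 : ∀ ρ ∈ HB, b ρ j = j := by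
    intro ρ hρ
    refine perm_fix (b τ) (b ρ) (hcB τ hτ) (hcB ρ hρ) ?_ hτ0 j hj1
    rw [← map_mul]
    exact hcB _ (HB.mul_mem hτ hρ)
  have hiA : ∀ σ ∈ HA, σ (r i) = r i := fun ρ hρ => by rw [hb, hi2 ρ hρ]
  have hjB : ∀ σ ∈ HB, σ (r j) = r j := fun ρ hρ => by rw [hb, hj2 ρ hρ]
  refine ⟨r i, r j, (hr _).2 ⟨i, rfl⟩, (hr _).2 ⟨j, rfl⟩, ?_, ?_, ?_, hiA, hjB⟩
  · intro h
    rw [← h] at hjB
    obtain ⟨c, hc⟩ := hAB _ hiA hjB
    have h1 : q.IsRoot c := by
      have h2 : aeval (r i) q = 0 := (hr _).2 ⟨i, rfl⟩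
      rw [← hc, aeval_algebraMap_apply] at h2
      apply (algebraMap k N).injective
      rw [map_zero, ← h2, coe_aeval_eq_eval]
    have h3 := degree_eq_one_of_irreducible_of_root hq h1
    have h4 : q.natDegree = 1 := natDegree_eq_of_degree_eq_some h3
    omega
  · rw [← h0]
    intro h
    have := hi h
    subst this
    exact hσ0 hi1
  · rw [← h0]
    intro h
    have := hi h
    subst this
    exact hτ0 hj1

end

end Pool.Agent.Helper6.CO
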