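import Pool.Agent.Helper6.CO.Gal

/-! A cubic irrationality which is the sum of two elements of fields with small intersection. -/

set_option autoImplicit false

namespace Pool.Agent.Helper6.CO

open Polynomial IntermediateField

variable {k M : Type} [Field k] [Field M] [Algebra k M]

theorem fixed_mem {N : Type} [Field N] [Algebra k N] [FiniteDimensional k N] [IsGalois k N]
    {E : IntermediateField k N} {x : N} (h : ∀ σ ∈ E.fixingSubgroup, σ x = x) : x ∈ E := by
  have h1 : x ∈ IntermediateField.fixedField E.fixingSubgroup := by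
    rw [IntermediateField.mem_fixedField_iff]
    exact h
  rwa [IsGalois.fixedField_fixingSubgroup] at h1

theorem pull {K N : Type} [Field K] [Algebra k K] [Field N] [Algebra k N] (j : K →ₐ[k] N)
    {f : K} {x : N} (hx : x ∈ k⟮j f⟯) : ∃ u ∈ k⟮f⟯, j u = x := by
  have h1 : (k⟮f⟯ : IntermediateField k K).map j = k⟮j f⟯ := by
    rw [adjoin_map, Set.image_singleton]
  rw [← h1] at hx
  obtain ⟨u, hu, h⟩ := hx
  exact ⟨u, hu, h⟩

/-- **The trichotomy.** -/
theorem tri [CharZero k] (A B : IntermediateField k M)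
    (hAB : ∀ x, x ∈ A → x ∈ B → IsAlgebraic k x → x ∈ (algebraMap k M).range)
    {f g : M} (hf : f ∈ A) (hg : g ∈ B) (hfa : IsAlgebraic k f) (hga : IsAlgebraic k g)
    {q : k[X]} (hq : Irreducible q) (hd : q.natDegree = 3) (hx : aeval (f + g) q = 0) :
    f + g ∈ A ∨ f + g ∈ B ∨ ∃ y z : M, y ∈ A ∧ z ∈ B ∧ aeval y q = 0 ∧ aeval z q = 0 ∧
      y ≠ z ∧ y ≠ f + g ∧ z ≠ f + g := by
  classical
  let K : IntermediateField k M := adjoin k {f, g}
  have hfK : f ∈ K := subset_adjoin k _ (by simp)
  have hgK : g ∈ K := subset_adjoin k _ (by simp)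
  haveI : FiniteDimensional k K := finiteDimensional_adjoin (by
    rintro x (rfl | rfl)
    · exact hfa.isIntegral
    · exact hga.isIntegral)
  let Ω := AlgebraicClosure k
  let j0 : K →ₐ[k] Ω := IsAlgClosed.lift
  let N := normalClosure k K Ω
  let j : K →ₐ[k] N := (inclusion (AlgHom.fieldRange_le_normalClosure j0)).comp
    j0.rangeRestrict
  haveI : IsGalois k N := ⟨⟩
  let f' : K := ⟨f, hfK⟩
  let g' : K := ⟨g, hgK⟩
  let HA := (k⟮j f'⟯ : IntermediateField k N).fixingSubgroup
  let HB := (k⟮j g'⟯ : IntermediateField k N).fixingSubgroup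
  have hA : ∀ u ∈ (k⟮f'⟯ : IntermediateField k K), (u : M) ∈ A := by
    intro u hu
    have h1 : (k⟮f'⟯ : IntermediateField k K).map K.val ≤ A := by
      rw [adjoin_map, Set.image_singleton, adjoin_simple_le_iff]
      exact hf
    exact h1 ⟨u, hu, rfl⟩
  have hB : ∀ u ∈ (k⟮g'⟯ : IntermediateField k K), (u : M) ∈ B := by
    intro u hu
    have h1 : (k⟮g'⟯ : IntermediateField k K).map K.val ≤ B := by
      rw [adjoin_map, Set.image_singleton, adjoin_simple_le_iff]
      exact hg
    exact h1 ⟨u, hu, rfl⟩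
  have hroot : ∀ u : K, aeval (j u) q = 0 → aeval (u : M) q = 0 := by
    intro u hu
    rw [aeval_algHom_apply, map_eq_zero_iff j j.toRingHom.injective] at hu
    have h1 : aeval (K.val u) q = K.val (aeval u q) := aeval_algHom_apply K.val u q
    rw [hu, map_zero] at h1
    exact h1
  have hx' : aeval (j f' + j g') q = 0 := by
    rw [← map_add, aeval_algHom_apply]
    have h1 : aeval (f' + g') q = 0 := by
      apply K.val.toRingHom.injective
      have h2 : aeval (K.val (f' + g')) q = K.val (aeval (f' + g') q) :=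
        aeval_algHom_apply K.val _ q
      change K.val (aeval (f' + g') q) = K.val 0
      rw [← h2, map_zero]
      exact hx
    rw [h1, map_zero]
  have hfix : ∀ (e : N), (∀ σ ∈ (k⟮e⟯ : IntermediateField k N).fixingSubgroup, σ e = e) := by
    intro e σ hσ
    exact (mem_fixingSubgroup_iff _ σ).1 hσ e (mem_adjoin_simple_self k e)
  have key : ∀ x : N, (∀ σ ∈ HA, σ x = x) → (∀ τ ∈ HB, τ x = x) → x ∈ (algebraMap k N).range := by
    intro x h1 h2
    obtain ⟨u, hu, rfl⟩ := pull j (fixed_mem h1)
    obtain ⟨v, hv, h3⟩ := pull j (fixed_mem h2)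
    have h4 : v = u := j.toRingHom.injective h3
    subst h4
    obtain ⟨c, hc⟩ := hAB v (hA v hu) (hB v hv) (by
      have h5 : IsAlgebraic k v := Algebra.IsAlgebraic.isAlgebraic v
      exact h5.algHom K.val)
    have h6 : v = algebraMap k K c := Subtype.ext hc.symm
    rw [h6, AlgHom.commutes]
    exact ⟨c, rfl⟩
  rcases tri_gal (HA := HA) (HB := HB) (f := j f') (g := j g') (q := q) key (hfix _) (hfix _)
      hq hd hx' with h | h | ⟨y, z, h1, h2, h3, h4, h5, h6, h7⟩
  · left
    obtain ⟨u, hu, h1⟩ := pull j (fixed_mem h)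
    rw [← map_add] at h1
    have h2 : u = f' + g' := j.toRingHom.injective h1
    have h3 := hA u hu
    rw [h2] at h3
    exact h3
  · right
    left
    obtain ⟨u, hu, h1⟩ := pull j (fixed_mem h)
    rw [← map_add] at h1
    have h2 : u = f' + g' := j.toRingHom.injective h1
    have h3 := hB u hu
    rw [h2] at h3
    exact h3
  · right
    right
    obtain ⟨u, hu, rfl⟩ := pull j (fixed_mem h6)
    obtain ⟨v, hv, rfl⟩ := pull j (fixed_mem h7)
    rw [← map_add] at h4 h5
    refine ⟨u, v, hA u hu, hB v hv, hroot u h1, hroot v h2, ?_, ?_, ?_⟩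
    · exact fun h => h3 (congrArg j (Subtype.ext h))
    · exact fun h => h4 (congrArg j (Subtype.ext h))
    · exact fun h => h5 (congrArg j (Subtype.ext h))

end Pool.Agent.Helper6.CO
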