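import Pool.Agent.Helper6.CO.Gal2
import Pool.Graph.R_seed8.Y87.IL.Pc

/-! Germs of meromorphic functions along an ultrafilter, and the algebraic decomposition. -/

set_option autoImplicit false

namespace Pool.Agent.Helper6.CO

open Polynomial Filter Topology Set

/-- evaluation of a polynomial in two variables -/
noncomputable def ev (Q : ℂ[X][X]) (z w : ℂ) : ℂ := (Q.map (evalRingHom z)).eval w

theorem ev_sum (Q : ℂ[X][X]) (z w : ℂ) :
    ev Q z w = ∑ i ∈ Finset.range (Q.natDegree + 1), (Q.coeff i).eval z * w ^ i := by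
  rw [ev, eval_map, eval₂_eq_sum_range]
  rfl

theorem pol_an (q : ℂ[X]) (z : ℂ) : AnalyticAt ℂ (fun z => q.eval z) z :=
  (Polynomial.differentiable q).analyticAt z

theorem ev_an (Q : ℂ[X][X]) {F : ℂ → ℂ} {z : ℂ} (hF : AnalyticAt ℂ F z) :
    AnalyticAt ℂ (fun z => ev Q z (F z)) z := by
  simp only [ev_sum]
  exact Finset.analyticAt_fun_sum _ fun i _ => (pol_an _ z).mul (hF.pow i)

theorem ev_mer (Q : ℂ[X][X]) {F : ℂ → ℂ} {O : Set ℂ} (hF : MeromorphicOn F O) :
    MeromorphicOn (fun z => ev Q z (F z)) O := by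
  simp only [ev_sum]
  intro z hz
  exact MeromorphicAt.fun_sum fun i _ => (pol_an _ z).meromorphicAt.mul ((hF z hz).pow i)

theorem root_le {Q : ℂ[X][X]} (hQ : Q.Monic) {z w : ℂ} (h : ev Q z w = 0) :
    ‖w‖ ≤ 1 + ∑ i ∈ Finset.range Q.natDegree, ‖(Q.coeff i).eval z‖ := by
  have hnn : 0 ≤ ∑ i ∈ Finset.range Q.natDegree, ‖(Q.coeff i).eval z‖ :=
    Finset.sum_nonneg fun _ _ => norm_nonneg _
  by_cases hm : Q.natDegree = 0
  · have h1 : Q = 1 := Polynomial.eq_one_of_monic_natDegree_zero hQ hm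
    rw [h1, ev] at h
    simp at h
  obtain ⟨m', hm'⟩ : ∃ m', Q.natDegree = m' + 1 := ⟨Q.natDegree - 1, by omega⟩
  rcases le_or_gt ‖w‖ 1 with hw | hw
  · linarith
  rw [ev_sum, Finset.sum_range_succ] at h
  have hlead : Q.coeff Q.natDegree = 1 := hQ
  rw [hlead, eval_one, one_mul] at h
  have h2 : w ^ Q.natDegree = -∑ i ∈ Finset.range Q.natDegree, (Q.coeff i).eval z * w ^ i := by
    rw [eq_neg_iff_add_eq_zero, add_comm]
    exact h
  have h3 : ‖w‖ ^ Q.natDegree ≤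
      (∑ i ∈ Finset.range Q.natDegree, ‖(Q.coeff i).eval z‖) * ‖w‖ ^ m' := by
    rw [← norm_pow, h2, norm_neg, Finset.sum_mul]
    refine (norm_sum_le _ _).trans (Finset.sum_le_sum fun i hi => ?_)
    rw [norm_mul, norm_pow]
    have h4 : i ≤ m' := by have := Finset.mem_range.1 hi; omega
    have h5 : ‖w‖ ^ i ≤ ‖w‖ ^ m' := pow_le_pow_right₀ hw.le h4
    gcongr
  have h4 : 0 < ‖w‖ ^ m' := by positivity
  have h5 : ‖w‖ ≤ ∑ i ∈ Finset.range Q.natDegree, ‖(Q.coeff i).eval z‖ := by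
    rw [show ‖w‖ ^ Q.natDegree = ‖w‖ * ‖w‖ ^ m' by rw [hm', pow_succ, mul_comm]] at h3
    exact le_of_mul_le_mul_right h3 h4
  linarith

/-- integral meromorphic functions extend -/
theorem ext_int {O : Set ℂ} (hOc : IsPreconnected O) {p : ℂ} (hp : p ∈ O)
    {F : ℂ → ℂ} (hF : MeromorphicOn F O) {Q : ℂ[X][X]} (hQ : Q.Monic)
    (h : ∀ᶠ z in 𝓝[≠] p, ev Q z (F z) = 0) :
    ∃ F' : ℂ → ℂ, (∀ z ∈ O, AnalyticAt ℂ F' z) ∧ (∀ᶠ z in 𝓝[≠] p, F' z = F z) ∧
      ∀ z ∈ O, ev Q z (F' z) = 0 := by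
  have hg := ev_mer Q hF
  have htop : ∀ z ∈ O, ∀ᶠ w in 𝓝[≠] z, ev Q w (F w) = 0 := by
    intro z hz
    rw [← meromorphicOrderAt_eq_top_iff]
    by_contra hcon
    exact hg.meromorphicOrderAt_ne_top_of_isPreconnected hOc hz hp hcon
      (meromorphicOrderAt_eq_top_iff.2 h)
  have hord : ∀ z ∈ O, 0 ≤ meromorphicOrderAt F z := by
    intro z hz
    by_contra hcon
    have h1 := tendsto_cobounded_of_meromorphicOrderAt_neg (not_le.1 hcon)
    have h2 : ContinuousAt (fun z => 1 + ∑ i ∈ Finset.range Q.natDegree,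
        ‖(Q.coeff i).eval z‖) z := by
      refine continuousAt_const.add ?_
      exact tendsto_finsetSum _ fun i _ => ((Q.coeff i).continuous.continuousAt).norm
    set M := 1 + ∑ i ∈ Finset.range Q.natDegree, ‖(Q.coeff i).eval z‖ with hM
    have h3 : ∀ᶠ w in 𝓝[≠] z, 1 + ∑ i ∈ Finset.range Q.natDegree, ‖(Q.coeff i).eval w‖ < M + 1 :=
      (h2.eventually (gt_mem_nhds (lt_add_one M))).filter_mono nhdsWithin_le_nhds
    have h4 : ∀ᶠ w in 𝓝[≠] z, M + 1 < ‖F w‖ :=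
      (tendsto_norm_cobounded_atTop.comp h1).eventually_gt_atTop (M + 1)
    obtain ⟨w, k1, k2, k3⟩ := (h3.and (h4.and (htop z hz))).exists
    have k4 := root_le hQ k3
    linarith
  have hnf := meromorphicNFOn_toMeromorphicNFOn F O
  have han : ∀ z ∈ O, AnalyticAt ℂ (toMeromorphicNFOn F O) z := by
    intro z hz
    rw [← (hnf hz).meromorphicOrderAt_nonneg_iff_analyticAt,
      meromorphicOrderAt_toMeromorphicNFOn hF hz]
    exact hord z hz
  refine ⟨toMeromorphicNFOn F O, han, ?_, fun z hz => ?_⟩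
  · exact hF.toMeromorphicNFOn_eq_self_on_nhdsNE hp
  · have h1 : ∀ᶠ w in 𝓝[≠] z, ev Q w (toMeromorphicNFOn F O w) = 0 := by
      filter_upwards [hF.toMeromorphicNFOn_eq_self_on_nhdsNE hz, htop z hz] with w k1 k2
      rw [k1]
      exact k2
    have h2 := (ev_an Q (han z hz)).continuousAt
    have h3 : Tendsto (fun w => ev Q w (toMeromorphicNFOn F O w)) (𝓝[≠] z)
        (𝓝 (ev Q z (toMeromorphicNFOn F O z))) := h2.tendsto.mono_left nhdsWithin_le_nhds
    have h4 : Tendsto (fun w => ev Q w (toMeromorphicNFOn F O w)) (𝓝[≠] z) (𝓝 0) :=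
      tendsto_const_nhds.congr' (by
        filter_upwards [h1] with w hw
        rw [hw])
    exact tendsto_nhds_unique h3 h4

/-- the field of germs of functions along an ultrafilter -/
def UG (U : Ultrafilter ℂ) : Type := (U : Filter ℂ).Germ ℂ

section

variable (U : Ultrafilter ℂ)

noncomputable instance : Field (UG U) := inferInstanceAs (Field ((U : Filter ℂ).Germ ℂ))

/-- the germ of a function -/
noncomputable def ug : (ℂ → ℂ) →+* UG U := Filter.Germ.coeRingHom (U : Filter ℂ)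

/-- the germ of a polynomial -/
noncomputable def pol : ℂ[X] →+* UG U := (ug U).comp (RingHom.pi fun z => evalRingHom z)

noncomputable instance : Algebra ℂ[X] (UG U) := (pol U).toAlgebra

noncomputable instance [h : Fact (Function.Injective (pol U))] :
    Algebra (FractionRing ℂ[X]) (UG U) := (IsFractionRing.lift h.out).toAlgebra

instance [h : Fact (Function.Injective (pol U))] :
    IsScalarTower ℂ[X] (FractionRing ℂ[X]) (UG U) :=
  IsScalarTower.of_algebraMap_eq fun x => (IsFractionRing.lift_algebraMap h.out x).symm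

variable {U}

theorem ug_eq {f g : ℂ → ℂ} : ug U f = ug U g ↔ ∀ᶠ z in (U : Filter ℂ), f z = g z :=
  Filter.Germ.coe_eq

theorem ug_inv (f : ℂ → ℂ) : (ug U f)⁻¹ = ug U f⁻¹ := rfl

theorem alg_pol (q : ℂ[X]) : algebraMap ℂ[X] (UG U) q = ug U fun z => q.eval z := rfl

theorem aeval_ug (Q : ℂ[X][X]) (F : ℂ → ℂ) : aeval (ug U F) Q = ug U fun z => ev Q z (F z) := by
  have h : ((aeval (ug U F) : ℂ[X][X] →ₐ[ℂ[X]] UG U) : ℂ[X][X] →+* UG U) =
      (ug U).comp (RingHom.pi fun z => (evalRingHom (F z)).comp (mapRingHom (evalRingHom z))) := by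
    apply Polynomial.ringHom_ext
    · intro q
      change aeval (ug U F) (C q) = ug U _
      rw [aeval_C, alg_pol]
      congr 1
      funext z
      simp
    · change aeval (ug U F) X = ug U _
      rw [aeval_X]
      congr 1
      funext z
      simp
  exact congrArg (fun φ : ℂ[X][X] →+* UG U => φ Q) h

theorem pol_inj {p : ℂ} (hU : (U : Filter ℂ) ≤ 𝓝[≠] p) : Function.Injective (pol U) := by
  rw [injective_iff_map_eq_zero]
  intro q hq
  by_contra h0
  have h1 : ∀ᶠ z in (U : Filter ℂ), q.eval z = 0 := by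
    have h2 : ug U (fun z => q.eval z) = ug U 0 := by
      rw [map_zero]
      exact hq
    exact ug_eq.1 h2
  rcases (pol_an q p).eventually_eq_zero_or_eventually_ne_zero with h | h
  · apply h0
    have h2 : AnalyticOnNhd ℂ (fun z => q.eval z) univ := fun z _ => pol_an q z
    have h3 := h2.eqOn_zero_of_preconnected_of_eventuallyEq_zero isPreconnected_univ (mem_univ p) h
    apply Polynomial.funext
    intro z
    rw [eval_zero]
    exact h3 (mem_univ z)
  · obtain ⟨z, hz, hz'⟩ := (h1.and (hU h)).exists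
    exact hz' hz

theorem mer_eq {p : ℂ} (hU : (U : Filter ℂ) ≤ 𝓝[≠] p) {F G : ℂ → ℂ} (hF : MeromorphicAt F p)
    (hG : MeromorphicAt G p) (h : ug U F = ug U G) : ∀ᶠ z in 𝓝[≠] p, F z = G z := by
  rcases (hF.sub hG).eventually_eq_zero_or_eventually_ne_zero with h1 | h1
  · filter_upwards [h1] with z hz
    exact sub_eq_zero.1 hz
  · obtain ⟨z, hz, hz'⟩ := ((ug_eq.1 h).and (hU h1)).exists
    exact absurd (sub_eq_zero.2 hz) hz'

/-- the germs of the meromorphic functions on a set -/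
noncomputable def MF (U : Ultrafilter ℂ) [h : Fact (Function.Injective (pol U))] (O : Set ℂ) :
    IntermediateField (FractionRing ℂ[X]) (UG U) where
  carrier := {x | ∃ F : ℂ → ℂ, MeromorphicOn F O ∧ ug U F = x}
  mul_mem' := by
    rintro _ _ ⟨F, hF, rfl⟩ ⟨G, hG, rfl⟩
    exact ⟨F * G, hF.mul hG, map_mul _ _ _⟩
  add_mem' := by
    rintro _ _ ⟨F, hF, rfl⟩ ⟨G, hG, rfl⟩
    exact ⟨F + G, hF.add hG, map_add _ _ _⟩
  algebraMap_mem' := by
    intro r
    obtain ⟨x, y, -, rfl⟩ := IsFractionRing.div_surjective (A := ℂ[X]) r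
    refine ⟨fun z => x.eval z / y.eval z, ?_, ?_⟩
    · intro z _
      exact (pol_an x z).meromorphicAt.div (pol_an y z).meromorphicAt
    · rw [map_div₀, ← IsScalarTower.algebraMap_apply, ← IsScalarTower.algebraMap_apply, alg_pol,
        alg_pol, div_eq_mul_inv, ug_inv, ← map_mul]
      rfl
  inv_mem' := by
    rintro _ ⟨F, hF, rfl⟩
    exact ⟨F⁻¹, hF.inv, rfl⟩

theorem mem_MF [h : Fact (Function.Injective (pol U))] {O : Set ℂ} {x : UG U} :
    x ∈ MF U O ↔ ∃ F : ℂ → ℂ, MeromorphicOn F O ∧ ug U F = x := Iff.rfl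

end

/-- the analytic functions given by integral elements -/
theorem int_ext {U : Ultrafilter ℂ} [h : Fact (Function.Injective (pol U))] {p : ℂ}
    (hU : (U : Filter ℂ) ≤ 𝓝[≠] p) {O : Set ℂ} (hOc : IsPreconnected O) (hp : p ∈ O) {x : UG U}
    (hx : x ∈ MF U O) {Q : ℂ[X][X]} (hQ : Q.Monic) (h0 : aeval x Q = 0) :
    ∃ F : ℂ → ℂ, (∀ z ∈ O, AnalyticAt ℂ F z) ∧ ug U F = x ∧ ∀ z ∈ O, ev Q z (F z) = 0 := by
  obtain ⟨F, hF, rfl⟩ := hx
  have h1 : ∀ᶠ z in 𝓝[≠] p, ev Q z (F z) = 0 := by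
    refine mer_eq hU (ev_mer Q hF p hp) (MeromorphicAt.const 0 p) ?_
    rw [← aeval_ug, h0]
    exact (map_zero (ug U)).symm
  obtain ⟨F', h2, h3, h4⟩ := ext_int hOc hp hF hQ h1
  exact ⟨F', h2, ug_eq.2 (hU h3), h4⟩

theorem an_eq {U : Ultrafilter ℂ} {p : ℂ} (hU : (U : Filter ℂ) ≤ 𝓝[≠] p) {F G : ℂ → ℂ}
    (hF : AnalyticAt ℂ F p) (hG : AnalyticAt ℂ G p) (h : ug U F = ug U G) :
    ∀ᶠ z in 𝓝 p, F z = G z := by
  have h1 := mer_eq hU hF.meromorphicAt hG.meromorphicAt h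
  exact (hF.frequently_eq_iff_eventually_eq hG).1 h1.frequently

/-- algebraic elements in the intersection are rational -/
theorem inter_rat {U : Ultrafilter ℂ} [h : Fact (Function.Injective (pol U))] {p : ℂ}
    (hU : (U : Filter ℂ) ≤ 𝓝[≠] p) {O₁ O₂ : Set ℂ} (ho1 : IsOpen O₁) (ho2 : IsOpen O₂)
    (hc1 : IsPreconnected O₁) (hc2 : IsPreconnected O₂) (hc : IsPreconnected (O₁ ∩ O₂))
    (hu : ∀ z, z ∈ O₁ ∨ z ∈ O₂) (hp : p ∈ O₁ ∩ O₂) (x : UG U) (h1 : x ∈ MF U O₁)
    (h2 : x ∈ MF U O₂) (hx : IsAlgebraic (FractionRing ℂ[X]) x) :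
    x ∈ (algebraMap (FractionRing ℂ[X]) (UG U)).range := by
  classical
  have hx' : IsAlgebraic ℂ[X] x := (IsFractionRing.isAlgebraic_iff ℂ[X] (FractionRing ℂ[X]) _).2 hx
  obtain ⟨y, hy, Q, hQ, hQ0⟩ := hx'.exists_integral_multiple
  set x' := y • x with hx'd
  have hm : ∀ O, x ∈ MF U O → x' ∈ MF U O := by
    intro O hO
    have e : x' = algebraMap (FractionRing ℂ[X]) (UG U) (algebraMap ℂ[X] _ y) * x := by
      rw [hx'd, Algebra.smul_def, ← IsScalarTower.algebraMap_apply]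
    rw [e]
    exact (MF U O).mul_mem ((MF U O).algebraMap_mem _) hO
  have hQ0' : aeval x' Q = 0 := hQ0
  obtain ⟨F1, a1, b1, c1⟩ := int_ext hU hc1 hp.1 (hm _ h1) hQ hQ0'
  obtain ⟨F2, a2, b2, c2⟩ := int_ext hU hc2 hp.2 (hm _ h2) hQ hQ0'
  have heq : EqOn F1 F2 (O₁ ∩ O₂) := by
    have k1 : AnalyticOnNhd ℂ F1 (O₁ ∩ O₂) := fun z hz => a1 z hz.1
    have k2 : AnalyticOnNhd ℂ F2 (O₁ ∩ O₂) := fun z hz => a2 z hz.2
    exact k1.eqOn_of_preconnected_of_eventuallyEq k2 hc hp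
      (an_eq hU (a1 p hp.1) (a2 p hp.2) (b1.trans b2.symm))
  set g : ℂ → ℂ := fun z => if z ∈ O₁ then F1 z else F2 z with hg
  have hg1 : ∀ z ∈ O₁, g z = F1 z := fun z hz => if_pos hz
  have hg2 : ∀ z ∈ O₂, g z = F2 z := by
    intro z hz
    by_cases hz1 : z ∈ O₁
    · rw [hg1 z hz1]
      exact heq ⟨hz1, hz⟩
    · exact if_neg hz1
  have hgd : Differentiable ℂ g := by
    intro z
    rcases hu z with hz | hz
    · refine (a1 z hz).differentiableAt.congr_of_eventuallyEq ?_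
      filter_upwards [ho1.mem_nhds hz] with w hw
      exact hg1 w hw
    · refine (a2 z hz).differentiableAt.congr_of_eventuallyEq ?_
      filter_upwards [ho2.mem_nhds hz] with w hw
      exact hg2 w hw
  have hg0 : ∀ z, (Q.map (evalRingHom z)).eval (g z) = 0 := by
    intro z
    rcases hu z with hz | hz
    · rw [hg1 z hz]
      exact c1 z hz
    · rw [hg2 z hz]
      exact c2 z hz
  obtain ⟨q, hq⟩ := Pool.Agent.Y87.IL.t_PC g hgd Q hQ hg0
  have h5 : x' = algebraMap ℂ[X] (UG U) q := by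
    rw [← b1, alg_pol, ug_eq]
    have h6 : ∀ᶠ z in 𝓝[≠] p, z ∈ O₁ := mem_nhdsWithin_of_mem_nhds (ho1.mem_nhds hp.1)
    filter_upwards [hU h6] with z hz
    rw [← hq z, hg1 z hz]
  have hy0 : algebraMap ℂ[X] (UG U) y ≠ 0 := by
    intro h6
    exact hy (h.out (h6.trans (map_zero (pol U)).symm))
  refine ⟨algebraMap _ _ q / algebraMap _ _ y, ?_⟩
  rw [map_div₀, ← IsScalarTower.algebraMap_apply, ← IsScalarTower.algebraMap_apply, ← h5, hx'd,
    Algebra.smul_def, mul_comm, mul_div_assoc, div_self hy0, mul_one]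

end Pool.Agent.Helper6.CO
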