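import Pool.Agent.Helper6.CO.Loc
import Pool.Agent.Helper6.CO.Ger

/-! Irreducibility of the cubic, and its behaviour at infinity. -/

set_option autoImplicit false

namespace Pool.Agent.Helper6.CO

open Polynomial Filter Topology Set Metric
open scoped ComplexConjugate

namespace Dat

variable (D : Dat)

/-- the leading form of the cubic -/
def T (u : ℂ) : ℂ := D.a * u ^ 3 + D.b1 * u ^ 2 + conj D.b1 * u + conj D.a

/-- its derivative -/
def T' (u : ℂ) : ℂ := 3 * D.a * u ^ 2 + 2 * D.b1 * u + conj D.b1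

/-- the curve is transversal to the line at infinity -/
def Tr : Prop := ∀ u, D.T u = 0 → D.T' u ≠ 0

noncomputable def q2 : ℂ[X] := C (D.a⁻¹ * D.b0) + C (D.a⁻¹ * D.b1) * X
noncomputable def q1 : ℂ[X] :=
  C (D.a⁻¹ * D.c0) + C (D.a⁻¹ * D.c1) * X + C (D.a⁻¹ * conj D.b1) * X ^ 2
noncomputable def q0 : ℂ[X] :=
  C (D.a⁻¹ * D.d0) + C (D.a⁻¹ * conj D.c0) * X + C (D.a⁻¹ * conj D.b0) * X ^ 2 +
    C (D.a⁻¹ * conj D.a) * X ^ 3

/-- the cubic as a polynomial in `w` -/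
noncomputable def Qc : ℂ[X][X] := X ^ 3 + C D.q2 * X ^ 2 + C D.q1 * X + C D.q0

variable {D}

theorem q2_deg : D.q2.natDegree ≤ 1 := by
  unfold q2
  compute_degree

theorem q1_deg : D.q1.natDegree ≤ 2 := by
  unfold q1
  compute_degree

theorem q0_deg : D.q0.natDegree ≤ 3 := by
  unfold q0
  compute_degree

theorem Qc_monic : D.Qc.Monic := by
  unfold Qc
  monicity!

theorem Qc_deg : D.Qc.natDegree = 3 := by
  unfold Qc
  compute_degree!

theorem ev_Qc (ha : D.a ≠ 0) (z w : ℂ) : ev D.Qc z w = D.a⁻¹ * D.f z w := by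
  simp only [ev, Qc, q2, q1, q0, f, Polynomial.map_add, Polynomial.map_mul, Polynomial.map_pow,
    map_X, map_C, coe_evalRingHom, eval_add, eval_mul, eval_pow, eval_X, eval_C]
  field_simp

theorem ev_Qc_zero (ha : D.a ≠ 0) {z w : ℂ} : ev D.Qc z w = 0 ↔ D.f z w = 0 := by
  rw [ev_Qc ha, mul_eq_zero, inv_eq_zero]
  exact ⟨fun h => h.resolve_left ha, Or.inr⟩

theorem f_line {l m : ℂ} (hS : D.Sm) (hT : D.Tr) : ¬ ∀ z, D.f z (l * z + m) = 0 := by
  intro h
  have hTl : D.T l = 0 := by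
    have h0 := h 0
    have h1 := h 1
    have h2 := h 2
    have h3 := h (-1)
    have h4 : 6 * D.T l = D.f 2 (l * 2 + m) - 3 * D.f 1 (l * 1 + m) + 3 * D.f 0 (l * 0 + m) -
        D.f (-1) (l * (-1) + m) := by
      simp only [T, f]
      ring
    rw [h0, h1, h2, h3] at h4
    have h5 : (6 : ℂ) ≠ 0 := by norm_num
    apply mul_left_cancel₀ h5
    rw [h4]
    ring
  have hT' := hT l hTl
  obtain ⟨s, hs⟩ := IsAlgClosed.exists_pow_nat_eq
    (discrim (D.T' l) (6 * D.a * l * m + 2 * D.b0 * l + 2 * D.b1 * m + D.c1)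
      (3 * D.a * m ^ 2 + 2 * D.b0 * m + D.c0)) (n := 2) (by norm_num)
  obtain ⟨z, hz⟩ := exists_quadratic_eq_zero hT' ⟨s, by rw [← hs, sq]⟩
  have hw : D.fw z (l * z + m) = 0 := by
    rw [← hz]
    simp only [fw, T']
    ring
  refine hS z (l * z + m) (h z) ?_ hw
  have h1 : HasDerivAt (fun z : ℂ => l * z + m) l z := by
    simpa using ((hasDerivAt_id z).const_mul l).add_const m
  have h2 := f_hasD (D := D) (hasDerivAt_id z) h1
  have h3 : (fun z => D.f (id z) (l * z + m)) = fun _ => 0 := funext fun z => h z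
  rw [h3] at h2
  have h4 := h2.unique (hasDerivAt_const z (0 : ℂ))
  simp only [id, mul_one] at h4
  rw [hw, zero_mul, add_zero] at h4
  exact h4

theorem no_root (ha : D.a ≠ 0) (hS : D.Sm) (hT : D.Tr) (L : ℂ[X]) : D.Qc.eval L ≠ 0 := by
  intro h
  have h0 : L ^ 3 = -(D.q2 * L ^ 2 + D.q1 * L + D.q0) := by
    rw [Qc] at h
    simp only [eval_add, eval_mul, eval_pow, eval_X, eval_C] at h
    linear_combination h
  have hdeg : L.natDegree ≤ 1 := by
    by_contra hcon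
    push Not at hcon
    have h1 : (L ^ 3).natDegree = 3 * L.natDegree := natDegree_pow L 3
    rw [h0, natDegree_neg] at h1
    have k2 : (D.q2 * L ^ 2).natDegree ≤ 1 + 2 * L.natDegree :=
      natDegree_mul_le.trans (add_le_add q2_deg natDegree_pow_le)
    have k1 : (D.q1 * L).natDegree ≤ 2 + L.natDegree :=
      natDegree_mul_le.trans (add_le_add q1_deg le_rfl)
    have k0 := D.q0_deg
    have k3 : (D.q2 * L ^ 2 + D.q1 * L + D.q0).natDegree < 3 * L.natDegree := by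
      refine lt_of_le_of_lt (natDegree_add_le _ _) (max_lt (lt_of_le_of_lt (natDegree_add_le _ _)
        (max_lt ?_ ?_)) ?_) <;> omega
    omega
  obtain ⟨l, m, rfl⟩ := exists_eq_X_add_C_of_natDegree_le_one hdeg
  refine f_line (l := l) (m := m) hS hT fun z => ?_
  rw [← ev_Qc_zero ha, ev]
  have h1 : (evalRingHom z) (D.Qc.eval (C l * X + C m)) = 0 := by rw [h, map_zero]
  rw [← eval_map_apply] at h1
  simpa using h1

theorem Qc_irr (ha : D.a ≠ 0) (hS : D.Sm) (hT : D.Tr) :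
    Irreducible (D.Qc.map (algebraMap ℂ[X] (FractionRing ℂ[X]))) := by
  have hd : (D.Qc.map (algebraMap ℂ[X] (FractionRing ℂ[X]))).natDegree = 3 := by
    rw [Qc_monic.natDegree_map, Qc_deg]
  rw [irreducible_iff_roots_eq_zero_of_degree_le_three (by omega) (by omega)]
  by_contra hcon
  obtain ⟨r, hr⟩ := Multiset.exists_mem_of_ne_zero hcon
  have h1 := (mem_roots'.1 hr).2
  rw [IsRoot.def, eval_map_algebraMap] at h1
  obtain ⟨L, hL⟩ := isInteger_of_is_root_of_monic Qc_monic h1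
  rw [← hL, aeval_algebraMap_apply, FaithfulSMul.algebraMap_eq_zero_iff] at h1
  exact no_root ha hS hT L (by simpa using h1)

theorem bd {G : ℂ × ℂ → ℂ} (hG : Continuous G) (M : ℝ) :
    ∃ K, 0 < K ∧ ∀ s u : ℂ, ‖s‖ ≤ 1 → ‖u‖ ≤ M → ‖G (s, u)‖ ≤ K := by
  obtain ⟨K, hK⟩ := ((isCompact_closedBall (0 : ℂ) 1).prod
    (isCompact_closedBall (0 : ℂ) M)).exists_bound_of_continuousOn hG.continuousOn
  refine ⟨max K 1, by positivity, fun s u hs hu => (hK (s, u) ⟨?_, ?_⟩).trans (le_max_left _ _)⟩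
  · simpa using hs
  · simpa using hu

/-- the growth of the derivative at infinity -/
theorem inf_bound (ha : D.a ≠ 0) (hT : D.Tr) : ∃ c R : ℝ, 0 < c ∧ 1 ≤ R ∧
    ∀ z w, R ≤ ‖z‖ → D.f z w = 0 → c * ‖z‖ ^ 2 ≤ ‖D.fw z w‖ := by
  -- the slopes are bounded
  obtain ⟨K, hK0, hK⟩ := bd (G := fun x : ℂ × ℂ => D.b1 + conj D.b1 * x.2 + conj D.a * x.2 ^ 2 +
    x.1 * (D.b0 + D.c1 * x.2 + conj D.b0 * x.2 ^ 2) + x.1 ^ 2 * (D.c0 * x.2 + conj D.c0 * x.2 ^ 2) +
    x.1 ^ 3 * D.d0 * x.2 ^ 2) (by fun_prop) 1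
  have hna : 0 < ‖D.a‖ := norm_pos_iff.2 ha
  set M : ℝ := max 1 (K / ‖D.a‖) with hM
  have hu : ∀ s u : ℂ, ‖s‖ ≤ 1 → D.T u + s * (D.b0 * u ^ 2 + D.c1 * u + conj D.b0) +
      s ^ 2 * (D.c0 * u + conj D.c0) + s ^ 3 * D.d0 = 0 → ‖u‖ ≤ M := by
    intro s u hs h
    rcases le_or_gt ‖u‖ 1 with h1 | h1
    · exact h1.trans (le_max_left _ _)
    have hu0 : u ≠ 0 := norm_pos_iff.1 (by linarith)
    have h2 : ‖u⁻¹‖ ≤ 1 := by
      rw [norm_inv]
      exact inv_le_one_of_one_le₀ h1.le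
    have h3 := hK s u⁻¹ hs h2
    have h4 : D.a * u = -(D.b1 + conj D.b1 * u⁻¹ + conj D.a * u⁻¹ ^ 2 +
        s * (D.b0 + D.c1 * u⁻¹ + conj D.b0 * u⁻¹ ^ 2) + s ^ 2 * (D.c0 * u⁻¹ + conj D.c0 * u⁻¹ ^ 2) +
        s ^ 3 * D.d0 * u⁻¹ ^ 2) := by
      rw [T] at h
      field_simp
      linear_combination h
    have h5 : ‖D.a‖ * ‖u‖ ≤ K := by
      rw [← norm_mul, h4, norm_neg]
      exact h3
    refine le_trans ?_ (le_max_right _ _)
    rw [le_div_iff₀ hna, mul_comm]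
    exact h5
  obtain ⟨K1, hK10, hK1⟩ := bd (G := fun x : ℂ × ℂ => (D.b0 * x.2 ^ 2 + D.c1 * x.2 + conj D.b0) +
      x.1 * (D.c0 * x.2 + conj D.c0) + x.1 ^ 2 * D.d0) (by fun_prop) M
  obtain ⟨K2, hK20, hK2⟩ := bd (G := fun x : ℂ × ℂ => (2 * D.b0 * x.2 + D.c1) + x.1 * D.c0)
    (by fun_prop) M
  obtain ⟨m, hm0, hm⟩ : ∃ m, 0 < m ∧ ∀ u : ℂ, ‖u‖ ≤ M → m ≤ ‖D.T u‖ + ‖D.T' u‖ := by
    have hcont : Continuous fun u : ℂ => ‖D.T u‖ + ‖D.T' u‖ := by
      unfold T T'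
      fun_prop
    have hM1 : (0 : ℝ) ≤ M := zero_le_one.trans (le_max_left _ _)
    obtain ⟨u0, hu0, hmin⟩ := (isCompact_closedBall (0 : ℂ) M).exists_isMinOn
      ⟨0, mem_closedBall_self hM1⟩ hcont.continuousOn
    refine ⟨‖D.T u0‖ + ‖D.T' u0‖, ?_, fun u hu => hmin (by simpa using hu)⟩
    by_cases h : D.T u0 = 0
    · have := norm_pos_iff.2 (hT u0 h)
      positivity
    · have := norm_pos_iff.2 h
      positivity
  refine ⟨m / 2, max 1 (2 * (K1 + K2) / m), by positivity, le_max_left _ _, ?_⟩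
  intro z w hz hf
  have hz1 : 1 ≤ ‖z‖ := (le_max_left _ _).trans hz
  have hz2 : 2 * (K1 + K2) / m ≤ ‖z‖ := (le_max_right _ _).trans hz
  have hzp : 0 < ‖z‖ := by linarith
  have hz0 : z ≠ 0 := norm_pos_iff.1 hzp
  set s := z⁻¹ with hs
  set u := w / z with hud
  have hsn : ‖s‖ ≤ 1 := by
    rw [hs, norm_inv]
    exact inv_le_one_of_one_le₀ hz1
  have hfu : D.T u + s * (D.b0 * u ^ 2 + D.c1 * u + conj D.b0) +
      s ^ 2 * (D.c0 * u + conj D.c0) + s ^ 3 * D.d0 = 0 := by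
    rw [f] at hf
    rw [T, hs, hud]
    field_simp
    linear_combination hf
  have huM := hu s u hsn hfu
  have h1 : ‖D.T u‖ ≤ K1 / ‖z‖ := by
    have h2 : D.T u = -(s * ((D.b0 * u ^ 2 + D.c1 * u + conj D.b0) +
      s * (D.c0 * u + conj D.c0) + s ^ 2 * D.d0)) := by linear_combination hfu
    rw [h2, norm_neg, norm_mul, hs, norm_inv, ← div_eq_inv_mul]
    exact div_le_div_of_nonneg_right (hK1 s u hsn huM) hzp.le
  have h2 : D.fw z w = z ^ 2 * (D.T' u + s * ((2 * D.b0 * u + D.c1) + s * D.c0)) := by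
    rw [fw, T', hs, hud]
    field_simp
    ring
  have h3 : ‖s * ((2 * D.b0 * u + D.c1) + s * D.c0)‖ ≤ K2 / ‖z‖ := by
    rw [norm_mul, hs, norm_inv, ← div_eq_inv_mul]
    exact div_le_div_of_nonneg_right (hK2 s u hsn huM) hzp.le
  have h4 : m / 2 ≤ ‖D.T' u + s * ((2 * D.b0 * u + D.c1) + s * D.c0)‖ := by
    have h5 : ‖D.T' u‖ ≤ ‖D.T' u + s * ((2 * D.b0 * u + D.c1) + s * D.c0)‖ +
        ‖s * ((2 * D.b0 * u + D.c1) + s * D.c0)‖ := by
      calc ‖D.T' u‖ = ‖(D.T' u + s * ((2 * D.b0 * u + D.c1) + s * D.c0)) -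
            s * ((2 * D.b0 * u + D.c1) + s * D.c0)‖ := by rw [add_sub_cancel_right]
        _ ≤ _ := norm_sub_le _ _
    have h6 := hm u huM
    have h7 : K1 / ‖z‖ + K2 / ‖z‖ ≤ m / 2 := by
      rw [← add_div, div_le_iff₀ hzp]
      rw [div_le_iff₀ hm0] at hz2
      linarith
    linarith
  rw [h2, norm_mul, norm_pow, mul_comm (m / 2)]
  exact mul_le_mul_of_nonneg_left h4 (by positivity)

theorem fw_ne_of_root (hS : D.Sm) {O : Set ℂ} (hO : IsOpen O) {Y : ℂ → ℂ}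
    (hY : ∀ z ∈ O, AnalyticAt ℂ Y z) (h0 : ∀ z ∈ O, D.f z (Y z) = 0) {z : ℂ} (hz : z ∈ O) :
    D.fw z (Y z) ≠ 0 := by
  intro hw
  refine hS z (Y z) (h0 z hz) ?_ hw
  have h2 := f_hasD (D := D) (hasDerivAt_id z) (hY z hz).differentiableAt.hasDerivAt
  have h3 : (fun z => D.f (id z) (Y z)) =ᶠ[𝓝 z] fun _ => 0 := by
    filter_upwards [hO.mem_nhds hz] with y hy
    exact h0 y hy
  have h4 := (h2.congr_of_eventuallyEq h3.symm).unique (hasDerivAt_const z (0 : ℂ))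
  simp only [id, mul_one] at h4
  rw [hw, zero_mul, add_zero] at h4
  exact h4

theorem phi_diff (hS : D.Sm) {O : Set ℂ} (hO : IsOpen O) {Y : ℂ → ℂ}
    (hY : ∀ z ∈ O, AnalyticAt ℂ Y z) (h0 : ∀ z ∈ O, D.f z (Y z) = 0) :
    DifferentiableOn ℂ (fun z => (D.fw z (Y z))⁻¹) O := by
  intro z hz
  have h1 := fw_ne_of_root hS hO hY h0 hz
  have h2 : DifferentiableAt ℂ (fun z => D.fw z (Y z)) z := by
    have := (hY z hz).differentiableAt
    unfold fw
    fun_prop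
  exact (h2.inv h1).differentiableWithinAt

/-- the sum over the roots -/
theorem sum_zero {z x y w : ℂ} (ha : D.a ≠ 0) (hx : D.f z x = 0) (hy : D.f z y = 0) (hw : D.f z w = 0)
    (h1 : x ≠ y) (h2 : x ≠ w) (h3 : y ≠ w) :
    (D.fw z x)⁻¹ + (D.fw z y)⁻¹ + (D.fw z w)⁻¹ = 0 := by
  set A := D.b0 + D.b1 * z with hA
  set B := D.c0 + D.c1 * z + conj D.b1 * z ^ 2 with hB
  have e1 : D.a * (x ^ 2 + x * y + y ^ 2) + A * (x + y) + B = 0 := by
    have : (x - y) * (D.a * (x ^ 2 + x * y + y ^ 2) + A * (x + y) + B) = 0 := by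
      rw [f, ← hA, ← hB] at hx hy
      linear_combination hx - hy
    exact (mul_eq_zero.1 this).resolve_left (sub_ne_zero.2 h1)
  have e2 : D.a * (x ^ 2 + x * w + w ^ 2) + A * (x + w) + B = 0 := by
    have : (x - w) * (D.a * (x ^ 2 + x * w + w ^ 2) + A * (x + w) + B) = 0 := by
      rw [f, ← hA, ← hB] at hx hw
      linear_combination hx - hw
    exact (mul_eq_zero.1 this).resolve_left (sub_ne_zero.2 h2)
  have e3 : D.a * (x + y + w) + A = 0 := by
    have : (y - w) * (D.a * (x + y + w) + A) = 0 := by linear_combination e1 - e2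
    exact (mul_eq_zero.1 this).resolve_left (sub_ne_zero.2 h3)
  have hA' : A = -(D.a * (x + y + w)) := by linear_combination e3
  have hB' : B = D.a * (x * y + x * w + y * w) := by
    rw [hA'] at e1
    linear_combination e1
  have f1 : D.fw z x = D.a * (x - y) * (x - w) := by
    rw [fw, ← hA, ← hB, hA', hB']
    ring
  have f2 : D.fw z y = D.a * (y - x) * (y - w) := by
    rw [fw, ← hA, ← hB, hA', hB']
    ring
  have f3 : D.fw z w = D.a * (w - x) * (w - y) := by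
    rw [fw, ← hA, ← hB, hA', hB']
    ring
  rw [f1, f2, f3]
  have g1 : x - y ≠ 0 := sub_ne_zero.2 h1
  have g2 : x - w ≠ 0 := sub_ne_zero.2 h2
  have g3 : y - w ≠ 0 := sub_ne_zero.2 h3
  rw [show y - x = -(x - y) by ring, show w - x = -(x - w) by ring, show w - y = -(y - w) by ring]
  field_simp
  ring

end Dat

end Pool.Agent.Helper6.CO
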