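import Mathlib

/-! Continuous functions which are holomorphic off the real line are holomorphic. -/

set_option autoImplicit false

namespace Pool.Agent.Helper6.CO

open Complex Set Metric MeasureTheory Interval

theorem rect_off {f : ℂ → ℂ} {z w : ℂ} {U : Set ℂ} (hzw : Rectangle z w ⊆ U)
    (hc : ContinuousOn f U) (hd : ∀ u ∈ U, u.im ≠ 0 → DifferentiableAt ℂ f u)
    (h0 : 0 ∉ Ioo (min z.im w.im) (max z.im w.im)) :
    (∫ x : ℝ in z.re..w.re, f (x + z.im * I)) - (∫ x : ℝ in z.re..w.re, f (x + w.im * I)) +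
      I • (∫ y : ℝ in z.im..w.im, f (re w + y * I)) -
      I • (∫ y : ℝ in z.im..w.im, f (re z + y * I)) = 0 := by
  refine integral_boundary_rect_eq_zero_of_continuousOn_of_differentiableOn f z w (hc.mono hzw) ?_
  intro u hu
  have h1 : u ∈ Rectangle z w :=
    ⟨Ioo_subset_Icc_self hu.1, Ioo_subset_Icc_self hu.2⟩
  refine (hd u (hzw h1) fun h2 => h0 ?_).differentiableWithinAt
  have h3 := hu.2
  rw [mem_preimage, h2] at h3
  exact h3

theorem line_rem {f : ℂ → ℂ} {U : Set ℂ} (hU : IsOpen U) (hc : ContinuousOn f U)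
    (hd : ∀ z ∈ U, z.im ≠ 0 → DifferentiableAt ℂ f z) : DifferentiableOn ℂ f U := by
  rw [← isConservativeOn_and_continuousOn_iff_isDifferentiableOn hU]
  refine ⟨fun z w hzw => ?_, hc⟩
  rw [← add_eq_zero_iff_eq_neg, wedgeIntegral_add_wedgeIntegral_eq]
  by_cases h0 : 0 ∈ Ioo (min z.im w.im) (max z.im w.im)
  swap
  · exact rect_off hzw hc hd h0
  have h0' : (0 : ℝ) ∈ [[z.im, w.im]] := Ioo_subset_Icc_self h0
  have e1 : [[z.im, (0 : ℝ)]] ⊆ [[z.im, w.im]] := uIcc_subset_uIcc left_mem_uIcc h0'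
  have e2 : [[(0 : ℝ), w.im]] ⊆ [[z.im, w.im]] := uIcc_subset_uIcc h0' right_mem_uIcc
  have h1 : Rectangle z ⟨w.re, 0⟩ ⊆ U := fun u hu => hzw ⟨hu.1, e1 hu.2⟩
  have h2 : Rectangle ⟨z.re, 0⟩ w ⊆ U := fun u hu => hzw ⟨hu.1, e2 hu.2⟩
  have k1 := rect_off h1 hc hd (by
    intro h
    rcases le_total z.im 0 with h' | h'
    · simp only [min_eq_left h', max_eq_right h'] at h
      exact lt_irrefl _ h.2
    · simp only [min_eq_right h', max_eq_left h'] at h
      exact lt_irrefl _ h.1)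
  have k2 := rect_off h2 hc hd (by
    intro h
    rcases le_total w.im 0 with h' | h'
    · simp only [min_eq_right h', max_eq_left h'] at h
      exact lt_irrefl _ h.2
    · simp only [min_eq_left h', max_eq_right h'] at h
      exact lt_irrefl _ h.1)
  have hv : ∀ x : ℝ, x ∈ [[z.re, w.re]] → ∀ a b : ℝ, [[a, b]] ⊆ [[z.im, w.im]] →
      IntervalIntegrable (fun y : ℝ => f (x + y * I)) volume a b := by
    intro x hx a b hab
    apply ContinuousOn.intervalIntegrable
    refine hc.comp (by fun_prop) fun y hy => hzw ⟨?_, ?_⟩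
    · simpa using hx
    · simpa using hab hy
  have k3 := intervalIntegral.integral_add_adjacent_intervals
    (hv w.re right_mem_uIcc z.im 0 e1) (hv w.re right_mem_uIcc 0 w.im e2)
  have k4 := intervalIntegral.integral_add_adjacent_intervals
    (hv z.re left_mem_uIcc z.im 0 e1) (hv z.re left_mem_uIcc 0 w.im e2)
  rw [← k3, ← k4]
  simp only [smul_eq_mul] at k1 k2 ⊢
  linear_combination k1 + k2

end Pool.Agent.Helper6.CO
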