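import Pool.Agent.Helper6.CO.Lin
import Pool.Agent.Helper6.CO.Dbr

/-! Real cubics in the coordinates `z` and `w = conj z`: local analysis. -/

set_option autoImplicit false

namespace Pool.Agent.Helper6.CO

open Complex Set Metric Filter Topology
open scoped ComplexConjugate ContDiff
open Pool.Agent.Helper523.LL (dbar)

/-- the coefficients of a real cubic in the coordinates `z`, `w = conj z` -/
structure Dat where
  a : ℂ
  b0 : ℂ
  b1 : ℂ
  c0 : ℂ
  c1 : ℝ
  d0 : ℝ

namespace Dat

variable (D : Dat)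

/-- the cubic -/
def f (z w : ℂ) : ℂ :=
  D.a * w ^ 3 + (D.b0 + D.b1 * z) * w ^ 2 + (D.c0 + D.c1 * z + conj D.b1 * z ^ 2) * w +
    (D.d0 + conj D.c0 * z + conj D.b0 * z ^ 2 + conj D.a * z ^ 3)

/-- the derivative with respect to `w` -/
def fw (z w : ℂ) : ℂ :=
  3 * D.a * w ^ 2 + 2 * (D.b0 + D.b1 * z) * w + (D.c0 + D.c1 * z + conj D.b1 * z ^ 2)

/-- the derivative with respect to `z` -/
def fz (z w : ℂ) : ℂ :=
  D.b1 * w ^ 2 + (D.c1 + 2 * conj D.b1 * z) * w +
    (conj D.c0 + 2 * conj D.b0 * z + 3 * conj D.a * z ^ 2)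

/-- the real cubic -/
def P (z : ℂ) : ℝ := (D.f z (conj z)).re

/-- no singular points in the affine plane -/
def Sm : Prop := ∀ z w, D.f z w = 0 → D.fz z w = 0 → D.fw z w ≠ 0

theorem f_conj (z w : ℂ) : conj (D.f z w) = D.f (conj w) (conj z) := by
  simp only [f, map_add, map_mul, map_pow, conj_conj, conj_ofReal]
  ring

theorem fw_conj (z w : ℂ) : conj (D.fw z w) = D.fz (conj w) (conj z) := by
  simp only [fw, fz, map_add, map_mul, map_pow, conj_conj, conj_ofReal, map_ofNat]
  ring

theorem f_diag (z : ℂ) : D.f z (conj z) = (D.P z : ℂ) := by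
  have h := D.f_conj z (conj z)
  rw [conj_conj] at h
  exact (conj_eq_iff_real.1 h).elim fun r hr => by rw [P, hr, ofReal_re]

theorem P_zero {z : ℂ} : D.P z = 0 ↔ D.f z (conj z) = 0 := by
  rw [f_diag, ofReal_eq_zero]

variable {D}

theorem fw_ne (hS : D.Sm) {p : ℂ} (hp : D.P p = 0) : D.fw p (conj p) ≠ 0 := by
  intro h
  refine hS p (conj p) (D.P_zero.1 hp) ?_ h
  have h1 := D.fw_conj p (conj p)
  rw [conj_conj, h, map_zero] at h1
  exact h1.symm

theorem f_hasD {g k : ℂ → ℂ} {g' k' z : ℂ} (hg : HasDerivAt g g' z) (hk : HasDerivAt k k' z) :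
    HasDerivAt (fun z => D.f (g z) (k z)) (D.fz (g z) (k z) * g' + D.fw (g z) (k z) * k') z := by
  unfold f
  have h1 := ((((hk.pow 3).const_mul D.a).add (((hg.const_mul D.b1).const_add D.b0).mul
    (hk.pow 2))).add (((((hg.const_mul (D.c1 : ℂ)).const_add D.c0).add
      ((hg.pow 2).const_mul (conj D.b1))).mul hk))).add
      ((((hg.const_mul (conj D.c0)).const_add (D.d0 : ℂ)).add
        ((hg.pow 2).const_mul (conj D.b0))).add ((hg.pow 3).const_mul (conj D.a)))
  refine (h1.congr_deriv ?_).congr_of_eventuallyEq (Eventually.of_forall fun x => ?_)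
  · simp only [fz, fw, Nat.cast_ofNat, Pi.pow_apply, Pi.add_apply]
    ring
  · simp only [Pi.add_apply, Pi.mul_apply, Pi.pow_apply]

theorem f_contDiff {n : ℕ∞ω} : ContDiff ℂ n fun v : ℂ × ℂ => D.f v.1 v.2 := by
  unfold f
  fun_prop

theorem f_contDiffR {n : ℕ∞ω} : ContDiff ℝ n fun z : ℂ => D.f z (conj z) := by
  have h : ContDiff ℝ n fun z : ℂ => conj z := conjCLE.contDiff
  unfold f
  fun_prop

theorem P_contDiff {n : ℕ∞ω} : ContDiff ℝ n D.P :=
  reCLM.contDiff.comp f_contDiffR

theorem dbar_P (z : ℂ) : dbar (fun z => (D.P z : ℂ)) z = D.fw z (conj z) := by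
  have h0 : (fun z => (D.P z : ℂ)) = fun z => D.f z (conj z) := by
    funext z
    rw [f_diag]
  rw [h0]
  unfold dbar
  have hd : DifferentiableAt ℝ (fun z : ℂ => D.f z (conj z)) z :=
    f_contDiffR (n := 1) |>.differentiable (by norm_num) z
  have key : ∀ u : ℂ, fderiv ℝ (fun z : ℂ => D.f z (conj z)) z u =
      D.fz z (conj z) * u + D.fw z (conj z) * conj u := by
    intro u
    have h1 : HasDerivAt (fun t : ℝ => D.f (z + t * u) (conj z + t * conj u))
        (D.fz z (conj z) * u + D.fw z (conj z) * conj u) 0 := by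
      have hg : HasDerivAt (fun t : ℂ => z + t * u) u 0 := by
        simpa using ((hasDerivAt_id (0 : ℂ)).mul_const u).const_add z
      have hk : HasDerivAt (fun t : ℂ => conj z + t * conj u) (conj u) 0 := by
        simpa using ((hasDerivAt_id (0 : ℂ)).mul_const (conj u)).const_add (conj z)
      have h2 := f_hasD (D := D) hg hk
      simp only [zero_mul, add_zero] at h2
      have h3 : HasDerivAt (fun t : ℂ => D.f (z + t * u) (conj z + t * conj u))
        (D.fz z (conj z) * u + D.fw z (conj z) * conj u) ((0 : ℝ) : ℂ) := by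
        rw [ofReal_zero]
        exact h2
      exact h3.comp_ofReal
    have h2 : HasDerivAt (fun t : ℝ => D.f (z + t * u) (conj (z + t * u)))
        (fderiv ℝ (fun z : ℂ => D.f z (conj z)) z u) 0 := by
      have h3 : HasDerivAt (fun t : ℝ => z + t * u) u 0 := by
        have h4 : HasDerivAt (fun t : ℝ => (t : ℂ)) 1 0 := ofRealCLM.hasDerivAt
        simpa using (h4.mul_const u).const_add z
      have h5 : HasFDerivAt (fun z : ℂ => D.f z (conj z))
          (fderiv ℝ (fun z : ℂ => D.f z (conj z)) z) (z + ((0 : ℝ) : ℂ) * u) := by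
        rw [ofReal_zero, zero_mul, add_zero]
        exact hd.hasFDerivAt
      exact h5.comp_hasDerivAt (0 : ℝ) h3
    have h3 : (fun t : ℝ => D.f (z + t * u) (conj (z + t * u))) =
        fun t : ℝ => D.f (z + t * u) (conj z + t * conj u) := by
      funext t
      simp only [map_add, map_mul, conj_ofReal]
    rw [h3] at h2
    exact h2.unique h1
  rw [key, key, map_one, conj_I]
  linear_combination (1 / 2 : ℂ) * (D.fz z (conj z) - D.fw z (conj z)) * I_mul_I

/-- the local analytic root -/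
theorem loc (hS : D.Sm) {p : ℂ} (hp : D.P p = 0) : ∃ ψ : ℂ → ℂ, AnalyticAt ℂ ψ p ∧
    ∀ᶠ v : ℂ × ℂ in 𝓝 (p, conj p), D.f v.1 v.2 = 0 ↔ ψ v.1 = v.2 := by
  set F : ℂ × ℂ → ℂ := fun v => D.f v.1 v.2 with hF
  have hF1 : ContDiffAt ℂ 1 F (p, conj p) := f_contDiff.contDiffAt
  have hne := fw_ne hS hp
  have hd : ∀ w, fderiv ℂ F (p, conj p) (0, w) = D.fw p (conj p) * w := by
    intro w
    have h1 : HasDerivAt (fun t : ℂ => F (p, conj p + t * w)) (D.fw p (conj p) * w) 0 := by
      have hg : HasDerivAt (fun _ : ℂ => p) 0 0 := hasDerivAt_const _ _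
      have hk : HasDerivAt (fun t : ℂ => conj p + t * w) w 0 := by
        simpa using ((hasDerivAt_id (0 : ℂ)).mul_const w).const_add (conj p)
      have h2 := f_hasD (D := D) hg hk
      simpa using h2
    have h2 : HasDerivAt (fun t : ℂ => F (p, conj p + t * w)) (fderiv ℂ F (p, conj p) (0, w)) 0 := by
      have h3 : HasDerivAt (fun t : ℂ => (p, conj p + t * w)) ((0 : ℂ), w) 0 := by
        have hg : HasDerivAt (fun _ : ℂ => p) 0 (0 : ℂ) := hasDerivAt_const _ _
        have hk : HasDerivAt (fun t : ℂ => conj p + t * w) w 0 := by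
          simpa using ((hasDerivAt_id (0 : ℂ)).mul_const w).const_add (conj p)
        exact hg.prodMk hk
      have h5 : HasFDerivAt F (fderiv ℂ F (p, conj p)) ((p, conj p + 0 * w)) := by
        rw [zero_mul, add_zero]
        exact (hF1.differentiableAt (by norm_num)).hasFDerivAt
      exact h5.comp_hasDerivAt (0 : ℂ) h3
    exact h2.unique h1
  have hinv : (fderiv ℂ F (p, conj p) ∘L .inr ℂ ℂ ℂ).IsInvertible := by
    refine ⟨ContinuousLinearEquiv.unitsEquivAut ℂ (Units.mk0 _ hne), ?_⟩
    ext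
    simp [hd]
  have h0 : F (p, conj p) = 0 := D.P_zero.1 hp
  refine ⟨hF1.implicitFunction (by norm_num) hinv, ?_, ?_⟩
  · have h1 := hF1.contDiffAt_implicitFunction (by norm_num) hinv
    have h2 : ∀ᶠ z in 𝓝 p, DifferentiableAt ℂ (hF1.implicitFunction (by norm_num) hinv) z := by
      filter_upwards [h1.eventually (by norm_num)] with z hz
      exact hz.differentiableAt (by norm_num)
    exact analyticAt_iff_eventually_differentiableAt.2 h2
  · filter_upwards [hF1.eventually_apply_eq_iff_implicitFunction (by norm_num) hinv] with v hv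
    rw [h0] at hv
    exact hv

end Dat

end Pool.Agent.Helper6.CO
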