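import Pool.Agent.Helper6.CO.Loc

/-! Real cubics in the coordinates `z` and `w = conj z`: charts. -/

set_option autoImplicit false

namespace Pool.Agent.Helper6.CO

open Complex Set Metric Filter Topology
open scoped ComplexConjugate ContDiff
open Pool.Agent.Helper523.LL (dbar)

theorem sign_const {K : Set ℂ} (hK : IsPreconnected K) {g : ℂ → ℝ} (hg : ContinuousOn g K)
    (h0 : ∀ z ∈ K, g z ≠ 0) : (∀ z ∈ K, 0 < g z) ∨ (∀ z ∈ K, g z < 0) := by
  by_contra hcon
  push Not at hcon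
  obtain ⟨⟨a, ha, ha'⟩, b, hb, hb'⟩ := hcon
  obtain ⟨c, hc, hc'⟩ := hK.intermediate_value ha hb hg ⟨ha', hb'⟩
  exact h0 c hc hc'

namespace Dat

variable {D : Dat}

/-- the local root near a compact set of real points -/
theorem exists_S (hS : D.Sm) {Γ : Set ℂ} (hc : IsCompact Γ) (h0 : ∀ p ∈ Γ, D.P p = 0) :
    ∃ S : ℂ → ℂ, ∀ p ∈ Γ, AnalyticAt ℂ S p ∧ S p = conj p ∧ ∀ᶠ z in 𝓝 p, D.f z (S z) = 0 := by
  classical
  -- uniform uniqueness
  obtain ⟨ε, hε, hu⟩ : ∃ ε > 0, ∀ᶠ z in 𝓝ˢ Γ, ∀ w w', D.f z w = 0 → ‖w - conj z‖ < ε →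
      D.f z w' = 0 → ‖w' - conj z‖ < ε → w = w' := by
    refine hc.induction_on (p := fun s => ∃ ε > 0, ∀ᶠ z in 𝓝ˢ s, ∀ w w', D.f z w = 0 →
      ‖w - conj z‖ < ε → D.f z w' = 0 → ‖w' - conj z‖ < ε → w = w') ?_ ?_ ?_ ?_
    · exact ⟨1, one_pos, by simp⟩
    · rintro s t hst ⟨ε, hε, h⟩
      exact ⟨ε, hε, h.filter_mono (nhdsSet_mono hst)⟩
    · rintro s t ⟨ε, hε, h⟩ ⟨ε', hε', h'⟩
      refine ⟨min ε ε', lt_min hε hε', ?_⟩
      rw [nhdsSet_union, eventually_sup]
      constructor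
      · filter_upwards [h] with z hz w w' h1 h2 h3 h4
        exact hz w w' h1 (h2.trans_le (min_le_left _ _)) h3 (h4.trans_le (min_le_left _ _))
      · filter_upwards [h'] with z hz w w' h1 h2 h3 h4
        exact hz w w' h1 (h2.trans_le (min_le_right _ _)) h3 (h4.trans_le (min_le_right _ _))
    · intro p hp
      obtain ⟨ψ, hψ, hv⟩ := loc hS (h0 p hp)
      obtain ⟨δ, hδ, hb⟩ := Metric.eventually_nhds_iff_ball.1 hv
      have hc : ContinuousAt (fun z : ℂ => conj z) p := by fun_prop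
      obtain ⟨η, hη, hb'⟩ := Metric.eventually_nhds_iff_ball.1
        (hc.eventually (Metric.ball_mem_nhds (conj p) (half_pos hδ)))
      set m := min η δ with hm
      have hm0 : 0 < m := lt_min hη hδ
      refine ⟨ball p m, mem_nhdsWithin_of_mem_nhds (ball_mem_nhds p hm0), δ / 2, half_pos hδ, ?_⟩
      rw [isOpen_ball.nhdsSet_eq, eventually_principal]
      intro z hz w w' h1 h2 h3 h4
      have hz1 : dist z p < δ := ball_subset_ball (min_le_right _ _) hz
      have hz2 : dist (conj z) (conj p) < δ / 2 := hb' z (ball_subset_ball (min_le_left _ _) hz)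
      have key : ∀ w, D.f z w = 0 → ‖w - conj z‖ < δ / 2 → ψ z = w := by
        intro w h1 h2
        refine (hb (z, w) ?_).1 h1
        rw [mem_ball, Prod.dist_eq]
        refine max_lt hz1 ?_
        calc dist w (conj p) ≤ dist w (conj z) + dist (conj z) (conj p) := dist_triangle _ _ _
          _ < δ / 2 + δ / 2 := by
            rw [dist_eq_norm w]
            exact add_lt_add h2 hz2
          _ = δ := by ring
      rw [← key w h1 h2, key w' h3 h4]
  refine ⟨fun z => if h : ∃ w, D.f z w = 0 ∧ ‖w - conj z‖ < ε then h.choose else 0, ?_⟩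
  intro p hp
  obtain ⟨ψ, hψ, hv⟩ := loc hS (h0 p hp)
  have hψp : ψ p = conj p := hv.self_of_nhds.1 (D.P_zero.1 (h0 p hp))
  have ht : Tendsto (fun z => (z, ψ z)) (𝓝 p) (𝓝 (p, conj p)) := by
    have h1 : ContinuousAt (fun z => (z, ψ z)) p := continuousAt_id.prodMk hψ.continuousAt
    have h2 := h1.tendsto
    rwa [hψp] at h2
  have hf : ∀ᶠ z in 𝓝 p, D.f z (ψ z) = 0 := by
    filter_upwards [ht.eventually hv] with z hz
    exact hz.2 rfl
  have hn : ∀ᶠ z in 𝓝 p, ‖ψ z - conj z‖ < ε := by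
    have h1 : ContinuousAt (fun z => ‖ψ z - conj z‖) p :=
      (hψ.continuousAt.sub (by fun_prop)).norm
    refine h1.eventually (gt_mem_nhds ?_)
    change ‖ψ p - conj p‖ < ε
    rw [hψp, sub_self, norm_zero]
    exact hε
  have heq : (fun z => if h : ∃ w, D.f z w = 0 ∧ ‖w - conj z‖ < ε then h.choose else 0) =ᶠ[𝓝 p]
      ψ := by
    have hu' := (eventually_nhdsSet_iff_forall.1 hu) p hp
    filter_upwards [hu', hf, hn] with z h1 h2 h3
    have h4 : ∃ w, D.f z w = 0 ∧ ‖w - conj z‖ < ε := ⟨ψ z, h2, h3⟩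
    simp only [dif_pos h4]
    exact h1 _ _ h4.choose_spec.1 h4.choose_spec.2 h2 h3
  refine ⟨hψ.congr heq.symm, ?_, ?_⟩
  · rw [heq.self_of_nhds, hψp]
  · filter_upwards [heq, hf] with z h1 h2
    rw [h1]
    exact h2

/-- a chart straightening the real locus -/
theorem chart (hS : D.Sm) {p : ℂ} (hp : D.P p = 0) : ∃ (v u : ℂ → ℂ) (r : ℝ), 0 < r ∧
    (v p).im = 0 ∧
    (∀ ζ ∈ ball (v p) r, DifferentiableAt ℂ u ζ ∧ v (u ζ) = ζ ∧ (D.P (u ζ) = 0 ↔ ζ.im = 0)) ∧
    (∀ᶠ z in 𝓝 p, u (v z) = z ∧ v z ∈ ball (v p) r ∧ DifferentiableAt ℂ v z) := by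
  obtain ⟨ψ, hψ, hv⟩ := loc hS hp
  have hψp : ψ p = conj p := hv.self_of_nhds.1 (D.P_zero.1 hp)
  have ht : Tendsto (fun z => (z, ψ z)) (𝓝 p) (𝓝 (p, conj p)) := by
    have h1 : ContinuousAt (fun z => (z, ψ z)) p := continuousAt_id.prodMk hψ.continuousAt
    have h2 := h1.tendsto
    rwa [hψp] at h2
  have ht2 : Tendsto (fun z => (z, conj z)) (𝓝 p) (𝓝 (p, conj p)) := by
    have h1 : ContinuousAt (fun z : ℂ => (z, conj z)) p := by fun_prop
    exact h1.tendsto
  have hf : ∀ᶠ z in 𝓝 p, D.f z (ψ z) = 0 := by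
    filter_upwards [ht.eventually hv] with z hz
    exact hz.2 rfl
  have hRc : ContinuousAt (fun z => conj (ψ z)) p :=
    continuous_conj.continuousAt.comp hψ.continuousAt
  have hRp : conj (ψ p) = p := by rw [hψp, conj_conj]
  have hRt : Tendsto (fun z => conj (ψ z)) (𝓝 p) (𝓝 p) := by
    have := hRc.tendsto
    rwa [hRp] at this
  have ht3 : Tendsto (fun z => (conj (ψ z), conj z)) (𝓝 p) (𝓝 (p, conj p)) := by
    have h1 : ContinuousAt (fun z : ℂ => (conj (ψ z), conj z)) p := hRc.prodMk (by fun_prop)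
    have h2 := h1.tendsto
    simpa only [hRp] using h2
  have hR : ∀ᶠ z in 𝓝 p, ψ (conj (ψ z)) = conj z := by
    filter_upwards [ht3.eventually hv, hf] with z h1 h2
    apply h1.1
    rw [← D.f_conj z (ψ z), h2, map_zero]
  -- the constant
  obtain ⟨c, hc⟩ : ∃ c : ℂ, conj c + c * deriv ψ p ≠ 0 := by
    by_contra hcon
    push Not at hcon
    have h1 := hcon 1
    have h2 := hcon I
    rw [map_one] at h1
    rw [conj_I] at h2
    have h3 : deriv ψ p = -1 := by linear_combination h1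
    rw [h3] at h2
    have h4 : I = 0 := by linear_combination (-1 / 2 : ℂ) * h2
    exact I_ne_zero h4
  set v : ℂ → ℂ := fun z => conj c * z + c * ψ z with hvdef
  have hva : AnalyticAt ℂ v p := (analyticAt_const.mul analyticAt_id).add (analyticAt_const.mul hψ)
  have hvd : deriv v p ≠ 0 := by
    have h1 : HasDerivAt v (conj c * 1 + c * deriv ψ p) p :=
      ((hasDerivAt_id p).const_mul (conj c)).add (hψ.differentiableAt.hasDerivAt.const_mul c)
    rw [h1.deriv, mul_one]
    exact hc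
  have hvp : (v p).im = 0 := by
    have h1 : conj (v p) = v p := by
      simp only [hvdef, hψp, map_add, map_mul, conj_conj]
      ring
    exact conj_eq_iff_im.1 h1
  set u := hva.hasStrictDerivAt.localInverse _ _ _ hvd with hu
  have hua : AnalyticAt ℂ u (v p) := hva.analyticAt_localInverse hvd
  have hup : u (v p) = p := HasStrictFDerivAt.localInverse_apply_image ..
  have hright : ∀ᶠ ζ in 𝓝 (v p), v (u ζ) = ζ := HasStrictDerivAt.eventually_right_inverse ..
  have hleft : ∀ᶠ z in 𝓝 p, u (v z) = z := HasStrictDerivAt.eventually_left_inverse ..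
  have hut : Tendsto u (𝓝 (v p)) (𝓝 p) := by
    have := hua.continuousAt.tendsto
    rwa [hup] at this
  have hvR : ∀ᶠ z in 𝓝 p, v (conj (ψ z)) = conj (v z) := by
    filter_upwards [hR] with z h1
    simp only [hvdef, h1, map_add, map_mul, conj_conj]
    ring
  have hloc : ∀ᶠ z in 𝓝 p, D.P z = 0 ↔ (v z).im = 0 := by
    filter_upwards [hvR, hf, hleft, hRt.eventually hleft, ht2.eventually hv] with z h1 h2 h3 h4 h5
    constructor
    · intro h6
      have h7 : ψ z = conj z := h5.1 (D.P_zero.1 h6)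
      have h8 : conj (v z) = v z := by
        simp only [hvdef, h7, map_add, map_mul, conj_conj]
        ring
      exact conj_eq_iff_im.1 h8
    · intro h6
      have h7 : v (conj (ψ z)) = v z := by
        rw [h1]
        exact conj_eq_iff_im.2 h6
      have h8 : conj (ψ z) = z := by
        rw [← h4, h7, h3]
      rw [P_zero]
      rw [show conj z = ψ z by rw [← h8, conj_conj, h8]]
      exact h2
  have hua' : ∀ᶠ ζ in 𝓝 (v p), DifferentiableAt ℂ u ζ := by
    filter_upwards [hua.eventually_analyticAt] with ζ h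
    exact h.differentiableAt
  obtain ⟨r, hr, hb⟩ := Metric.eventually_nhds_iff_ball.1
    (hua'.and (hright.and (hut.eventually hloc)))
  refine ⟨v, u, r, hr, hvp, fun ζ hζ => ?_, ?_⟩
  · obtain ⟨h1, h2, h3⟩ := hb ζ hζ
    refine ⟨h1, h2, ?_⟩
    rw [h3, h2]
  · filter_upwards [hleft, hva.continuousAt.eventually (ball_mem_nhds (v p) hr),
      hva.eventually_analyticAt] with z h1 h2 h3
    exact ⟨h1, h2, h3.differentiableAt⟩

theorem fderiv_P_ne (hS : D.Sm) {p : ℂ} (hp : D.P p = 0) : fderiv ℝ D.P p ≠ 0 := by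
  intro h
  have h1 : dbar (fun z => (D.P z : ℂ)) p = 0 := by
    have h2 : HasFDerivAt D.P (0 : ℂ →L[ℝ] ℝ) p := by
      rw [← h]
      exact ((P_contDiff (n := 1)).differentiable (by norm_num) p).hasFDerivAt
    have h3 : HasFDerivAt (fun z => (D.P z : ℂ)) (ofRealCLM.comp (0 : ℂ →L[ℝ] ℝ)) p :=
      ofRealCLM.hasFDerivAt.comp p h2
    unfold dbar
    rw [h3.fderiv]
    simp
  rw [dbar_P] at h1
  exact fw_ne hS hp h1

/-- the local structure of the real locus -/
theorem sides (hS : D.Sm) {p : ℂ} (hp : D.P p = 0) :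
    (∃ U ∈ 𝓝 p, IsPreconnected (U ∩ {z | D.P z = 0}) ∧ IsPreconnected (U ∩ {z | 0 < D.P z}) ∧
      IsPreconnected (U ∩ {z | D.P z < 0})) ∧ (∃ᶠ z in 𝓝 p, 0 < D.P z) ∧
      ∃ᶠ z in 𝓝 p, D.P z < 0 := by
  have hPc : Continuous D.P := (P_contDiff (n := 0)).continuous
  have hpos : ∃ᶠ z in 𝓝 p, 0 < D.P z := by
    intro hcon
    apply fderiv_P_ne hS hp
    refine IsLocalMax.fderiv_eq_zero ?_
    filter_upwards [hcon] with z hz
    rw [hp]
    exact not_lt.1 hz
  have hneg : ∃ᶠ z in 𝓝 p, D.P z < 0 := by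
    intro hcon
    apply fderiv_P_ne hS hp
    refine IsLocalMin.fderiv_eq_zero ?_
    filter_upwards [hcon] with z hz
    rw [hp]
    exact not_lt.1 hz
  refine ⟨?_, hpos, hneg⟩
  obtain ⟨v, u, r, hr, hvp, hb, hz⟩ := chart hS hp
  set B := ball (v p) r with hB
  have huc : ContinuousOn u B := fun ζ hζ => (hb ζ hζ).1.continuousAt.continuousWithinAt
  have hU : u '' B ∈ 𝓝 p := by
    filter_upwards [hz] with z h
    exact ⟨v z, h.2.1, h.1⟩
  have hconv : Convex ℝ B := convex_ball _ _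
  have c0 : IsPreconnected (B ∩ {ζ | ζ.im = 0}) :=
    (hconv.inter (convex_hyperplane (imLm.isLinear) 0)).isPreconnected
  have c1 : IsPreconnected (B ∩ {ζ | 0 < ζ.im}) :=
    (hconv.inter (convex_halfSpace_gt (imLm.isLinear) 0)).isPreconnected
  have c2 : IsPreconnected (B ∩ {ζ | ζ.im < 0}) :=
    (hconv.inter (convex_halfSpace_lt (imLm.isLinear) 0)).isPreconnected
  have d0 := c0.image u (huc.mono inter_subset_left)
  have d1 := c1.image u (huc.mono inter_subset_left)
  have d2 := c2.image u (huc.mono inter_subset_left)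
  have e0 : u '' B ∩ {z | D.P z = 0} = u '' (B ∩ {ζ | ζ.im = 0}) := by
    ext z
    constructor
    · rintro ⟨⟨ζ, h1, rfl⟩, h2⟩
      exact ⟨ζ, ⟨h1, (hb ζ h1).2.2.1 h2⟩, rfl⟩
    · rintro ⟨ζ, ⟨h1, h2⟩, rfl⟩
      exact ⟨⟨ζ, h1, rfl⟩, (hb ζ h1).2.2.2 h2⟩
  have s1 := sign_const d1 hPc.continuousOn (by
    rintro z ⟨ζ, ⟨h1, h2⟩, rfl⟩ h3
    exact (ne_of_gt h2) ((hb ζ h1).2.2.1 h3))
  have s2 := sign_const d2 hPc.continuousOn (by
    rintro z ⟨ζ, ⟨h1, h2⟩, rfl⟩ h3
    exact (ne_of_lt h2) ((hb ζ h1).2.2.1 h3))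
  have hcov : ∀ z ∈ u '' B, z ∈ u '' (B ∩ {ζ | 0 < ζ.im}) ∨ z ∈ u '' (B ∩ {ζ | ζ.im < 0}) ∨
      D.P z = 0 := by
    rintro z ⟨ζ, h1, rfl⟩
    rcases lt_trichotomy 0 ζ.im with h | h | h
    · exact Or.inl ⟨ζ, ⟨h1, h⟩, rfl⟩
    · exact Or.inr (Or.inr ((hb ζ h1).2.2.2 h.symm))
    · exact Or.inr (Or.inl ⟨ζ, ⟨h1, h⟩, rfl⟩)
  refine ⟨u '' B, hU, ?_, ?_⟩
  · rw [e0]
    exact d0
  rcases s1 with s1 | s1 <;> rcases s2 with s2 | s2
  · exfalso
    apply hneg
    filter_upwards [hU] with z h1 h2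
    rcases hcov z h1 with h | h | h
    · exact lt_asymm h2 (s1 z h)
    · exact lt_asymm h2 (s2 z h)
    · exact (ne_of_lt h2) h
  · have e1 : u '' B ∩ {z | 0 < D.P z} = u '' (B ∩ {ζ | 0 < ζ.im}) := by
      ext z
      constructor
      · rintro ⟨h1, h2⟩
        rcases hcov z h1 with h | h | h
        · exact h
        · exact absurd h2 (lt_asymm (s2 z h))
        · exact absurd h (ne_of_gt h2)
      · rintro h
        exact ⟨image_mono inter_subset_left h, s1 z h⟩
    have e2 : u '' B ∩ {z | D.P z < 0} = u '' (B ∩ {ζ | ζ.im < 0}) := by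
      ext z
      constructor
      · rintro ⟨h1, h2⟩
        rcases hcov z h1 with h | h | h
        · exact absurd h2 (lt_asymm (s1 z h))
        · exact h
        · exact absurd h (ne_of_lt h2)
      · rintro h
        exact ⟨image_mono inter_subset_left h, s2 z h⟩
    rw [e1, e2]
    exact ⟨d1, d2⟩
  · have e1 : u '' B ∩ {z | 0 < D.P z} = u '' (B ∩ {ζ | ζ.im < 0}) := by
      ext z
      constructor
      · rintro ⟨h1, h2⟩
        rcases hcov z h1 with h | h | h
        · exact absurd h2 (lt_asymm (s1 z h))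
        · exact h
        · exact absurd h (ne_of_gt h2)
      · rintro h
        exact ⟨image_mono inter_subset_left h, s2 z h⟩
    have e2 : u '' B ∩ {z | D.P z < 0} = u '' (B ∩ {ζ | 0 < ζ.im}) := by
      ext z
      constructor
      · rintro ⟨h1, h2⟩
        rcases hcov z h1 with h | h | h
        · exact h
        · exact absurd h2 (lt_asymm (s2 z h))
        · exact absurd h (ne_of_lt h2)
      · rintro h
        exact ⟨image_mono inter_subset_left h, s1 z h⟩
    rw [e1, e2]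
    exact ⟨d2, d1⟩
  · exfalso
    apply hpos
    filter_upwards [hU] with z h1 h2
    rcases hcov z h1 with h | h | h
    · exact lt_asymm h2 (s1 z h)
    · exact lt_asymm h2 (s2 z h)
    · exact (ne_of_gt h2) h

/-- continuous functions which are holomorphic off the real locus are holomorphic -/
theorem rem_curve (hS : D.Sm) {p : ℂ} (hp : D.P p = 0) {h : ℂ → ℂ}
    (hc : ∀ᶠ z in 𝓝 p, ContinuousAt h z)
    (hd : ∀ᶠ z in 𝓝 p, D.P z ≠ 0 → DifferentiableAt ℂ h z) : AnalyticAt ℂ h p := by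
  obtain ⟨v, u, r, hr, hvp, hb, hz⟩ := chart hS hp
  have hup : u (v p) = p := hz.self_of_nhds.1
  have hcb : v p ∈ ball (v p) r := mem_ball_self hr
  have hut : Tendsto u (𝓝 (v p)) (𝓝 p) := by
    have := (hb _ hcb).1.continuousAt.tendsto
    rwa [hup] at this
  obtain ⟨s, hs, hbs⟩ := Metric.eventually_nhds_iff_ball.1
    (hut.eventually (hc.and hd))
  set t := min r s with ht
  have ht0 : 0 < t := lt_min hr hs
  have h1 : DifferentiableOn ℂ (fun ζ => h (u ζ)) (ball (v p) t) := by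
    refine line_rem isOpen_ball ?_ ?_
    · intro ζ hζ
      have h2 := (hbs ζ (ball_subset_ball (min_le_right _ _) hζ)).1
      have h3 := (hb ζ (ball_subset_ball (min_le_left _ _) hζ)).1.continuousAt
      exact (ContinuousAt.comp (f := u) (g := h) h2 h3).continuousWithinAt
    · intro ζ hζ him
      have hζ' := ball_subset_ball (min_le_left r s) hζ
      have h2 := (hbs ζ (ball_subset_ball (min_le_right _ _) hζ)).2
        (fun h => him ((hb ζ hζ').2.2.1 h))
      exact h2.comp ζ (hb ζ hζ').1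
  rw [analyticAt_iff_eventually_differentiableAt]
  have hvc : ContinuousAt v p := hz.self_of_nhds.2.2.continuousAt
  filter_upwards [hz, hz.eventually_nhds, hvc.eventually (ball_mem_nhds (v p) ht0)] with z h2 h3 h4
  have h5 : DifferentiableAt ℂ (fun ζ => h (u ζ)) (v z) :=
    (h1 (v z) h4).differentiableAt (isOpen_ball.mem_nhds h4)
  have h6 : DifferentiableAt ℂ (fun z => h (u (v z))) z := h5.comp z h2.2.2
  refine h6.congr_of_eventuallyEq ?_
  filter_upwards [h3] with y hy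
  rw [hy.1]

end Dat

end Pool.Agent.Helper6.CO
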