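import Pool.Agent.Helper6.CO.Defs
import Pool.Agent.Helper6.CO.Fin

/-! From coefficient vectors to the coordinates `z`, `conj z`. -/

set_option autoImplicit false

namespace Pool.Agent.Helper6.CO

open Complex Set Filter Topology
open scoped ComplexConjugate

def m00 : Mon := ⟨(0, 0), by decide⟩
def m10 : Mon := ⟨(1, 0), by decide⟩
def m20 : Mon := ⟨(2, 0), by decide⟩
def m01 : Mon := ⟨(0, 1), by decide⟩
def m11 : Mon := ⟨(1, 1), by decide⟩
def m02 : Mon := ⟨(0, 2), by decide⟩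

theorem mon_univ : (Finset.univ : Finset Mon) = {m00, m10, m20, m30, m01, m11, m21, m02, m12, m03} := by
  decide

theorem mon_sum {M : Type} [AddCommMonoid M] (F : Mon → M) : ∑ m : Mon, F m =
    F m00 + (F m10 + (F m20 + (F m30 + (F m01 + (F m11 + (F m21 + (F m02 + (F m12 + F m03)))))))) := by
  rw [mon_univ, Finset.sum_insert (by decide), Finset.sum_insert (by decide),
    Finset.sum_insert (by decide), Finset.sum_insert (by decide), Finset.sum_insert (by decide),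
    Finset.sum_insert (by decide), Finset.sum_insert (by decide), Finset.sum_insert (by decide),
    Finset.sum_insert (by decide), Finset.sum_singleton]

/-- the data of a coefficient vector -/
noncomputable def dat (c : Mon → ℝ) : Dat where
  a := ((c m30 - c m12 : ℝ) + (c m21 - c m03 : ℝ) * I) / 8
  b0 := ((c m20 - c m02 : ℝ) + (c m11 : ℝ) * I) / 4
  b1 := ((3 * c m30 + c m12 : ℝ) + (c m21 + 3 * c m03 : ℝ) * I) / 8
  c0 := ((c m10 : ℝ) + (c m01 : ℝ) * I) / 2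
  c1 := (c m20 + c m02) / 2
  d0 := c m00

/-- the complex value -/
noncomputable def F3 (c : Mon → ℝ) (x y : ℂ) : ℂ :=
  c m00 + c m10 * x + c m20 * x ^ 2 + c m30 * x ^ 3 + c m01 * y + c m11 * x * y +
    c m21 * x ^ 2 * y + c m02 * y ^ 2 + c m12 * x * y ^ 2 + c m03 * y ^ 3

noncomputable def F3x (c : Mon → ℝ) (x y : ℂ) : ℂ :=
  c m10 + 2 * c m20 * x + 3 * c m30 * x ^ 2 + c m11 * y + 2 * c m21 * x * y + c m12 * y ^ 2

noncomputable def F3y (c : Mon → ℝ) (x y : ℂ) : ℂ :=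
  c m01 + c m11 * x + c m21 * x ^ 2 + 2 * c m02 * y + 2 * c m12 * x * y + 3 * c m03 * y ^ 2

noncomputable def F3t (c : Mon → ℝ) (x y : ℂ) : ℂ :=
  3 * c m00 + 2 * c m10 * x + c m20 * x ^ 2 + 2 * c m01 * y + c m11 * x * y + c m02 * y ^ 2

theorem conj_dat (c : Mon → ℝ) :
    conj (dat c).a = ((c m30 - c m12 : ℝ) - (c m21 - c m03 : ℝ) * I) / 8 ∧
    conj (dat c).b0 = ((c m20 - c m02 : ℝ) - (c m11 : ℝ) * I) / 4 ∧
    conj (dat c).b1 = ((3 * c m30 + c m12 : ℝ) - (c m21 + 3 * c m03 : ℝ) * I) / 8 ∧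
    conj (dat c).c0 = ((c m10 : ℝ) - (c m01 : ℝ) * I) / 2 := by
  simp only [dat, map_div₀, map_add, map_mul, conj_ofReal, conj_I, map_ofNat]
  refine ⟨?_, ?_, ?_, ?_⟩ <;> ring

theorem hI3 : I ^ 3 = -I := by
  rw [pow_succ, I_sq]
  ring

theorem hI4 : I ^ 4 = 1 := by
  rw [show (4 : ℕ) = 2 * 2 by norm_num, pow_mul, I_sq]
  norm_num

theorem f_xy (c : Mon → ℝ) (x y : ℂ) : (dat c).f (x + y * I) (x - y * I) = F3 c x y := by
  obtain ⟨h1, h2, h3, h4⟩ := conj_dat c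
  rw [Dat.f, h1, h2, h3, h4, F3]
  simp only [dat]
  push_cast
  ring_nf
  simp only [I_sq, hI3, hI4]
  ring

theorem fz_xy (c : Mon → ℝ) (x y : ℂ) :
    (dat c).fz (x + y * I) (x - y * I) + (dat c).fw (x + y * I) (x - y * I) = F3x c x y := by
  obtain ⟨h1, h2, h3, h4⟩ := conj_dat c
  rw [Dat.fz, Dat.fw, h1, h2, h3, h4, F3x]
  simp only [dat]
  push_cast
  ring_nf
  simp only [I_sq, hI3, hI4]
  ring

theorem fw_xy (c : Mon → ℝ) (x y : ℂ) :
    I * (dat c).fz (x + y * I) (x - y * I) - I * (dat c).fw (x + y * I) (x - y * I) = F3y c x y := by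
  obtain ⟨h1, h2, h3, h4⟩ := conj_dat c
  rw [Dat.fz, Dat.fw, h1, h2, h3, h4, F3y]
  simp only [dat]
  push_cast
  ring_nf
  simp only [I_sq, hI3, hI4]
  ring

theorem euler (c : Mon → ℝ) (x y : ℂ) : x * F3x c x y + y * F3y c x y + F3t c x y = 3 * F3 c x y := by
  simp only [F3x, F3y, F3t, F3]
  ring

theorem cubic_eq (c : Mon → ℝ) (z : ℂ) : cubic c z = (dat c).P z := by
  have h1 : (dat c).f z (conj z) = F3 c z.re z.im := by
    rw [← f_xy, re_add_im]
    congr 1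
    apply Complex.ext <;> simp
  rw [Dat.P, h1, cubic, mon_sum, F3]
  have h2 : ((c m00 : ℂ) + c m10 * z.re + c m20 * z.re ^ 2 + c m30 * z.re ^ 3 + c m01 * z.im +
      c m11 * z.re * z.im + c m21 * z.re ^ 2 * z.im + c m02 * z.im ^ 2 + c m12 * z.re * z.im ^ 2 +
      c m03 * z.im ^ 3) = ((c m00 + c m10 * z.re + c m20 * z.re ^ 2 + c m30 * z.re ^ 3 +
      c m01 * z.im + c m11 * z.re * z.im + c m21 * z.re ^ 2 * z.im + c m02 * z.im ^ 2 +
      c m12 * z.re * z.im ^ 2 + c m03 * z.im ^ 3 : ℝ) : ℂ) := by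
    push_cast
    ring
  rw [h2, ofReal_re]
  simp [m00, m10, m20, m30, m01, m11, m21, m02, m12, m03]
  ring

open MvPolynomial in
theorem hom_eq (c : Mon → ℝ) : homCubic c = C (c m00 : ℂ) * X 2 ^ 3 + (C (c m10 : ℂ) * X 0 * X 2 ^ 2 +
    (C (c m20 : ℂ) * X 0 ^ 2 * X 2 + (C (c m30 : ℂ) * X 0 ^ 3 + (C (c m01 : ℂ) * X 1 * X 2 ^ 2 +
    (C (c m11 : ℂ) * X 0 * X 1 * X 2 + (C (c m21 : ℂ) * X 0 ^ 2 * X 1 + (C (c m02 : ℂ) * X 1 ^ 2 * X 2 +
    (C (c m12 : ℂ) * X 0 * X 1 ^ 2 + C (c m03 : ℂ) * X 1 ^ 3)))))))) := by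
  rw [homCubic, mon_sum]
  simp [m00, m10, m20, m30, m01, m11, m21, m02, m12, m03]

theorem sm_of (c : Mon → ℝ) (h : SmoothCubic c) : (dat c).Sm := by
  intro z w h1 h2 h3
  set x := (z + w) / 2 with hx
  set y := (z - w) / (2 * I) with hy
  have hz : z = x + y * I := by
    rw [hx, hy]
    field_simp
    ring
  have hw : w = x - y * I := by
    rw [hx, hy]
    field_simp
    ring
  have e1 : F3 c x y = 0 := by rw [← f_xy, ← hz, ← hw, h1]
  have e2 : F3x c x y = 0 := by rw [← fz_xy, ← hz, ← hw, h2, h3, add_zero]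
  have e3 : F3y c x y = 0 := by rw [← fw_xy, ← hz, ← hw, h2, h3, mul_zero, sub_zero]
  have e4 : F3t c x y = 0 := by
    have := euler c x y
    rw [e1, e2, e3] at this
    linear_combination this
  obtain ⟨i, hi⟩ := h ![x, y, 1] (fun h0 => by
    have := congrFun h0 2
    simp at this) (by
    rw [hom_eq, ← e1, F3]
    simp
    ring)
  apply hi
  rw [hom_eq]
  fin_cases i
  · rw [← e2, F3x]
    simp [MvPolynomial.pderiv_X]
    ring
  · rw [← e3, F3y]
    simp [MvPolynomial.pderiv_X]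
    ring
  · rw [← e4, F3t]
    simp [MvPolynomial.pderiv_X]
    ring

/-- the discriminant of the leading form -/
noncomputable def disc (a b c d : ℝ) : ℝ :=
  b ^ 2 * c ^ 2 - 4 * a * c ^ 3 - 4 * b ^ 3 * d - 27 * a ^ 2 * d ^ 2 + 18 * a * b * c * d

theorem tr_of (c : Mon → ℝ) (h : disc (c m30) (c m21) (c m12) (c m03) ≠ 0) : (dat c).Tr := by
  intro u h1 h2
  set x := (1 + u) / 2 with hx
  set y := (u - 1) * I / 2 with hy
  set p := 3 * (c m30 : ℂ) * x ^ 2 + 2 * c m21 * x * y + c m12 * y ^ 2 with hp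
  set q := (c m21 : ℂ) * x ^ 2 + 2 * c m12 * x * y + 3 * c m03 * y ^ 2 with hq
  obtain ⟨k1, k2, k3, k4⟩ := conj_dat c
  have e1 : 3 * (dat c).T u = x * p + y * q := by
    rw [Dat.T, k1, k3, hp, hq, hx, hy]
    simp only [dat]
    push_cast
    ring_nf
    simp only [I_sq, hI3, hI4]
    ring
  have e2 : 2 * (dat c).T' u = p + I * q := by
    rw [Dat.T', k3, hp, hq, hx, hy]
    simp only [dat]
    push_cast
    ring_nf
    simp only [I_sq, hI3, hI4]
    ring
  rw [h1, mul_zero] at e1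
  rw [h2, mul_zero] at e2
  have hxy : y - I * x = -I := by
    rw [hx, hy]
    ring
  have hq0 : q = 0 := by
    have e3 : (y - I * x) * q = 0 := by linear_combination x * e2 - e1
    rw [hxy] at e3
    rcases mul_eq_zero.1 e3 with e4 | e4
    · exact absurd (neg_eq_zero.1 e4) I_ne_zero
    · exact e4
  have hp0 : p = 0 := by
    rw [hq0] at e2
    linear_combination -e2
  have hne : (disc (c m30) (c m21) (c m12) (c m03) : ℂ) ≠ 0 := by exact_mod_cast h
  have r1 : (disc (c m30) (c m21) (c m12) (c m03) : ℂ) * (-3 * x ^ 3) = 0 := by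
    have e5 : (disc (c m30) (c m21) (c m12) (c m03) : ℂ) * (-3 * x ^ 3) =
        ((4 * c m12 ^ 3 - 15 * c m21 * c m12 * c m03 + 27 * c m30 * c m03 ^ 2) * x +
          (6 * c m12 ^ 2 * c m03 - 18 * c m21 * c m03 ^ 2) * y) * p +
        ((-3 * c m21 * c m12 ^ 2 + 12 * c m21 ^ 2 * c m03 - 9 * c m30 * c m12 * c m03) * x +
          (-2 * c m12 ^ 3 + 6 * c m21 * c m12 * c m03) * y) * q := by
      rw [hp, hq, disc]
      push_cast
      ring
    rw [e5, hp0, hq0]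
    ring
  have r2 : (disc (c m30) (c m21) (c m12) (c m03) : ℂ) * (-3 * y ^ 3) = 0 := by
    have e5 : (disc (c m30) (c m21) (c m12) (c m03) : ℂ) * (-3 * y ^ 3) =
        ((-2 * c m21 ^ 3 + 6 * c m30 * c m21 * c m12) * x +
          (-3 * c m21 ^ 2 * c m12 + 12 * c m30 * c m12 ^ 2 - 9 * c m30 * c m21 * c m03) * y) * p +
        ((6 * c m30 * c m21 ^ 2 - 18 * c m30 ^ 2 * c m12) * x +
          (4 * c m21 ^ 3 - 15 * c m30 * c m21 * c m12 + 27 * c m30 ^ 2 * c m03) * y) * q := by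
      rw [hp, hq, disc]
      push_cast
      ring
    rw [e5, hp0, hq0]
    ring
  have hx0 : x = 0 := by
    have := (mul_eq_zero.1 r1).resolve_left hne
    simpa using this
  have hy0 : y = 0 := by
    have := (mul_eq_zero.1 r2).resolve_left hne
    simpa using this
  rw [hx0, hy0] at hxy
  apply I_ne_zero
  linear_combination hxy

theorem a_of (c : Mon → ℝ) (h : (c m30 - c m12) ^ 2 + (c m21 - c m03) ^ 2 ≠ 0) : (dat c).a ≠ 0 := by
  intro h0
  apply h
  have h1 : ((c m30 - c m12 : ℝ) : ℂ) + (c m21 - c m03 : ℝ) * I = 0 := by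
    have : (dat c).a = ((c m30 - c m12 : ℝ) + (c m21 - c m03 : ℝ) * I) / 8 := rfl
    rw [this] at h0
    linear_combination 8 * h0
  have h2 := congrArg re h1
  have h3 := congrArg im h1
  simp at h2 h3
  rw [h2, h3]
  ring

theorem eval_exc (c : Mon → ℝ) : MvPolynomial.eval c exceptional =
    ((c m30 - c m12) ^ 2 + (c m21 - c m03) ^ 2) * disc (c m30) (c m21) (c m12) (c m03) := by
  simp [exceptional, disc, m30, m21, m12, m03]

theorem exc_ne : exceptional ≠ 0 := by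
  intro h
  have h1 := eval_exc (fun m => if m = m30 ∨ m = m03 then 1 else 0)
  rw [h, map_zero] at h1
  have k1 : ¬(m12 = m30 ∨ m12 = m03) := by decide
  have k2 : ¬(m21 = m30 ∨ m21 = m03) := by decide
  simp only [k1, k2, if_false, true_or, or_true, if_true, disc] at h1
  norm_num at h1

/-- **The main theorem.** -/
theorem main_thm (c : Mon → ℝ) (hB : MvPolynomial.eval c exceptional ≠ 0)
    (hS : SmoothCubic c) (Γ Ω : Set ℂ) (hΓ : IsOval c Γ) (hΩ : IsInside Γ Ω) (V : Set ℂ)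
    (hV : IsOpen V) (hVn : V.Nonempty) (hVs : V ⊆ (closure Ω)ᶜ) :
    ¬ AlgebraicOn V (cauchyTransform Ω) := by
  intro hQ
  rw [eval_exc, mul_ne_zero_iff] at hB
  obtain ⟨p, hp, hΓ1, hΓ2⟩ := hΓ
  obtain ⟨q, hq, hΩ1, hΩ2⟩ := hΩ
  obtain ⟨Q, hQ0, hQ1⟩ := hQ
  have hset : {z | cubic c z = 0} = {z | (dat c).P z = 0} := by
    ext z
    change cubic c z = 0 ↔ (dat c).P z = 0
    rw [cubic_eq]
  have h : Oval (dat c) p q Γ Ω := ⟨sm_of c hS, by rw [← cubic_eq]; exact hp,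
    by rw [hΓ1, hset], hΓ2, hq, hΩ1, hΩ2⟩
  refine main_dat h (a_of c hB.1) (tr_of c hB.2) hV hVn hVs hQ0 fun z hz => ?_
  rw [ev, Polynomial.map_evalRingHom_eval]
  exact hQ1 z hz

end Pool.Agent.Helper6.CO
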